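import Mathlib

/-! The two theorems of Mertens (copied from the team libraries of MP_164d34_nt, MP_30b5ba_nt). -/

namespace Pool.Agent.Lib.MP_a3b3a7_nt.Mert

section

open MeasureTheory Finset ArithmeticFunction

theorem mn_sum_log (N : ℕ) : N * Real.log N - N ≤ ∑ n ∈ Ioc 0 N, Real.log n ∧
    ∑ n ∈ Ioc 0 N, Real.log n ≤ N * Real.log N := by
  induction N with
  | zero => simp
  | succ N ih =>
    rw [sum_Ioc_succ_top (Nat.zero_le N)]
    rcases Nat.eq_zero_or_pos N with rfl | hN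
    · simp
    have h0 : (0 : ℝ) < N := Nat.cast_pos.2 hN
    have h1 : Real.log N ≤ Real.log ((N : ℝ) + 1) := Real.log_le_log h0 (by linarith)
    have h2 : Real.log ((N : ℝ) + 1) - Real.log N ≤ 1 / N := by
      rw [← Real.log_div (by linarith) h0.ne']
      refine (Real.log_le_sub_one_of_pos (by positivity)).trans (le_of_eq ?_)
      field_simp; ring
    rw [le_div_iff₀ h0] at h2
    push_cast
    constructor <;> nlinarith [ih.1, ih.2]

theorem mn_mertens (N : ℕ) : Real.log N - 1 ≤ ∑ n ∈ Ioc 0 N, vonMangoldt n / n ∧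
    ∑ n ∈ Ioc 0 N, vonMangoldt n / n ≤ Real.log N + 6 := by
  rcases Nat.eq_zero_or_pos N with rfl | hN
  · simp
  have h0 : (0 : ℝ) < N := Nat.cast_pos.2 hN
  have h1 := sum_Ioc_mul_zeta_eq_sum vonMangoldt N
  rw [vonMangoldt_mul_zeta] at h1
  simp only [log_apply] at h1
  obtain ⟨h2, h3⟩ := mn_sum_log N
  have h4 : ∑ n ∈ Ioc 0 N, vonMangoldt n * ((N / n : ℕ) : ℝ)
      ≤ N * ∑ n ∈ Ioc 0 N, vonMangoldt n / n := by
    rw [mul_sum]
    refine sum_le_sum fun n _ => ?_
    have := mul_le_mul_of_nonneg_left (Nat.cast_div_le (α := ℝ) (m := N) (n := n))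
      (vonMangoldt_nonneg (n := n))
    exact this.trans (le_of_eq (by ring))
  have h5 : N * ∑ n ∈ Ioc 0 N, vonMangoldt n / n
      ≤ ∑ n ∈ Ioc 0 N, vonMangoldt n * ((N / n : ℕ) : ℝ) + ∑ n ∈ Ioc 0 N, vonMangoldt n := by
    rw [mul_sum, ← sum_add_distrib]
    refine sum_le_sum fun n hn => ?_
    have hn0 : 0 < n := (mem_Ioc.1 hn).1
    have k : (N : ℝ) / n ≤ ((N / n : ℕ) : ℝ) + 1 := by
      rw [div_le_iff₀ (Nat.cast_pos.2 hn0)]
      have := Nat.lt_div_mul_add (a := N) hn0
      have : (N : ℝ) < ((N / n : ℕ) : ℝ) * n + n := by exact_mod_cast this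
      linarith
    have := mul_le_mul_of_nonneg_left k (vonMangoldt_nonneg (n := n))
    calc _ = vonMangoldt n * ((N : ℝ) / n) := by ring
      _ ≤ _ := this
      _ = _ := by ring
  have h6 : ∑ n ∈ Ioc 0 N, vonMangoldt n ≤ 6 * (N : ℝ) := by
    have := Chebyshev.psi_le_const_mul_self h0.le
    rw [Chebyshev.psi, Nat.floor_natCast] at this
    have l4 : Real.log 4 ≤ 2 := by
      have : Real.log 4 = 2 * Real.log 2 := by
        rw [show (4 : ℝ) = 2 ^ 2 by norm_num, Real.log_pow]; norm_num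
      linarith [Real.log_two_lt_d9]
    nlinarith
  constructor
  · refine le_of_mul_le_mul_left ?_ h0; linarith
  · refine le_of_mul_le_mul_left ?_ h0; linarith

end

open Finset Filter Topology MeasureTheory
open scoped Classical

/-- `∑_{p ≤ N} log p / p`. -/
noncomputable def A (N : ℕ) : ℝ := ∑ n ∈ Ioc 0 N, if n.Prime then Real.log n / n else 0

/-- `∑_{p ≤ N} 1 / p`. -/
noncomputable def S (N : ℕ) : ℝ := ∑ n ∈ Ioc 0 N, if n.Prime then 1 / (n : ℝ) else 0

theorem A_nonneg (N : ℕ) : 0 ≤ A N := by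
  refine sum_nonneg fun n _ => ?_
  split_ifs
  · exact div_nonneg (Real.log_natCast_nonneg n) (Nat.cast_nonneg n)
  · exact le_rfl

theorem A_bound : ∃ C : ℝ, 0 < C ∧ ∀ N : ℕ, Real.log N - C ≤ A N ∧ A N ≤ Real.log N + C := by
  have hs := ArithmeticFunction.vonMangoldt.summable_residueClass_non_primes_div (0 : ZMod 1)
  have hr : ∀ n : ℕ, ArithmeticFunction.vonMangoldt.residueClass (0 : ZMod 1) n =
      ArithmeticFunction.vonMangoldt n := by
    intro n
    apply Set.indicator_of_mem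
    exact Subsingleton.elim _ _
  simp only [hr] at hs
  set f : ℕ → ℝ := fun n => (if n.Prime then 0 else ArithmeticFunction.vonMangoldt n) / n with hf
  have hf0 : ∀ n, 0 ≤ f n := by
    intro n
    refine div_nonneg ?_ (Nat.cast_nonneg n)
    split_ifs
    · exact le_rfl
    · exact ArithmeticFunction.vonMangoldt_nonneg
  have hT : 0 ≤ ∑' n, f n := tsum_nonneg hf0
  refine ⟨6 + ∑' n, f n, by linarith, fun N => ?_⟩
  obtain ⟨h1, h2⟩ := mn_mertens N
  have h3 : ∑ n ∈ Ioc 0 N, ArithmeticFunction.vonMangoldt n / n = A N + ∑ n ∈ Ioc 0 N, f n := by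
    rw [A, ← sum_add_distrib]
    refine sum_congr rfl fun n _ => ?_
    simp only [hf]
    split_ifs with hp
    · rw [ArithmeticFunction.vonMangoldt_apply_prime hp]; simp
    · simp
  have h4 : ∑ n ∈ Ioc 0 N, f n ≤ ∑' n, f n := hs.sum_le_tsum _ fun n _ => hf0 n
  have h5 : 0 ≤ ∑ n ∈ Ioc 0 N, f n := sum_nonneg fun n _ => hf0 n
  constructor <;> linarith

theorem step (N : ℕ) (hN : 2 ≤ N) :
    S (N + 1) - A (N + 1) / Real.log ((N + 1 : ℕ) : ℝ) =
      S N - A N / Real.log N + A N * (1 / Real.log N - 1 / Real.log ((N + 1 : ℕ) : ℝ)) := by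
  have h1 : (1 : ℝ) < ((N + 1 : ℕ) : ℝ) := by exact_mod_cast (by omega : 1 < N + 1)
  have hx : 0 < Real.log ((N + 1 : ℕ) : ℝ) := Real.log_pos h1
  have hy : 0 < Real.log N := Real.log_pos (by exact_mod_cast (by omega : 1 < N))
  rw [S, A, sum_Ioc_succ_top (Nat.zero_le N), sum_Ioc_succ_top (Nat.zero_le N), ← S, ← A]
  split_ifs
  · field_simp
    ring
  · field_simp
    ring

theorem D_two : S 2 - A 2 / Real.log ((2 : ℕ) : ℝ) = 0 := by
  have hx : 0 < Real.log ((2 : ℕ) : ℝ) := Real.log_pos (by norm_num)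
  rw [S, A, sum_Ioc_succ_top (by norm_num : 0 ≤ 1), sum_Ioc_succ_top (by norm_num : 0 ≤ 1),
    sum_Ioc_succ_top (le_refl 0), sum_Ioc_succ_top (le_refl 0)]
  simp only [Ioc_self, sum_empty, zero_add, Nat.not_prime_one, if_false, Nat.prime_two, if_true,
    show 1 + 1 = 2 from rfl]
  field_simp
  ring

theorem D_bound {C : ℝ} (hA : ∀ N : ℕ, Real.log N - C ≤ A N ∧ A N ≤ Real.log N + C)
    (N : ℕ) (hN : 2 ≤ N) :
    S N - A N / Real.log N - Real.log (Real.log N) + C / Real.log N ≤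
        -Real.log (Real.log ((2 : ℕ) : ℝ)) + C / Real.log ((2 : ℕ) : ℝ) ∧
      -Real.log (Real.log ((2 : ℕ) : ℝ)) - (C + 1) / Real.log ((2 : ℕ) : ℝ) ≤
        S N - A N / Real.log N - Real.log (Real.log N) - (C + 1) / Real.log N := by
  induction N, hN using Nat.le_induction with
  | base => rw [D_two]; constructor <;> linarith
  | succ N hN ih =>
    rw [step N hN]
    have hN0 : (2 : ℝ) ≤ N := by exact_mod_cast hN
    have hy : 0 < Real.log N := Real.log_pos (by linarith)
    have hyx : Real.log N ≤ Real.log ((N + 1 : ℕ) : ℝ) :=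
      Real.log_le_log (by linarith) (by push_cast; linarith)
    have hxy : Real.log ((N + 1 : ℕ) : ℝ) - Real.log N ≤ 1 := by
      rw [← Real.log_div (by positivity) (by positivity)]
      refine (Real.log_le_sub_one_of_pos (by positivity)).trans ?_
      rw [sub_le_iff_le_add, div_le_iff₀ (by linarith)]
      push_cast
      linarith
    obtain ⟨h1, h2⟩ := hA N
    generalize Real.log ((N + 1 : ℕ) : ℝ) = x at *
    generalize Real.log N = y at *
    have hx : 0 < x := by linarith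
    have hd : 0 ≤ 1 / y - 1 / x := sub_nonneg.2 (one_div_le_one_div_of_le hy hyx)
    have e1 : y * (1 / y - 1 / x) = 1 - y / x := by field_simp
    have e2 : x * (1 / y - 1 / x) = x / y - 1 := by field_simp
    have l1 : Real.log y - Real.log x ≤ y / x - 1 := by
      rw [← Real.log_div hy.ne' hx.ne']; exact Real.log_le_sub_one_of_pos (by positivity)
    have l2 : Real.log x - Real.log y ≤ x / y - 1 := by
      rw [← Real.log_div hx.ne' hy.ne']; exact Real.log_le_sub_one_of_pos (by positivity)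
    have u1 : A N * (1 / y - 1 / x) ≤ (y + C) * (1 / y - 1 / x) :=
      mul_le_mul_of_nonneg_right h2 hd
    have u2 : (x - (C + 1)) * (1 / y - 1 / x) ≤ A N * (1 / y - 1 / x) :=
      mul_le_mul_of_nonneg_right (by linarith) hd
    have f1 : C / x = C * (1 / x) := by ring
    have f2 : C / y = C * (1 / y) := by ring
    have f3 : (C + 1) / x = (C + 1) * (1 / x) := by ring
    have f4 : (C + 1) / y = (C + 1) * (1 / y) := by ring
    obtain ⟨i1, i2⟩ := ih
    constructor
    · rw [f1]; rw [f2] at i1; nlinarith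
    · rw [f3]; rw [f4] at i2; nlinarith

theorem S_bound : ∃ C : ℝ, 0 < C ∧ ∀ N : ℕ, 2 ≤ N → |S N - Real.log (Real.log N)| ≤ C := by
  obtain ⟨C, hC, hA⟩ := A_bound
  have h2 : 0 < Real.log ((2 : ℕ) : ℝ) := Real.log_pos (by norm_num)
  refine ⟨|Real.log (Real.log ((2 : ℕ) : ℝ))| + 1 + 2 * ((C + 1) / Real.log ((2 : ℕ) : ℝ)),
    by positivity, fun N hN => ?_⟩
  obtain ⟨h3, h4⟩ := D_bound hA N hN
  have hN0 : ((2 : ℕ) : ℝ) ≤ N := by exact_mod_cast hN
  have hy : Real.log ((2 : ℕ) : ℝ) ≤ Real.log N := Real.log_le_log (by norm_num) hN0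
  have hy0 : 0 < Real.log N := by linarith
  have h5 : 0 ≤ A N / Real.log N := div_nonneg (A_nonneg N) hy0.le
  have h6 : A N / Real.log N ≤ 1 + C / Real.log N := by
    rw [div_le_iff₀ hy0, add_mul, div_mul_cancel₀ _ hy0.ne']
    linarith [(hA N).2]
  have h7 : 0 ≤ (C + 1) / Real.log N := by positivity
  have h8 : C / Real.log ((2 : ℕ) : ℝ) ≤ (C + 1) / Real.log ((2 : ℕ) : ℝ) := by
    gcongr; linarith
  have h9 : 0 ≤ (C + 1) / Real.log ((2 : ℕ) : ℝ) := by positivity
  have h10 := le_abs_self (Real.log (Real.log ((2 : ℕ) : ℝ)))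
  have h11 := neg_abs_le (Real.log (Real.log ((2 : ℕ) : ℝ)))
  generalize |Real.log (Real.log ((2 : ℕ) : ℝ))| = a at *
  generalize Real.log (Real.log ((2 : ℕ) : ℝ)) = b at *
  generalize (C + 1) / Real.log ((2 : ℕ) : ℝ) = c at *
  generalize C / Real.log ((2 : ℕ) : ℝ) = d at *
  rw [abs_le]
  constructor <;> linarith

end Pool.Agent.Lib.MP_a3b3a7_nt.Mert
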