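import Pool.Agent.Lib.MP_a3b3a7_nt.M.Expand

/-!
The main term: reduction to sums of the pair correlation over residue classes.
-/

set_option autoImplicit false
set_option linter.unusedSectionVars false

open Finset Function
open scoped BigOperators

namespace Pool.Agent.Lib.MP_a3b3a7_nt.M

/-- Geometrically weighted sum over a residue class. -/
def SS (G : ℝ) (q J : ℕ) (ψ : ℕ → ℝ) (c : ℕ) : ℝ := ∑ j ∈ range J, G ^ j * ψ (c + 1 + q * j)

theorem pre_mul (q : ℕ) (ψ : ℕ → ℝ) (j : ℕ) :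
    ∑ i ∈ range (q * j), ψ (1 + i) = ∑ c ∈ range q, ∑ i ∈ range j, ψ (c + 1 + q * i) := by
  induction j with
  | zero => simp
  | succ j ih =>
    rw [mul_add_one, sum_range_add, ih, ← sum_add_distrib]
    refine sum_congr rfl fun c _ => ?_
    rw [sum_range_succ, show 1 + (q * j + c) = c + 1 + q * j by ring]

theorem pre_sum {G M E : ℝ} (G1 : G ≤ 1) {q J g : ℕ} (hg : g ≤ q) (ψ : ℕ → ℝ)
    (hM : ∀ c < q, |SS G q J ψ c| ≤ M) (hE : |G ^ J * ∑ i ∈ range (q * J), ψ (1 + i)| ≤ E) :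
    |(1 - G) * ∑ j ∈ range J, G ^ j * ∑ i ∈ range (g + q * j), ψ (1 + i) -
      ∑ c ∈ range q, SS G q J ψ c| ≤ q * (1 - G) * M + E := by
  have e1 : ∀ j, ∑ i ∈ range (g + q * j), ψ (1 + i) =
      ∑ c ∈ range q, ∑ i ∈ range j, ψ (c + 1 + q * i) + ∑ c ∈ range g, ψ (c + 1 + q * j) := by
    intro j
    rw [add_comm g, sum_range_add, pre_mul]
    exact congrArg _ (sum_congr rfl fun c _ => congrArg ψ (by ring))
  have e2 : ∀ c, (1 - G) * ∑ j ∈ range J, G ^ j * ∑ i ∈ range j, ψ (c + 1 + q * i) =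
      G * SS G q J ψ c - G ^ J * ∑ i ∈ range J, ψ (c + 1 + q * i) := fun c => by
    have := abel_id G (fun i => ψ (c + 1 + q * i)) J
    simp only [sum_range_succ, mul_add, sum_add_distrib] at this
    rw [SS]
    linarith
  have e3 : (1 - G) * ∑ j ∈ range J, G ^ j * ∑ i ∈ range (g + q * j), ψ (1 + i) -
      ∑ c ∈ range q, SS G q J ψ c =
      -((1 - G) * ∑ c ∈ Ico g q, SS G q J ψ c) - G ^ J * ∑ i ∈ range (q * J), ψ (1 + i) := by
    have e4 : ∑ j ∈ range J, G ^ j * ∑ i ∈ range (g + q * j), ψ (1 + i) =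
        ∑ c ∈ range q, ∑ j ∈ range J, G ^ j * ∑ i ∈ range j, ψ (c + 1 + q * i) +
          ∑ c ∈ range g, SS G q J ψ c := by
      simp only [e1, mul_add, sum_add_distrib, SS]
      rw [sum_comm (s := range q), sum_comm (s := range g)]
      simp only [← mul_sum]
    rw [e4, mul_add, mul_sum, sum_congr rfl fun c _ => e2 c, sum_sub_distrib, ← mul_sum, ← mul_sum,
      pre_mul, ← sum_range_add_sum_Ico _ hg]
    ring
  rw [e3]
  refine (abs_sub _ _).trans (add_le_add ?_ hE)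
  rw [abs_neg, abs_mul, abs_of_nonneg (sub_nonneg.2 G1), mul_comm (q : ℝ), mul_assoc]
  refine mul_le_mul_of_nonneg_left ?_ (sub_nonneg.2 G1)
  refine (abs_sum_le_sum_abs _ _).trans ((sum_le_sum_of_subset_of_nonneg (t := range q)
    (fun c hc => mem_range.2 (mem_Ico.1 hc).2) fun _ _ _ => abs_nonneg _).trans ?_)
  exact (sum_le_card_nsmul _ _ M fun c hc => hM c (mem_range.1 hc)).trans (by simp)

theorem SS_per {G : ℝ} {q J : ℕ} {a : ℕ → ℝ} (per : ∀ t s, a (t + q * s) = a t) (ψ : ℕ → ℝ)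
    (c : ℕ) : SS G q J (fun t => a t * ψ t) c = a (c + 1) * SS G q J ψ c := by
  simp only [SS, per, mul_sum]
  exact sum_congr rfl fun j _ => by ring

theorem abs_sum_le {n : ℕ} {f : ℕ → ℝ} {M : ℝ} (h : ∀ i < n, |f i| ≤ M) :
    |∑ i ∈ range n, f i| ≤ n * M :=
  (abs_sum_le_sum_abs _ _).trans ((sum_le_card_nsmul _ _ M
    fun i hi => h i (mem_range.1 hi)).trans (by simp))

theorem abs_mul_le {u v M : ℝ} (hu : |u| ≤ 1) (hv : |v| ≤ M) : |u * v| ≤ M := by
  rw [abs_mul]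
  exact (mul_le_of_le_one_left (abs_nonneg _) hu).trans hv

/-- The reflected weight. -/
def abar (a : ℕ → ℝ) (q g d : ℕ) : ℝ := a (g + 1 + (q - 1) * d)

/-- The combination of class sums that gives the bias. -/
noncomputable def Psi (a : ℕ → ℝ) (q g : ℕ) (τ : ℝ) (S : ℕ → ℝ) : ℝ :=
  S g - τ * (∑ c ∈ range q, a (c + 1) * S c + ∑ c ∈ range q, abar a q g (c + 1) * S c) +
    τ ^ 2 * ∑ c ∈ range q, a (c + 1) * ∑ d ∈ range q, abar a q c (d + 1) * S d

theorem alg_main {G κ τ M B E : ℝ} (G0 : 0 ≤ G) (G1 : G < 1) (κ0 : 0 ≤ κ) (κ1 : κ ≤ 1)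
    (hτ : κ = τ * (1 - G)) (τ2 : τ ≤ 2) {q J g : ℕ} (hg : g < q) {a ρ : ℕ → ℝ}
    (per : ∀ t s, a (t + q * s) = a t) (a_le : ∀ t, |a t| ≤ 1) (hB : ∀ d, |ρ d| ≤ B)
    (hM : ∀ c < q, |SS G q J ρ c| ≤ M) (hE : G ^ J * ((q * J : ℕ) * ((q * J : ℕ) * B)) ≤ E)
    (hJ : 0 < J) :
    |∑ j ∈ range J, G ^ j * (1 + ρ (g + 1 + q * j) -
        κ * (∑ i ∈ range (g + q * j), a (1 + i) * ρ (1 + i) +
          ∑ i ∈ range (g + q * j), a (1 + i) * ρ (g + q * j - i)) +
        κ ^ 2 * ∑ i ∈ range (g + q * j), a (1 + i) * ∑ l ∈ range i, a (1 + l) * ρ (i - l)) -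
      (∑ j ∈ range J, G ^ j + Psi a q g τ (SS G q J ρ))| ≤
      14 * q ^ 2 * ((κ + (1 - G)) * M + E) := by
  have l0 : 0 < 1 - G := sub_pos.2 G1
  have τ0 : 0 ≤ τ := nonneg_of_mul_nonneg_left (hτ ▸ κ0) l0
  have hq : 0 < q := Nat.zero_lt_of_lt hg
  have q1 : (1 : ℝ) ≤ q := by exact_mod_cast hq
  have M0 : 0 ≤ M := (abs_nonneg _).trans (hM 0 hq)
  have B0 : 0 ≤ B := (abs_nonneg _).trans (hB 0)
  have n1 : (1 : ℝ) ≤ (q * J : ℕ) := by exact_mod_cast Nat.mul_pos hq hJ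
  have E0 : 0 ≤ E := le_trans (by positivity) hE
  have hE1 : ∀ w : ℕ → ℝ, (∀ t, |w t| ≤ 1) →
      |G ^ J * ∑ i ∈ range (q * J), w (1 + i) * ρ (1 + i)| ≤ E := fun w hw => by
    rw [abs_mul, abs_of_nonneg (pow_nonneg G0 J)]
    refine le_trans (mul_le_mul_of_nonneg_left ((abs_sum_le fun i _ =>
      abs_mul_le (hw _) (hB _)).trans ?_) (pow_nonneg G0 J)) hE
    exact le_mul_of_one_le_left (by positivity) n1
  have perb : ∀ c t s, abar a q c (t + q * s) = abar a q c t := fun c t s => by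
    rw [abar, abar, show c + 1 + (q - 1) * (t + q * s) = c + 1 + (q - 1) * t + q * ((q - 1) * s)
      by ring, per]
  have A : ∀ w : ℕ → ℝ, (∀ t, |w t| ≤ 1) → (∀ t s, w (t + q * s) = w t) → ∀ c < q,
      |(1 - G) * ∑ j ∈ range J, G ^ j * ∑ i ∈ range (c + q * j), w (1 + i) * ρ (1 + i) -
        ∑ d ∈ range q, w (d + 1) * SS G q J ρ d| ≤ q * (1 - G) * M + E := fun w hw pw c hc => by
    have := pre_sum G1.le hc.le (fun t => w t * ρ t) (fun d hd => by
      rw [SS_per pw]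
      exact abs_mul_le (hw _) (hM d hd)) (hE1 w hw)
    simpa only [SS_per pw] using this
  have refl : ∀ c j, ∑ i ∈ range (c + q * j), a (1 + i) * ρ (c + q * j - i) =
      ∑ i ∈ range (c + q * j), abar a q c (1 + i) * ρ (1 + i) := fun c j => by
    rw [← sum_range_reflect]
    refine sum_congr rfl fun i hi => ?_
    have hi' := mem_range.1 hi
    obtain ⟨p, rfl⟩ : ∃ p, q = p + 1 := ⟨q - 1, by omega⟩
    rw [show c + (p + 1) * j - (c + (p + 1) * j - 1 - i) = 1 + i by omega, abar,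
      ← per (1 + _) (1 + i), ← per (c + 1 + _) j, Nat.add_sub_cancel]
    refine congrArg (fun t => a t * _) ?_
    have : (p + 1) * (1 + i) = p * (1 + i) + (1 + i) := by ring
    omega
  set D : ℕ → ℝ := fun c => ∑ j ∈ range J, G ^ j *
    ∑ i ∈ range (c + q * j), abar a q c (1 + i) * ρ (1 + i) with hD
  set T : ℕ → ℝ := fun c => ∑ d ∈ range q, abar a q c (d + 1) * SS G q J ρ d with hT
  have A1 := A a a_le per g hg
  have A2 : ∀ c < q, |(1 - G) * D c - T c| ≤ q * (1 - G) * M + E :=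
    fun c hc => A (abar a q c) (fun _ => a_le _) (perb c) c hc
  have bT : ∀ c, |T c| ≤ q * M := fun c => abs_sum_le fun d hd => abs_mul_le (a_le _) (hM d hd)
  set ψ : ℕ → ℝ := fun t => ∑ l ∈ range (t - 1), a (1 + l) * ρ (t - 1 - l) with hψ
  have eψ : ∀ c, SS G q J ψ c = D c := fun c => sum_congr rfl fun j _ => by
    simp only [hψ, show c + 1 + q * j - 1 = c + q * j by omega, refl]
  have bD : ∀ c < q, |D c| ≤ (2 * q * M + E) / (1 - G) := fun c hc => by
    rw [le_div_iff₀' l0]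
    have h1 := abs_add_le ((1 - G) * D c - T c) (T c)
    rw [sub_add_cancel, abs_mul, abs_of_pos l0] at h1
    have h2 : q * (1 - G) * M ≤ q * M := by
      rw [mul_right_comm]
      exact mul_le_of_le_one_right (by positivity) (by linarith)
    linarith [A2 c hc, bT c]
  have A3 := pre_sum (E := E) G1.le hg.le (fun t => a t * ψ t) (fun c hc => by
    rw [SS_per per, eψ]
    exact abs_mul_le (a_le _) (bD c hc)) (by
    rw [abs_mul, abs_of_nonneg (pow_nonneg G0 J)]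
    refine le_trans (mul_le_mul_of_nonneg_left (abs_sum_le fun i hi => abs_mul_le (a_le _) ?_)
      (pow_nonneg G0 J)) hE
    refine (abs_sum_le fun l _ => abs_mul_le (a_le _) (hB _)).trans
      (mul_le_mul_of_nonneg_right (Nat.cast_le.2 (by omega)) B0))
  simp only [SS_per per, eψ] at A3
  simp only [hψ, Nat.add_sub_cancel_left] at A3
  rw [mul_assoc, mul_div_cancel₀ _ l0.ne'] at A3
  have A4 : |∑ c ∈ range q, a (c + 1) * ((1 - G) * D c - T c)| ≤ q * (q * (1 - G) * M + E) :=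
    abs_sum_le fun c hc => abs_mul_le (a_le _) (A2 c hc)
  set X1 := ∑ j ∈ range J, G ^ j * ∑ i ∈ range (g + q * j), a (1 + i) * ρ (1 + i)
  set X3 := ∑ j ∈ range J, G ^ j * ∑ i ∈ range (g + q * j),
    a (1 + i) * ∑ l ∈ range i, a (1 + l) * ρ (i - l)
  have e : ∑ j ∈ range J, G ^ j * (1 + ρ (g + 1 + q * j) -
        κ * (∑ i ∈ range (g + q * j), a (1 + i) * ρ (1 + i) +
          ∑ i ∈ range (g + q * j), a (1 + i) * ρ (g + q * j - i)) +
        κ ^ 2 * ∑ i ∈ range (g + q * j), a (1 + i) * ∑ l ∈ range i, a (1 + l) * ρ (i - l)) =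
      ∑ j ∈ range J, G ^ j + SS G q J ρ g - κ * (X1 + D g) + κ ^ 2 * X3 := by
    simp only [X1, X3, hD, SS, refl]
    rw [← sum_add_distrib, ← sum_add_distrib, mul_sum, mul_sum, ← sum_sub_distrib,
      ← sum_add_distrib]
    exact sum_congr rfl fun j _ => by ring
  have e' : ∑ c ∈ range q, a (c + 1) * ((1 - G) * D c - T c) =
      (1 - G) * ∑ c ∈ range q, a (c + 1) * D c - ∑ c ∈ range q, a (c + 1) * T c := by
    rw [mul_sum, ← sum_sub_distrib]
    exact sum_congr rfl fun c _ => by ring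
  rw [e'] at A4
  have e'' : ∑ j ∈ range J, G ^ j + SS G q J ρ g - κ * (X1 + D g) + κ ^ 2 * X3 -
      (∑ j ∈ range J, G ^ j + Psi a q g τ (SS G q J ρ)) =
      τ * κ * ((1 - G) * X3 - ∑ c ∈ range q, a (c + 1) * D c) +
      τ ^ 2 * ((1 - G) * ∑ c ∈ range q, a (c + 1) * D c - ∑ c ∈ range q, a (c + 1) * T c) -
      τ * (((1 - G) * X1 - ∑ d ∈ range q, a (d + 1) * SS G q J ρ d) + ((1 - G) * D g - T g)) := by
    rw [Psi, hτ]
    ring
  rw [e, e'']
  refine (abs_sub _ _).trans ((add_le_add_left (abs_add_le _ _) _).trans ?_)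
  rw [abs_mul, abs_mul (τ ^ 2), abs_mul τ (_ + _), abs_of_nonneg (mul_nonneg τ0 κ0),
    abs_of_nonneg (sq_nonneg τ), abs_of_nonneg τ0]
  have c1 := mul_le_mul (mul_le_mul_of_nonneg_right τ2 κ0) A3 (abs_nonneg _) (by positivity)
  have c2 := mul_le_mul (pow_le_pow_left₀ τ0 τ2 2) A4 (abs_nonneg _) (by positivity)
  have c3 := mul_le_mul τ2 ((abs_add_le _ _).trans (add_le_add A1 (A2 g hg))) (abs_nonneg _)
    (by positivity)
  have q2 : (q : ℝ) ≤ q ^ 2 := by nlinarith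
  have d1 : κ * E ≤ E := mul_le_of_le_one_left E0 κ1
  have d2 : 0 ≤ κ * M := mul_nonneg κ0 M0
  have d3 : 0 ≤ (1 - G) * M := mul_nonneg l0.le M0
  refine (add_le_add (add_le_add c1 c2) c3).trans ?_
  nlinarith [mul_le_mul_of_nonneg_right q2 E0, mul_le_mul_of_nonneg_right q1 E0,
    mul_le_mul_of_nonneg_right q2 d3, mul_le_mul_of_nonneg_left d1 (by positivity : (0 : ℝ) ≤ q),
    mul_nonneg (sq_nonneg (q : ℝ)) d2, mul_nonneg (sq_nonneg (q : ℝ)) d3]

end Pool.Agent.Lib.MP_a3b3a7_nt.M
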