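import Pool.Agent.Lib.MP_a3b3a7_nt.M.Model

/-! The two expansions in the thinned sieve model. -/

open Finset Function Real
open scoped BigOperators

namespace Pool.Agent.Lib.MP_a3b3a7_nt.M

theorem lin_err {φ δ e0 e1 : ℝ} (φ1 : 1 ≤ φ) (h0 : |e0| ≤ δ) (h1 : |e1| ≤ δ) :
    |(1 / φ) ^ 2 * ((φ - 1) * e1 + e0)| ≤ δ := by
  have δ0 : 0 ≤ δ := (abs_nonneg _).trans h0
  have a1 : |(φ - 1) * e1 + e0| ≤ φ * δ := by
    refine (abs_add_le _ _).trans ?_
    rw [abs_mul, abs_of_nonneg (sub_nonneg.2 φ1)]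
    nlinarith [mul_le_mul_of_nonneg_left h1 (sub_nonneg.2 φ1)]
  rw [abs_mul, abs_of_nonneg (sq_nonneg _)]
  refine (mul_le_mul_of_nonneg_left a1 (sq_nonneg _)).trans ?_
  rw [show (1 / φ) ^ 2 * (φ * δ) = δ / φ by field_simp]
  exact div_le_self δ0 φ1

variable {ι : Type} [Fintype ι] [DecidableEq ι] {P : ι → ℕ} [hP : ∀ i, Fact (P i).Prime]

namespace Par

variable {i0 : ι} {S : Finset ι} {β α u w : ℝ} {R k J y : ℕ} (H : Par P i0 S β α u w R k J y)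
include H

omit [Fintype ι] [DecidableEq ι] in
theorem cls : ∃ (Λ e0 e1 : ℝ) (e2 : ZMod (P i0) → ℝ),
    |Λ - (log (P i0 / (2 * π)) - log (w ^ 4))| ≤ 4 / w ^ 4 ∧
    |e0| ≤ 39 * (u ^ 5 / w ^ 1) ∧ |e1| ≤ 39 * (u ^ 5 / w ^ 1) ∧
    (∀ v ≠ 0, |e2 v| ≤ 5 * (39 * (u ^ 5 / w ^ 1))) ∧
    ZZ (P i0) (S.image P) (xx (P i0) α) 0 =
      (1 - 1 / (P i0 : ℝ)) / 2 * Λ - log (P i0) / P i0 / 2 + 1 / 2 + e0 ∧
    ∑ v, ZZ (P i0) (S.image P) (xx (P i0) α) v = (1 - 1 / (P i0 : ℝ)) / 2 * Λ -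
      log (P i0) / P i0 / 2 + 1 / 2 - (P i0 - 1) * (log (P i0) / P i0) / 2 + e1 ∧
    ∀ v, ZZ (P i0) (S.image P) (xx (P i0) α) (-v) =
      -ZZ (P i0) (S.image P) (xx (P i0) α) v - log (P i0) / P i0 + e2 v := by
  obtain ⟨h1, h2, h3, h4, h5, h6, h7⟩ := H.basic
  obtain ⟨-, x2, x3, x4, x5⟩ := H.x_facts
  have w0 : 0 < w := by linarith
  have x0 : 0 < xx (P i0) α := lt_of_lt_of_le (by positivity) x2
  have y0 : (0 : ℝ) < y := lt_of_lt_of_le (by positivity) H.hy'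
  have hS : ∀ p ∈ S.image P, p.Prime := fun p hp => by
    obtain ⟨i, -, rfl⟩ := mem_image.1 hp
    exact (hP i).out
  have a1 : qr (xx (P i0) α) ≤ 2 / w := by
    refine sqrt_le_iff.2 ⟨by positivity, sqrt_le_iff.2 ⟨by positivity, x3.trans ?_⟩⟩
    rw [show ((2 / w) ^ 2) ^ 2 = 16 / w ^ 4 by ring]
    gcongr
    norm_num
  have a2 := qr_nonneg (xx (P i0) α)
  have a3 := H.hy'
  obtain ⟨c0, c1, c2⟩ := class_sums (q := P i0) (δ := 39 * (u ^ 5 / w ^ 1)) hS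
    (fun h => by obtain ⟨i, hi, e⟩ := mem_image.1 h; exact H.hi (H.inj e ▸ hi))
    (by exact_mod_cast y0) H.hU x0 x4 <|
    calc _ ≤ u * (18 * u ^ 3) * u * (2 / w) + u ^ 2 * (2 / w ^ 4) + 1 / (w ^ 8 * (1 / w ^ 4)) := by
          gcongr
      _ = 36 * (u ^ 5 / w ^ 1) + 2 * (u ^ 2 / w ^ 4) + 1 * (u ^ 0 / w ^ 4) := by field_simp; ring
      _ ≤ 36 * (u ^ 5 / w ^ 1) + 2 * (u ^ 5 / w ^ 1) + 1 * (u ^ 5 / w ^ 1) :=
        add_le_add (add_le_add le_rfl (mono h3 h4 (by norm_num) (by norm_num) (by norm_num)))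
          (mono h3 h4 (by norm_num) (by norm_num) (by norm_num))
      _ = _ := by ring
  exact ⟨_, _, _, _, x5, c0, c1, c2, by ring, by ring, fun v => by ring⟩

omit [Fintype ι] [DecidableEq ι] in
theorem fin_err {c d X Y : ℝ} (c0 : 0 ≤ c) (hX : |X| ≤ c * (u ^ 5 / w ^ 1)) (d1 : |d| ≤ u)
    (hY : |Y| ≤ 4 / w ^ 4) :
    |(P i0 - 1) * α * X + d / (2 * w ^ 4) * Y| ≤ (c + 2) * (u ^ 16 / w ^ 5) := by
  obtain ⟨h1, h2, h3, h4, h5, h6, h7⟩ := H.basic
  have q2 := two_le_cast (P i0)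
  have w0 : 0 < w := by linarith
  have f0 : 0 ≤ (P i0 - 1) * α := mul_nonneg (by linarith) (le_trans (by positivity) h5)
  have f1 : (P i0 - 1) * α ≤ u / w ^ 4 := by
    rw [le_div_iff₀ (by positivity)]
    linarith [H.hL]
  rw [add_mul]
  refine (abs_add_le _ _).trans (add_le_add ?_ ?_)
  · rw [abs_mul, abs_of_nonneg f0]
    calc _ ≤ u / w ^ 4 * (c * (u ^ 5 / w ^ 1)) := mul_le_mul f1 hX (abs_nonneg _) (by positivity)
      _ = c * (u ^ 6 / w ^ 5) := by field_simp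
      _ ≤ _ := mono h3 h4 c0 (by norm_num) le_rfl
  · rw [abs_mul, abs_div, abs_of_pos (show 0 < 2 * w ^ 4 by positivity)]
    calc _ ≤ u / (2 * w ^ 4) * (4 / w ^ 4) := by gcongr
      _ = 2 * (u ^ 1 / w ^ 8) := by field_simp; ring
      _ ≤ _ := mono h3 h4 (by norm_num) (by norm_num) (by norm_num)

theorem diag {A : ZMod (P i0)} (hA : A ≠ 0) : |mm P i0 S α J A (P i0 - 1) -
    (1 + (P i0 - 2) / (2 * w ^ 4) * (log (P i0 / (2 * π)) - log (w ^ 4)))| ≤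
      33000 * (u ^ 16 / w ^ 5) := by
  obtain ⟨h1, h2, h3, h4, -⟩ := H.basic
  obtain ⟨Λ, e0, e1, e2, a0, a1, a2, a3, b1, b2, b3⟩ := H.cls
  have q2 := two_le_cast (P i0)
  have q0 := (hP i0).out.pos
  have q1 : P i0 - 1 + 1 = P i0 := by omega
  have φ1 : (1 : ℝ) ≤ P i0 - 1 := by linarith
  have h := H.approx A (Nat.sub_lt q0 one_pos)
  have e : ∑ i ∈ range (P i0 - 1), aa _ A (1 + i) = P i0 - 2 := by
    have := sum_aa A
    rw [← congrArg range q1, sum_range_succ, show 1 + (P i0 - 1) = P i0 + 0 by omega, aa_add,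
      ZMod.natCast_self, add_zero, aa_zero hA] at this
    linarith
  rw [Psi_eq, e, q1, ZMod.natCast_self, add_zero, b1, b2, b3] at h
  have c1 := lin_err φ1 a1 a2
  have c2 : |1 / ((P i0 : ℝ) - 1) * (2 * e1 - e2 A)| ≤ 7 * (39 * (u ^ 5 / w ^ 1)) :=
    abs_mul_le (by rw [abs_of_nonneg (by positivity)]; exact div_le_one_of_le₀ φ1 (by linarith))
      (by have := a3 A hA; rw [abs_le] at *; constructor <;> linarith)
  have c3 := H.fin_err (c := 351) (d := P i0 - 2) (X := e0 - 1 / (P i0 - 1) * (2 * e1 - e2 A) +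
    (1 / (P i0 - 1)) ^ 2 * ((P i0 - 1 - 1) * e1 + e0)) (by norm_num)
    (by rw [abs_le] at a1 c1 c2 ⊢; constructor <;> linarith [a1.1, a1.2, c1.1, c1.2, c2.1, c2.2])
    (abs_le.2 ⟨by linarith, by linarith⟩) a0
  have w0 : 0 < w := by linarith
  have eα : α = P i0 / ((P i0 - 1) * w ^ 4) := by
    rw [eq_div_iff (by positivity)]
    linarith [H.hL]
  refine (abs_sub_le _ _ _).trans ((add_le_add h ((le_of_eq (congrArg abs ?_)).trans c3)).trans
    (by have : 0 ≤ u ^ 16 / w ^ 5 := by positivity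
        linarith))
  rw [eα]
  field_simp
  ring

theorem off {A B : ZMod (P i0)} (hA : A ≠ 0) (hB : B ≠ 0) {g g' : ℕ}
    (hg : g + 1 + (g' + 1) = P i0) (hAB : B = A + (g + 1 : ℕ)) :
    |mm P i0 S α J A g + mm P i0 S α J B g' -
      2 * (1 - (log (P i0 / (2 * π)) - log (w ^ 4)) / (2 * w ^ 4))| ≤ 66000 * (u ^ 16 / w ^ 5) := by
  obtain ⟨h1, h2, h3, h4, -⟩ := H.basic
  obtain ⟨Λ, e0, e1, e2, a0, a1, a2, a3, b1, b2, b3⟩ := H.cls
  have q2 := two_le_cast (P i0)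
  have φ1 : (1 : ℝ) ≤ P i0 - 1 := by linarith
  have h := H.approx A (g := g) (by omega)
  have h' := H.approx B (g := g') (by omega)
  have e3 : ((g' + 1 : ℕ) : ZMod (P i0)) = -((g + 1 : ℕ) : ZMod (P i0)) := by
    rw [eq_neg_iff_add_eq_zero, ← Nat.cast_add, add_comm, hg, ZMod.natCast_self]
  have e4 : ((g + 1 : ℕ) : ZMod (P i0)) ≠ 0 := by
    rw [Ne, ZMod.natCast_eq_zero_iff]
    exact fun h => by have := Nat.le_of_dvd g.succ_pos h; omega
  have e : ∑ i ∈ range g', aa _ B (1 + i) = P i0 - 3 - ∑ i ∈ range g, aa _ A (1 + i) := by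
    have := sum_aa A
    rw [← congrArg range hg, sum_range_add, sum_range_succ, sum_range_succ] at this
    have e5 : ∀ i, aa _ A (1 + (g + 1 + i)) = aa _ B (1 + i) := fun i => by
      rw [add_left_comm, aa_add, hAB]
    have e6 : aa _ A (1 + g) = 1 := by
      rw [add_comm, ← add_zero (g + 1), aa_add, ← hAB, aa_zero hB]
    have e7 : aa _ B (1 + g') = 1 := by
      rw [add_comm, ← add_zero (g' + 1), aa_add, e3, hAB, add_neg_cancel_right, aa_zero hA]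
    simp only [e5, e6, e7] at this
    linarith
  rw [Psi_eq, ← hAB, b1, b2, b3] at h
  rw [Psi_eq, e, e3, show B + -((g + 1 : ℕ) : ZMod (P i0)) = A by rw [hAB, add_neg_cancel_right],
    b1, b2, b3, b3] at h'
  have c1 := lin_err φ1 a1 a2
  have c2 : |1 / ((P i0 : ℝ) - 1) * (4 * e1 - e2 A - e2 B)| ≤ 14 * (39 * (u ^ 5 / w ^ 1)) :=
    abs_mul_le (by rw [abs_of_nonneg (by positivity)]; exact div_le_one_of_le₀ φ1 (by linarith))
      (by have := a3 A hA; have := a3 B hB; rw [abs_le] at *; constructor <;> linarith)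
  have c4 := a3 _ e4
  have c3 := H.fin_err (c := 819) (d := -2) (X := e2 (g + 1 : ℕ) - 1 / (P i0 - 1) *
    (4 * e1 - e2 A - e2 B) + 2 * ((1 / (P i0 - 1)) ^ 2 * ((P i0 - 1 - 1) * e1 + e0))) (by norm_num)
    (by rw [abs_le] at c4 c1 c2 ⊢; constructor <;> linarith [c4.1, c4.2, c1.1, c1.2, c2.1, c2.2])
    (abs_le.2 ⟨by linarith, by linarith⟩) a0
  have w0 : 0 < w := by linarith
  have eα : α = P i0 / ((P i0 - 1) * w ^ 4) := by
    rw [eq_div_iff (by positivity)]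
    linarith [H.hL]
  have h'' := (abs_add_le _ _).trans (add_le_add h h')
  rw [← add_sub_add_comm] at h''
  refine (abs_sub_le _ _ _).trans ((add_le_add h'' ((le_of_eq (congrArg abs ?_)).trans c3)).trans
    (by have : 0 ≤ u ^ 16 / w ^ 5 := by positivity
        linarith))
  rw [eα]
  field_simp
  ring

omit [Fintype ι] [DecidableEq ι] in
theorem J_ge : w ^ 4 ≤ J := by
  obtain ⟨-, -, h3, h4, -⟩ := H.basic
  have h1 := add_one_le_exp (-(J / (2 * w ^ 4)))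
  have h2 : 1 / w ^ 20 ≤ 1 / 2 := one_div_le_one_div_of_le (by norm_num)
    (le_trans (by nlinarith [H.hw, one_le_pow₀ (n := 3) h3]) (le_self_pow₀ h4 (by norm_num)))
  have h5 : 1 / 2 ≤ J / (2 * w ^ 4) := by linarith [H.hE]
  rw [le_div_iff₀ (by positivity)] at h5
  linarith

theorem void_bd (A : ZMod (P i0)) :
    𝔼 ω, (1 + yy P S 0 ω) * void (yy P S) (aa _ A) α (P i0 * J) ω ≤ 34 * (u ^ 5 / w ^ 8) := by
  obtain ⟨h1, h2, h3, h4, h5, -⟩ := H.basic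
  have q2 := two_le_cast (P i0)
  have w0 : 0 < w := by linarith
  have hJ := H.J_ge
  have J0 : (0 : ℝ) < J := lt_of_lt_of_le (by positivity) hJ
  have h := (H.sys A).void_le (n := P i0 * J) J0 (by
    rw [pre_mul]
    simp only [aa_per, sum_const, card_range, nsmul_eq_mul, ← mul_sum, add_comm _ 1, sum_aa]
    nlinarith)
  have t1 : rexp (-(α * J / 2)) ≤ 1 / w ^ 20 := le_trans (exp_le_exp.2 (neg_le_neg
    (calc J / (2 * w ^ 4) = 1 / w ^ 4 * J / 2 := by field_simp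
      _ ≤ _ := by gcongr))) H.hE
  calc _ ≤ 2 * u * (1 / w ^ 20 + 16 * (u * (u * J)) ^ 2 / J ^ 4) := by
        refine h.trans ?_
        push_cast
        gcongr
    _ = 2 * (u ^ 1 / w ^ 20) + 32 * (u ^ 5 / J ^ 2) := by field_simp; ring
    _ ≤ 2 * (u ^ 5 / w ^ 8) + 32 * (u ^ 5 / (w ^ 4) ^ 2) :=
      add_le_add (mono h3 h4 (by norm_num) (by norm_num) (by norm_num)) (by gcongr)
    _ = _ := by ring

end Par

end Pool.Agent.Lib.MP_a3b3a7_nt.M
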