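import Pool.Agent.Lib.MP_a3b3a7_nt.M.Prob

/-!
The centred indicator functions of the sifted set and the fourth moment of their sums.
-/

set_option autoImplicit false
set_option linter.unusedSectionVars false

open Finset Function
open scoped BigOperators

namespace Pool.Agent.Lib.MP_a3b3a7_nt.M

/-- Indicator of the event that the position `t` is sifted out by the prime `p`. -/
noncomputable def hit (p : ℕ) (t : ℕ) (a : ZMod p) : ℝ := if a + t = 0 then 1 else 0

/-- The centred and normalised local factor. -/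
noncomputable def nu (p : ℕ) (t : ℕ) (a : ZMod p) : ℝ := (1 - p * hit p t a) / ((p : ℝ) - 1)

section

variable (p : ℕ) [hp : Fact p.Prime]

theorem two_le_cast : (2 : ℝ) ≤ p := by exact_mod_cast hp.out.two_le

theorem E_hit (t : ℕ) : 𝔼 a, hit p t a = 1 / (p : ℝ) := by
  simp only [hit, add_eq_zero_iff_eq_neg]
  rw [Fintype.expect_eq_sum_div_card, sum_ite_eq', if_pos (mem_univ _), ZMod.card]

theorem hit_mul (t t' : ℕ) (a : ZMod p) :
    hit p t a * hit p t' a = if (t : ZMod p) = t' then hit p t a else 0 := by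
  unfold hit
  by_cases h : (t : ZMod p) = t'
  · rw [if_pos h, h]
    split_ifs <;> simp
  · rw [if_neg h]
    split_ifs with h1 h2
    · exact (h (add_left_cancel (h1.trans h2.symm))).elim
    all_goals simp

theorem E_nu (t : ℕ) : 𝔼 a, nu p t a = 0 := by
  have := two_le_cast p
  simp only [nu]
  rw [← expect_div, expect_sub_distrib, ← mul_expect, E_hit, Fintype.expect_const,
    mul_one_div_cancel (by positivity), sub_self, zero_div]

theorem E_nu_mul (t t' : ℕ) : 𝔼 a, nu p t a * nu p t' a =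
    ((if (t : ZMod p) = t' then (p : ℝ) else 0) - 1) / ((p : ℝ) - 1) ^ 2 := by
  have h2 := two_le_cast p
  have e : ∀ a, nu p t a * nu p t' a = (1 - p * hit p t a - p * hit p t' a +
      p ^ 2 * (hit p t a * hit p t' a)) / ((p : ℝ) - 1) ^ 2 := fun a => by
    unfold nu
    rw [div_mul_div_comm, ← sq]
    ring
  simp only [e, hit_mul]
  rw [← expect_div, expect_add_distrib, expect_sub_distrib, expect_sub_distrib, ← mul_expect,
    ← mul_expect, ← mul_expect, E_hit, E_hit, Fintype.expect_const]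
  have h0 : (p : ℝ) ≠ 0 := by positivity
  refine congrArg (· / _) ?_
  split_ifs
  · rw [E_hit]
    field_simp
    ring
  · rw [Fintype.expect_const]
    field_simp
    ring

theorem one_add_nu (t : ℕ) (a : ZMod p) :
    1 + nu p t a = (1 - hit p t a) * (p / ((p : ℝ) - 1)) := by
  have h2 : (p : ℝ) - 1 ≠ 0 := by linarith [two_le_cast p]
  unfold nu
  field_simp
  ring

end

variable {ι : Type} [Fintype ι] [DecidableEq ι] (P : ι → ℕ) [hP : ∀ i, Fact (P i).Prime]

/-- The centred and normalised indicator of the set sifted by the primes in `S`. -/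
noncomputable def yy (S : Finset ι) (t : ℕ) (ω : ∀ i, ZMod (P i)) : ℝ :=
  ∏ i ∈ S, (1 + nu (P i) t (ω i)) - 1

/-- The component of a sum of the `yy` that belongs to the set of primes `T`. -/
noncomputable def WT (T : Finset ι) (I : Finset ℕ) (ω : ∀ i, ZMod (P i)) : ℝ :=
  ∑ t ∈ I, ∏ i ∈ T, nu (P i) t (ω i)

theorem sum_yy (S : Finset ι) (I : Finset ℕ) (ω : ∀ i, ZMod (P i)) :
    ∑ t ∈ I, yy P S t ω = ∑ T ∈ S.powerset.erase ∅, WT P T I ω := by
  unfold WT
  rw [sum_comm]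
  refine sum_congr rfl fun t _ => ?_
  rw [yy, prod_one_add, ← add_sum_erase _ _ (empty_mem_powerset S), prod_empty,
    add_sub_cancel_left]

/-- The set of positions `I` is well spread modulo products of primes in `S`. -/
def Spread (S : Finset ι) (I : Finset ℕ) : Prop :=
  ∀ T ⊆ S, ∀ t ∈ I, (#{t' ∈ I | ∀ i ∈ T, (t : ZMod (P i)) = (t' : ℕ)} : ℝ) ≤
    #I / (∏ i ∈ T, (P i : ℝ)) + 1

theorem E_WT_sq (T : Finset ι) (I : Finset ℕ) :
    (∏ i ∈ T, ((P i : ℝ) - 1) ^ 2) * 𝔼 ω, WT P T I ω ^ 2 =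
      ∑ t ∈ I, ∑ t' ∈ I, ∏ i ∈ T, ((if (t : ZMod (P i)) = t' then (P i : ℝ) else 0) - 1) := by
  simp only [WT, sq (∑ _ ∈ _, _), sum_mul_sum, expect_sum_comm, ← prod_mul_distrib]
  simp only [mul_sum]
  refine sum_congr rfl fun t _ => sum_congr rfl fun t' _ => ?_
  rw [E_prod T fun i a => nu (P i) t a * nu (P i) t' a, ← prod_mul_distrib]
  refine prod_congr rfl fun i _ => ?_
  have h2 : (P i : ℝ) - 1 ≠ 0 := by linarith [two_le_cast (P i)]
  rw [E_nu_mul]
  field_simp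

theorem WT_L2 {S T : Finset ι} {I : Finset ℕ} (h : Spread P S I) (hT : T ⊆ S) (h0 : T ≠ ∅) :
    (∏ i ∈ T, ((P i : ℝ) - 1) ^ 2) * 𝔼 ω, WT P T I ω ^ 2 ≤ #I * ∏ i ∈ T, (P i : ℝ) := by
  have hr : 0 < ∏ i ∈ T, (P i : ℝ) := prod_pos fun i _ => by linarith [two_le_cast (P i)]
  have h1 : ∑ T' ∈ T.powerset, (∏ i ∈ T', ((P i : ℝ) - 1) ^ 2) * 𝔼 ω, WT P T' I ω ^ 2 ≤
      #I * (#I + ∏ i ∈ T, (P i : ℝ)) := by
    simp only [E_WT_sq]
    rw [sum_comm, ← nsmul_eq_mul]
    refine sum_le_card_nsmul _ _ _ fun t ht => ?_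
    rw [sum_comm]
    have e : ∀ t' : ℕ, ∏ i ∈ T, (if (t : ZMod (P i)) = t' then (P i : ℝ) else 0) =
        if ∀ i ∈ T, (t : ZMod (P i)) = t' then ∏ i ∈ T, (P i : ℝ) else 0 := fun t' => by
      split_ifs with h
      · exact prod_congr rfl fun i hi => if_pos (h i hi)
      · push Not at h
        obtain ⟨i, hi, h⟩ := h
        exact prod_eq_zero hi (if_neg h)
    simp only [← prod_one_add, add_sub_cancel, e]
    rw [← sum_filter, sum_const, nsmul_eq_mul]
    refine (mul_le_mul_of_nonneg_right (h T hT t ht) hr.le).trans (le_of_eq ?_)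
    field_simp
  have h2 := sum_le_sum_of_subset_of_nonneg (s := {∅, T}) (t := T.powerset)
    (f := fun T' => (∏ i ∈ T', ((P i : ℝ) - 1) ^ 2) * 𝔼 ω, WT P T' I ω ^ 2)
    (by simp [insert_subset_iff]) fun T' _ _ => mul_nonneg (prod_nonneg fun _ _ => sq_nonneg _)
      (expect_nonneg fun _ _ => sq_nonneg _)
  rw [sum_pair h0.symm] at h2
  have h3 : 𝔼 ω, WT P ∅ I ω ^ 2 = (#I : ℝ) ^ 2 := by simp [WT]
  rw [h3, prod_empty] at h2
  nlinarith

theorem WT_dep (T : Finset ι) (I : Finset ℕ) : DependsOn (WT P T I) T := fun _ _ h =>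
  sum_congr rfl fun _ _ => prod_congr rfl fun i hi => by rw [h i hi]

theorem WT_av {T : Finset ι} {i : ι} (hi : i ∈ T) (I : Finset ℕ) (ω : ∀ i, ZMod (P i)) :
    𝔼 a, WT P T I (update ω i a) = 0 := by
  simp only [WT, expect_sum_comm]
  refine sum_eq_zero fun t _ => ?_
  have e : ∀ a, ∏ j ∈ T, nu (P j) t (update ω i a j) =
      nu (P i) t a * ∏ j ∈ T.erase i, nu (P j) t (ω j) := fun a => by
    rw [← mul_prod_erase _ _ hi, update_self]
    exact congrArg _ (prod_congr rfl fun j hj => by rw [update_of_ne (ne_of_mem_erase hj)])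
  simp only [e]
  rw [← expect_mul, E_nu, zero_mul]

theorem E_prod_WT {S : Finset ι} {I : Finset ℕ} (h : Spread P S I) (σ : Fin 4 → Finset ι)
    (hσ : ∀ k, σ k ∈ S.powerset.erase ∅) :
    𝔼 ω, ∏ k, WT P (σ k) I ω ≤ #I ^ 2 * ((∏ i ∈ univ.biUnion σ, 1 / (P i : ℝ)) *
      ∏ k, (2 : ℝ) ^ #(σ k)) := by
  have hp : ∀ i, (0 : ℝ) < P i := fun i => by linarith [two_le_cast (P i)]
  by_cases h2 : ∀ i ∈ univ.biUnion σ, ∃ k l, k ≠ l ∧ i ∈ σ k ∧ i ∈ σ l
  · have h1 := finner (A := fun i => ZMod (P i)) (univ.biUnion σ) σ (fun k => WT P (σ k) I)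
      (fun k => WT_dep P _ _) (fun k => subset_biUnion_of_mem σ (mem_univ k)) h2
    simp only [ZMod.card] at h1
    have hr : 0 < ∏ i ∈ univ.biUnion σ, (P i : ℝ) := prod_pos fun i _ => hp i
    have h3 : ∀ k, √((∏ i ∈ σ k, (P i : ℝ)) * 𝔼 ω, WT P (σ k) I ω ^ 2) ≤
        √(#I : ℝ) * 2 ^ #(σ k) := by
      intro k
      have h4 := WT_L2 P h (mem_powerset.1 (mem_of_mem_erase (hσ k))) (ne_of_mem_erase (hσ k))
      refine Real.sqrt_le_iff.2 ⟨by positivity, ?_⟩
      rw [mul_pow, Real.sq_sqrt (Nat.cast_nonneg _)]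
      have h5 : (∏ i ∈ σ k, (P i : ℝ)) * ∏ i ∈ σ k, (P i : ℝ) ≤
          (2 ^ #(σ k)) ^ 2 * ∏ i ∈ σ k, ((P i : ℝ) - 1) ^ 2 := by
        rw [← prod_const, ← prod_pow, ← prod_mul_distrib, ← prod_mul_distrib]
        refine prod_le_prod (fun i _ => by have := hp i; positivity) fun i _ => ?_
        nlinarith [two_le_cast (P i)]
      have h6 : 0 < ∏ i ∈ σ k, ((P i : ℝ) - 1) ^ 2 :=
        prod_pos fun i _ => pow_pos (by linarith [two_le_cast (P i)]) 2
      have h7 : 0 < ∏ i ∈ σ k, (P i : ℝ) := prod_pos fun i _ => hp i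
      refine le_of_mul_le_mul_left ?_ h6
      calc _ = (∏ i ∈ σ k, (P i : ℝ)) * ((∏ i ∈ σ k, ((P i : ℝ) - 1) ^ 2) *
            𝔼 ω, WT P (σ k) I ω ^ 2) := by ring
        _ ≤ (∏ i ∈ σ k, (P i : ℝ)) * (#I * ∏ i ∈ σ k, (P i : ℝ)) :=
          mul_le_mul_of_nonneg_left h4 h7.le
        _ = #I * ((∏ i ∈ σ k, (P i : ℝ)) * ∏ i ∈ σ k, (P i : ℝ)) := by ring
        _ ≤ _ := (mul_le_mul_of_nonneg_left h5 (Nat.cast_nonneg _)).trans_eq (by ring)
    have h4 := h1.trans (prod_le_prod (fun _ _ => Real.sqrt_nonneg _) fun k _ => h3 k)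
    rw [prod_mul_distrib, prod_const, card_univ, Fintype.card_fin,
      show √(#I : ℝ) ^ 4 = (√(#I : ℝ) ^ 2) ^ 2 by ring, Real.sq_sqrt (Nat.cast_nonneg _)] at h4
    refine (expect_le_expect fun ω _ => (le_abs_self _).trans_eq (abs_prod _ _)).trans ?_
    rw [prod_div_distrib, prod_const_one, mul_left_comm, one_div, ← div_eq_inv_mul, le_div_iff₀ hr,
      mul_comm]
    exact h4
  · push Not at h2
    obtain ⟨i, hi, h2⟩ := h2
    obtain ⟨k, -, hk⟩ := mem_biUnion.1 hi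
    refine le_trans (le_of_eq ?_) (mul_nonneg (sq_nonneg _) (mul_nonneg
      (prod_nonneg fun i _ => (one_div_pos.2 (hp i)).le) (by positivity)))
    rw [← E_av (A := fun i => ZMod (P i)) i]
    refine expect_eq_zero fun ω _ => ?_
    have e : ∀ a, ∏ l, WT P (σ l) I (update ω i a) =
        WT P (σ k) I (update ω i a) * ∏ l ∈ univ.erase k, WT P (σ l) I ω := fun a => by
      rw [← mul_prod_erase _ _ (mem_univ k)]
      exact congrArg _ (prod_congr rfl fun l hl => dep_update (A := fun i => ZMod (P i))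
        (WT_dep P _ _) (h2 k l (ne_of_mem_erase hl).symm hk) ω a)
    simp only [e]
    rw [← expect_mul, WT_av P hk, zero_mul]

theorem fourth_moment {S : Finset ι} {I : Finset ℕ} (h : Spread P S I) :
    𝔼 ω, ((∑ t ∈ I, yy P S t ω) ^ 2) ^ 2 ≤ #I ^ 2 * ∏ i ∈ S, (1 + 81 / (P i : ℝ)) := by
  have hp : ∀ i, (0 : ℝ) < P i := fun i => by linarith [two_le_cast (P i)]
  have e : ∀ ω, ((∑ t ∈ I, yy P S t ω) ^ 2) ^ 2 =
      ∑ σ ∈ Fintype.piFinset fun _ : Fin 4 => S.powerset.erase ∅, ∏ k, WT P (σ k) I ω := by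
    intro ω
    rw [← prod_univ_sum (fun _ : Fin 4 => S.powerset.erase ∅) fun _ T => WT P T I ω, ← sum_yy,
      prod_const, card_univ, Fintype.card_fin, ← pow_mul]
  simp only [e, expect_sum_comm]
  refine (sum_le_sum fun σ hσ => E_prod_WT P h σ (Fintype.mem_piFinset.1 hσ)).trans ?_
  rw [← mul_sum]
  refine mul_le_mul_of_nonneg_left ?_ (sq_nonneg _)
  rw [← sum_fiberwise_of_maps_to (t := S.powerset) (g := fun σ => univ.biUnion σ) fun σ hσ =>
    mem_powerset.2 (biUnion_subset.2 fun k _ =>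
      mem_powerset.1 (mem_of_mem_erase (Fintype.mem_piFinset.1 hσ k))), prod_one_add]
  refine sum_le_sum fun U _ => ?_
  have h0 : 0 ≤ ∏ i ∈ U, 1 / (P i : ℝ) := prod_nonneg fun i _ => (one_div_pos.2 (hp i)).le
  calc _ = (∏ i ∈ U, 1 / (P i : ℝ)) * ∑ σ ∈ (Fintype.piFinset fun _ : Fin 4 =>
          S.powerset.erase ∅) with univ.biUnion σ = U, ∏ k, (2 : ℝ) ^ #(σ k) := by
        rw [mul_sum]
        exact sum_congr rfl fun σ hσ => by rw [(mem_filter.1 hσ).2]
    _ ≤ (∏ i ∈ U, 1 / (P i : ℝ)) * ∑ σ ∈ Fintype.piFinset fun _ : Fin 4 => U.powerset,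
          ∏ k, (2 : ℝ) ^ #(σ k) := by
        refine mul_le_mul_of_nonneg_left (sum_le_sum_of_subset_of_nonneg (fun σ hσ => ?_)
          fun _ _ _ => by positivity) h0
        refine Fintype.mem_piFinset.2 fun k => mem_powerset.2 ?_
        rw [← (mem_filter.1 hσ).2]
        exact subset_biUnion_of_mem σ (mem_univ k)
    _ = _ := by
        rw [← prod_univ_sum (fun _ : Fin 4 => U.powerset) fun _ T => (2 : ℝ) ^ #T]
        have e2 : ∑ T ∈ U.powerset, (2 : ℝ) ^ #T = ∏ _i ∈ U, 3 := by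
          rw [show (3 : ℝ) = 1 + 2 by norm_num, prod_one_add]
          simp
        rw [e2, prod_const, card_univ, Fintype.card_fin, ← prod_pow, ← prod_mul_distrib]
        refine prod_congr rfl fun i _ => ?_
        ring

theorem spread_AP (hinj : Injective P) {S : Finset ι} {q : ℕ} (hq : q.Prime)
    (hS : ∀ i ∈ S, P i ≠ q) {I : Finset ℕ} {c m : ℕ} (hI : I = (range m).image fun j => c + q * j) :
    Spread P S I := by
  intro T hT t ht
  have hi : Injective fun j => c + q * j := fun a b h =>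
    Nat.eq_of_mul_eq_mul_left hq.pos (Nat.add_left_cancel h)
  subst hI
  obtain ⟨j₀, -, rfl⟩ := mem_image.1 ht
  have hr : 0 < ∏ i ∈ T, P i := prod_pos fun i _ => (hP i).out.pos
  rw [card_image_of_injective _ hi, filter_image, card_image_of_injective _ hi, ← Nat.cast_prod]
  have h1 : ∀ j ∈ {j ∈ range m | ∀ i ∈ T,
      ((c + q * j₀ : ℕ) : ZMod (P i)) = (c + q * j : ℕ)}, j ≡ j₀ [MOD ∏ i ∈ T, P i] := by
    intro j hj
    rw [Nat.modEq_iff_dvd, Nat.cast_prod]
    refine prod_dvd_of_coprime (fun a _ b _ hab => Nat.isCoprime_iff_coprime.2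
      ((Nat.coprime_primes (hP a).out (hP b).out).2 (hinj.ne hab))) fun i hi => ?_
    have h2 := (ZMod.natCast_eq_natCast_iff _ _ _).1 ((mem_filter.1 hj).2 i hi)
    exact (Nat.modEq_iff_dvd.1 (Nat.ModEq.cancel_left_of_coprime
      ((Nat.coprime_primes (hP i).out hq).2 (hS i (hT hi))) (Nat.ModEq.add_left_cancel' c h2)).symm)
  have h2 := card_le_card_of_injOn (s := {j ∈ range m | ∀ i ∈ T,
      ((c + q * j₀ : ℕ) : ZMod (P i)) = (c + q * j : ℕ)}) (t := range (m / (∏ i ∈ T, P i) + 1))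
    (fun j => j / ∏ i ∈ T, P i) (fun j hj => ?_) fun a ha b hb hab => ?_
  · rw [card_range] at h2 ⊢
    exact (Nat.cast_le.2 h2).trans (by
      push_cast
      exact add_le_add_left (Nat.cast_div_le.trans_eq (by push_cast; rfl)) 1)
  · exact mem_coe.2 (mem_range.2 (Nat.lt_succ_of_le
      (Nat.div_le_div_right (mem_range.1 (mem_filter.1 hj).1).le)))
  · have h3 : a % ∏ i ∈ T, P i = b % ∏ i ∈ T, P i := (h1 a ha).trans (h1 b hb).symm
    rw [← Nat.div_add_mod a (∏ i ∈ T, P i), ← Nat.div_add_mod b (∏ i ∈ T, P i), h3]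
    exact congrArg (_ * · + _) hab

end Pool.Agent.Lib.MP_a3b3a7_nt.M
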