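import Pool.Agent.Lib.MP_a3b3a7_nt.M.Pair
import Pool.Agent.Lib.MP_a3b3a7_nt.M.Alg
import Pool.Agent.Lib.MP_a3b3a7_nt.M.Moment

/-! Smoothed sums of the singular series over residue classes. -/

open Finset Function Real
open scoped BigOperators

namespace Pool.Agent.Lib.MP_a3b3a7_nt.M

/-- Indicator of positive integers. -/
noncomputable def pos (d : ℕ) : ℝ := if d = 0 then 0 else 1

theorem pos_mem (d : ℕ) : 0 ≤ pos d ∧ pos d ≤ d := by
  unfold pos
  split_ifs with h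
  · simp
  · exact ⟨zero_le_one, by exact_mod_cast Nat.pos_of_ne_zero h⟩

theorem pos_le (d : ℕ) : |pos d| ≤ 1 * d := by
  rw [abs_of_nonneg (pos_mem d).1, one_mul]; exact (pos_mem d).2

theorem Gen_pos {x : ℝ} (hx : 0 < x) (h1 : x ≤ 1) : |Gen pos x - (1 / x - 1 / 2)| ≤ x := by
  have hr := exp_neg_lt_one hx
  have e : Gen pos x = 1 / (rexp x - 1) := by
    refine HasSum.tsum_eq ((hasSum_nat_add_iff' 1).1 ?_)
    have h := (hasSum_geometric_of_lt_one (exp_pos _).le hr).mul_left (rexp (-x))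
    have e : rexp (-x) * (1 - rexp (-x))⁻¹ = 1 / (rexp x - 1) := by
      have h2 : rexp x - 1 ≠ 0 := (sub_pos.2 (one_lt_exp_iff.2 hx)).ne'
      rw [exp_neg]
      field_simp
    rw [e] at h
    simpa [pos, pow_succ'] using h
  have h := abs_le.1 (Real.exp_bound (x := x) (by rwa [abs_of_pos hx]) (n := 3) (by norm_num))
  simp only [sum_range_succ, range_zero, sum_empty, Nat.factorial, abs_of_pos hx] at h
  norm_num at h
  have h2 := add_one_le_exp x
  have h3 : 0 < rexp x - 1 := by linarith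
  rw [e]
  generalize rexp x = E at *
  rw [show 1 / (E - 1) - (1 / x - 1 / 2) = (2 * x - 2 * (E - 1) + x * (E - 1)) /
    (2 * x * (E - 1)) by field_simp; ring, abs_div, abs_of_pos (show 0 < 2 * x * (E - 1) by
    positivity), div_le_iff₀ (by positivity), abs_le]
  have x2 : 0 < x ^ 2 := by positivity
  have x3 : 0 < x ^ 3 := by positivity
  have x4 : x ^ 4 ≤ x ^ 3 := pow_le_pow_of_le_one hx.le h1 (by norm_num)
  have h4 := mul_le_mul_of_nonneg_left (show x ≤ E - 1 by linarith) x2.le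
  constructor <;> nlinarith

theorem Gen_tail {F : ℕ → ℝ} {C : ℝ} (hF : ∀ d, |F d| ≤ C * d) {x : ℝ} (hx : 0 < x) (h1 : x ≤ 1)
    (D : ℕ) : |Gen F x - ∑ d ∈ range D, F d * rexp (-x) ^ d| ≤
      16 * C / x ^ 2 * rexp (-(x * D / 2)) := by
  have hC : 0 ≤ C := by simpa using (abs_nonneg _).trans (hF 1)
  have h2 := (hasSum_nat_add_iff' D).2 (hasSum_Gen hF hx)
  have h3 := (hasSum_nat_add_iff' D).2 (hasSum_lin (half_pos hx) (C * rexp (-(x * D / 2))))
  have h4 : 0 ≤ ∑ d ∈ range D, C * rexp (-(x * D / 2)) * d * rexp (-(x / 2)) ^ d :=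
    sum_nonneg fun _ _ => by positivity
  have h5 : rexp (-(x / 2)) / (1 - rexp (-(x / 2))) ^ 2 ≤ 16 / x ^ 2 := by
    have a1 := add_one_le_exp (x / 2)
    have a2 : rexp (-(x / 2)) ≤ 1 - x / 4 := by
      rw [exp_neg, inv_le_iff_one_le_mul₀ (exp_pos _)]
      nlinarith
    have a3 := exp_pos (-(x / 2))
    rw [div_le_div_iff₀ (pow_pos (by linarith) 2) (by positivity)]
    nlinarith
  rw [← h2.tsum_eq]
  refine (tsum_of_norm_bounded h3 fun d => (norm_term hF x _).trans ?_).trans ?_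
  · rw [mul_right_comm C (rexp _), mul_assoc (C * _) (rexp _), ← exp_nat_mul, ← exp_nat_mul,
      ← exp_add]
    refine mul_le_mul_of_nonneg_left (exp_le_exp.2 ?_) (by positivity)
    push_cast
    nlinarith [mul_nonneg hx.le (Nat.cast_nonneg (α := ℝ) d)]
  · have := mul_le_mul_of_nonneg_left h5 (show 0 ≤ C * rexp (-(x * D / 2)) by positivity)
    have e : C * rexp (-(x * D / 2)) * (16 / x ^ 2) = 16 * C / x ^ 2 * rexp (-(x * D / 2)) := by
      ring
    linarith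

/-- Smoothed class sum. -/
noncomputable def ZZ (q : ℕ) (S : Finset ℕ) (x : ℝ) (v : ZMod q) : ℝ :=
  Gen (fun d => (fS q S d - pos d) * ind q v d) x

theorem fp_le (q : ℕ) {S : Finset ℕ} (hS : ∀ p ∈ S, p.Prime) (d : ℕ) :
    |fS q S d - pos d| ≤ (∏ p ∈ S, (1 + 81 / (p : ℝ)) + 1) * d :=
  (abs_sub _ _).trans ((add_le_add (fS_le q hS d) (pos_le d)).trans_eq (by ring))

theorem fpi_le (q : ℕ) {S : Finset ℕ} (hS : ∀ p ∈ S, p.Prime) (v : ZMod q) (d : ℕ) :
    |(fS q S d - pos d) * ind q v d| ≤ (∏ p ∈ S, (1 + 81 / (p : ℝ)) + 1) * d := by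
  rw [mul_comm]
  exact abs_mul_le (abs_ind q v d) (fp_le q hS d)

variable {q : ℕ} [hq : Fact q.Prime] {S : Finset ℕ} {y : ℕ}

theorem Sig_approx (hS : ∀ p ∈ S, p.Prime) (hqS : q ∉ S) (hy : 0 < y)
    (hU : ∀ p, p.Prime → p ≤ y → p ∈ insert q S) {x : ℝ} (hx : 0 < x) (h1 : x ≤ 1) :
    |Gen (fun d => fS q S d - pos d) x -
      ((1 - 1 / (q : ℝ)) / 2 * log (x / (2 * π)) - log q / q / 2 + 1 / 2)| ≤
      (∏ p ∈ S, (1 + 81 / (p : ℝ))) * (18 * q ^ 3) * qr x + x + 1 / (y * x) := by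
  have a1 := inv_one S hS hqS x hx
  have a2 := Gen_pos hx h1
  have a3 := euler hy hU ((forall_mem_insert _ _ _).2 ⟨hq.out, hS⟩)
  have a4 : |(π ^ 2 / 6 * ∏ p ∈ insert q S, (1 - 1 / (p : ℝ) ^ 2) - 1) / x| ≤ 1 / (y * x) := by
    rw [abs_div, abs_of_pos hx, ← div_div]
    exact div_le_div_of_nonneg_right a3 hx.le
  have e : Gen (fun d => fS q S d - pos d) x = Gen (fun d => fS q S d * 1) x - Gen pos x := by
    simp only [mul_one]
    exact HasSum.tsum_eq (((hasSum_Gen (fS_le q hS) hx).sub (hasSum_Gen pos_le hx)).congr_fun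
      fun d => sub_mul _ _ _)
  rw [sub_div] at a4
  rw [e, abs_le] at *
  constructor <;> linarith

theorem class_sums (hS : ∀ p ∈ S, p.Prime) (hqS : q ∉ S) (hy : 0 < y)
    (hU : ∀ p, p.Prime → p ≤ y → p ∈ insert q S) {x δ : ℝ} (hx : 0 < x) (h1 : q * x ≤ 1)
    (hδ : (∏ p ∈ S, (1 + 81 / (p : ℝ))) * (18 * q ^ 3) * q * qr x + q ^ 2 * x + 1 / (y * x) ≤ δ) :
    |ZZ q S x 0 - ((1 - 1 / (q : ℝ)) / 2 * log (q * x / (2 * π)) - log q / q / 2 + 1 / 2)| ≤ δ ∧
    |∑ v, ZZ q S x v - ((1 - 1 / (q : ℝ)) / 2 * log (q * x / (2 * π)) - log q / q / 2 + 1 / 2 -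
      (q - 1) * (log q / q) / 2)| ≤ δ ∧
    ∀ v ≠ 0, |ZZ q S x v + ZZ q S x (-v) + log q / q| ≤ 5 * δ := by
  have q2 : (2 : ℝ) ≤ q := by exact_mod_cast hq.out.two_le
  have q0 : (0 : ℝ) < q := by linarith
  have y0 : (0 : ℝ) < y := by exact_mod_cast hy
  have K0 : 0 ≤ (∏ p ∈ S, (1 + 81 / (p : ℝ))) * (18 * q ^ 3) :=
    mul_nonneg (prod_nonneg fun _ _ => by positivity) (by positivity)
  have x1 : x ≤ q * x := le_mul_of_one_le_left hx.le (by linarith)
  have x2 : q * x ≤ q ^ 2 * x := by nlinarith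
  have x3 : 0 < 1 / (y * x) := by positivity
  have hZ := fun v => hasSum_Gen (fpi_le q hS v) hx
  have b0 := Sig_approx hS hqS hy hU (mul_pos q0 hx) h1
  have b1 := Sig_approx hS hqS hy hU hx (x1.trans h1)
  have b2 := fun v v' hv hv' => inv_om (q := q) S hS hqS v v' hv hv' x hx
  generalize (∏ p ∈ S, (1 + 81 / (p : ℝ))) * (18 * q ^ 3) = K at hδ K0 b0 b1 b2
  have k0 := mul_nonneg K0 (qr_nonneg x)
  have k1 : K * qr x ≤ K * q * qr x := by nlinarith
  have c0 : |ZZ q S x 0 - ((1 - 1 / (q : ℝ)) / 2 * log (q * x / (2 * π)) - log q / q / 2 +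
      1 / 2)| ≤ δ := by
    have e : ZZ q S x 0 = Gen (fun d => fS q S d - pos d) (q * x) := by
      refine HasSum.tsum_eq ((hasSum_Dv hq.out.pos (hasSum_Gen (fp_le q hS)
        (mul_pos q0 hx))).congr_fun fun d => ?_)
      congr 1
      by_cases hd : q ∣ d
      · obtain ⟨m, rfl⟩ := hd
        simp [Dv_mul hq.out.pos, fS_mul hq.out hS hqS, ind, pos, hq.out.ne_zero]
      · simp [Dv_not hd, ind, ZMod.natCast_eq_zero_iff, hd]
    rw [e]
    refine b0.trans (le_trans ?_ hδ)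
    rw [qr_mul q0.le]
    have k2 : K * (qr q * qr x) ≤ K * q * qr x := by
      nlinarith [qr_le_self (show (1 : ℝ) ≤ q by linarith)]
    have k3 : 1 / (y * (q * x)) ≤ 1 / (y * x) := by gcongr
    linarith
  have c1 : |∑ v, ZZ q S x v - ((1 - 1 / (q : ℝ)) / 2 * log (q * x / (2 * π)) - log q / q / 2 +
      1 / 2 - (q - 1) * (log q / q) / 2)| ≤ δ := by
    have e : ∑ v, ZZ q S x v = Gen (fun d => fS q S d - pos d) x := by
      refine (HasSum.tsum_eq ((hasSum_sum fun v _ => hZ v).congr_fun fun d => ?_)).symm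
      rw [← sum_mul, ← mul_sum]
      simp [ind]
    rw [e, mul_div_assoc (q : ℝ) x, log_mul q0.ne' (div_pos hx (by linarith [pi_pos])).ne']
    refine (le_of_eq (congrArg abs ?_)).trans (b1.trans (by linarith))
    field_simp
    ring
  refine ⟨c0, c1, fun v hv => ?_⟩
  have c2 : ∀ v' ∈ univ.erase (0 : ZMod q),
      |ZZ q S x v + ZZ q S x (-v) - (ZZ q S x v' + ZZ q S x (-v'))| ≤ δ := fun v' hv' => by
    have hv' := ne_of_mem_erase hv'
    have hl : ∀ d : ℕ, |fS q S d * om q v v' d| ≤ (2 * ∏ p ∈ S, (1 + 81 / (p : ℝ))) * d :=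
      fun d => by
        rw [abs_mul, mul_comm, mul_assoc]
        exact mul_le_mul (abs_om ..) (fS_le q hS d) (abs_nonneg _) (by norm_num)
    have e := (((hZ v).add (hZ (-v))).sub ((hZ v').add (hZ (-v')))).unique
      (((hasSum_Gen hl hx).sub (hasSum_om q hv hv' (exp_pos _).le (exp_neg_lt_one hx))).congr_fun
        fun d => by
          rcases eq_or_ne d 0 with rfl | hd
          · simp [om_zero hv hv', pos, fS, gU]
          · rw [pos, if_neg hd, om]; ring)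
    unfold ZZ
    rw [e]
    obtain ⟨d1, d2⟩ := abs_kz hq.out.pos (ZMod.val_le v) hx
    obtain ⟨d3, d4⟩ := abs_kz hq.out.pos (ZMod.val_le v') hx
    have d5 := abs_le.1 (b2 v v' hv hv')
    rw [abs_le]
    constructor <;> linarith
  have c3 := (abs_sum_le_sum_abs _ _).trans (sum_le_card_nsmul _ _ _ c2)
  have e1 : ∑ v' ∈ univ.erase (0 : ZMod q), ZZ q S x (-v') = ∑ v, ZZ q S x v - ZZ q S x 0 := by
    rw [sum_erase_eq_sub (mem_univ _), neg_zero, ← Equiv.sum_comp (Equiv.neg _) (ZZ q S x)]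
    rfl
  rw [sum_sub_distrib, sum_add_distrib (f := ZZ q S x), e1,
    sum_erase_eq_sub (f := ZZ q S x) (mem_univ _), sum_const, card_erase_of_mem (mem_univ _), card_univ, ZMod.card, nsmul_eq_mul, nsmul_eq_mul,
    Nat.cast_pred hq.out.pos] at c3
  have δ0 : 0 ≤ δ := (abs_nonneg _).trans c0
  have c4 : |(q - 1 : ℝ) * (ZZ q S x v + ZZ q S x (-v) + log q / q)| ≤ (q - 1) * (5 * δ) := by
    have := mul_le_mul_of_nonneg_right (show (1 : ℝ) ≤ q - 1 by linarith) δ0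
    rw [abs_le] at c0 c1 c3 ⊢
    constructor <;> linarith [c0.1, c0.2, c1.1, c1.2, c3.1, c3.2]
  rw [abs_mul, abs_of_pos (show (0 : ℝ) < q - 1 by linarith)] at c4
  exact le_of_mul_le_mul_left c4 (by linarith)

theorem SS_approx (hS : ∀ p ∈ S, p.Prime) (hU : ∀ p, p.Prime → p ≤ y → p ∈ insert q S)
    {ρ : ℕ → ℝ} (hρ : ∀ d, 0 < d → ρ d = ∏ p ∈ S, loc p d - 1) {J c : ℕ} (hJ : q * J ≤ y)
    (hc : c < q) {x M Θ : ℝ} (hx : 0 < x) (h1 : x ≤ 1) (hΘ : ∏ p ∈ S, (1 + 81 / (p : ℝ)) ≤ Θ)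
    (hM : |SS (rexp (-x) ^ q) q J ρ c| ≤ M) :
    |SS (rexp (-x) ^ q) q J ρ c - ZZ q S x (c + 1 : ℕ)| ≤
      q * x * M + 16 * (Θ + 1) / x ^ 2 * rexp (-(x * (q * J : ℕ) / 2)) := by
  have h2 := Gen_tail (C := Θ + 1) (fun d => (fpi_le q hS ((c + 1 : ℕ) : ZMod q) d).trans
    (mul_le_mul_of_nonneg_right (by linarith) (Nat.cast_nonneg d))) hx h1 (q * J + 1)
  have e : ∑ d ∈ range (q * J + 1), (fS q S d - pos d) * ind q (c + 1 : ℕ) d * rexp (-x) ^ d =
      rexp (-x) ^ (c + 1) * SS (rexp (-x) ^ q) q J ρ c := by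
    rw [sum_range_succ']
    simp only [add_comm _ 1]
    rw [pre_mul q fun d => (fS q S d - pos d) * ind q (1 + c : ℕ) d * rexp (-x) ^ d,
      sum_eq_single c, SS, mul_sum]
    · simp only [fS, gU, pos, Nat.divisors_zero, sum_empty, mul_zero, if_true, sub_self, zero_mul,
        add_zero]
      refine sum_congr rfl fun j hj => ?_
      have hd : c + 1 + q * j ≤ y := by
        have := Nat.mul_le_mul_left q (mem_range.1 hj)
        rw [Nat.mul_succ] at this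
        omega
      rw [← gU, gU_eq_one hU ((forall_mem_insert _ _ _).2 ⟨hq.out, hS⟩) (by omega) hd,
        hρ _ (by omega), if_neg (by omega), ind, if_pos (by push_cast; simp [add_comm]), pow_add,
        pow_mul, add_comm 1 c]
      ring
    · intro b hb hbc
      refine sum_eq_zero fun j _ => ?_
      rw [ind, if_neg, mul_zero, zero_mul]
      intro h
      push_cast at h
      rw [ZMod.natCast_self, zero_mul, add_zero, add_comm, add_right_inj,
        ZMod.natCast_eq_natCast_iff', Nat.mod_eq_of_lt hc, Nat.mod_eq_of_lt (mem_range.1 hb)] at h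
      exact hbc h
    · exact fun h => (h (mem_range.2 hc)).elim
  have Θ0 : 0 ≤ Θ := (prod_nonneg fun _ _ => by positivity).trans hΘ
  have h3 : rexp (-(x * (q * J + 1 : ℕ) / 2)) ≤ rexp (-(x * (q * J : ℕ) / 2)) :=
    exp_le_exp.2 (by push_cast; nlinarith)
  have h4 := mul_le_mul_of_nonneg_left h3 (show 0 ≤ 16 * (Θ + 1) / x ^ 2 by positivity)
  have h5 : |(1 - rexp (-x) ^ (c + 1)) * SS (rexp (-x) ^ q) q J ρ c| ≤ q * x * M := by
    obtain ⟨a1, a2⟩ := fr_mem (c + 1) hx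
    rw [div_le_iff₀ hx] at a2
    rw [abs_mul, abs_of_nonneg ((div_nonneg_iff.1 a1).elim And.left fun h => by linarith [h.2])]
    have a3 : ((c + 1 : ℕ) : ℝ) ≤ q := by exact_mod_cast hc
    exact mul_le_mul (by nlinarith) hM (abs_nonneg _) (by positivity)
  rw [e] at h2
  unfold ZZ
  rw [abs_le] at *
  constructor <;> linarith

/-- Positions that are not killed modulo `q` when the start is in class `A`. -/
noncomputable def aa (q : ℕ) (A : ZMod q) (t : ℕ) : ℝ := 1 - hit q t A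

theorem sum_succ (F : ZMod q → ℝ) : ∑ c ∈ range q, F (c + 1 : ℕ) = ∑ v, F v := by
  rw [sum_zmod, ← Equiv.sum_comp (Equiv.addRight 1) F]
  simp

theorem Psi_eq (A : ZMod q) (g : ℕ) (τ : ℝ) (Z : ZMod q → ℝ) :
    Psi (aa q A) q g τ (fun c => Z (c + 1 : ℕ)) = Z (g + 1 : ℕ) -
      τ * (2 * ∑ v, Z v - Z (-A) - Z (A + (g + 1 : ℕ))) + τ ^ 2 * ((q - 2) * ∑ v, Z v + Z 0) := by
  have e0 : ∀ (B : ZMod q) (F : ZMod q → ℝ),
      ∑ v, (1 - if v = B then 1 else 0) * F v = ∑ v, F v - F B := fun B F => by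
    simp [sub_mul]
  have e1 : ∀ (F : ZMod q → ℝ), ∑ c ∈ range q, aa q A (c + 1) * F (c + 1 : ℕ) =
      ∑ v, F v - F (-A) := fun F => by
    rw [← e0, ← sum_succ fun v => (1 - if v = -A then 1 else 0) * F v]
    refine sum_congr rfl fun c _ => ?_
    simp only [aa, hit, add_eq_zero_iff_eq_neg', eq_comm]
  have e2 : ∀ g : ℕ, ∑ c ∈ range q, abar (aa q A) q g (c + 1) * Z (c + 1 : ℕ) =
      ∑ v, Z v - Z (A + (g + 1 : ℕ)) := fun g => by
    rw [← e0, ← sum_succ fun v => (1 - if v = A + ((g + 1 : ℕ) : ZMod q) then 1 else 0) * Z v]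
    refine sum_congr rfl fun c _ => ?_
    simp only [abar, aa, hit]
    rw [Nat.cast_add (g + 1), Nat.cast_mul, Nat.cast_pred hq.out.pos, ZMod.natCast_self, zero_sub,
      neg_one_mul, ← add_assoc]
    simp only [add_neg_eq_zero, eq_comm]
  unfold Psi
  simp only [e2]
  rw [e1, e1 fun v => ∑ v, Z v - Z (A + v), sum_sub_distrib, sum_const, card_univ, ZMod.card,
    nsmul_eq_mul, add_neg_cancel, show ∑ v, Z (A + v) = ∑ v, Z v from
      Equiv.sum_comp (Equiv.addLeft A) Z]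
  ring

theorem Psi_cmp {a S S' : ℕ → ℝ} (ha : ∀ t, |a t| ≤ 1) {q g : ℕ} (hg : g < q) {τ τ' M δ : ℝ}
    (τ0 : 0 ≤ τ) (τ2 : τ ≤ 2) (τ0' : 0 ≤ τ') (τ2' : τ' ≤ 2) (hM : ∀ c < q, |S c| ≤ M)
    (hδ : ∀ c < q, |S c - S' c| ≤ δ) :
    |Psi a q g τ S - Psi a q g τ' S'| ≤ 6 * q ^ 2 * (|τ - τ'| * M) + 9 * q ^ 2 * δ := by
  have q1 : (1 : ℝ) ≤ q := by exact_mod_cast Nat.zero_lt_of_lt hg
  have key : ∀ (T : ℕ → ℝ) (B : ℝ), (∀ c < q, |T c| ≤ B) →
      |∑ c ∈ range q, a (c + 1) * T c + ∑ c ∈ range q, abar a q g (c + 1) * T c| ≤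
        2 * (q ^ 2 * B) ∧
      |∑ c ∈ range q, a (c + 1) * ∑ d ∈ range q, abar a q c (d + 1) * T d| ≤ q ^ 2 * B := by
    intro T B hT
    have B0 : 0 ≤ B := (abs_nonneg _).trans (hT g hg)
    have h1 := abs_sum_le (n := q) fun c hc => abs_mul_le (ha (c + 1)) (hT c hc)
    have h2 := fun g => abs_sum_le (n := q) fun c hc =>
      abs_mul_le (u := abar a q g (c + 1)) (ha _) (hT c hc)
    have h3 : q * B ≤ q ^ 2 * B := mul_le_mul_of_nonneg_right (by nlinarith) B0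
    exact ⟨(abs_add_le _ _).trans (by linarith [h2 g]),
      (abs_sum_le fun c _ => abs_mul_le (ha _) (h2 c)).trans_eq (by ring)⟩
  obtain ⟨h1, h2⟩ := key S M hM
  obtain ⟨h3, h4⟩ := key (fun c => S c - S' c) δ hδ
  have h5 := hδ g hg
  have δ0 : 0 ≤ δ := (abs_nonneg _).trans h5
  have h6 : δ ≤ q ^ 2 * δ := le_mul_of_one_le_left δ0 (one_le_pow₀ q1)
  simp only [mul_sub, sum_sub_distrib] at h3 h4
  unfold Psi
  generalize ∑ c ∈ range q, a (c + 1) * S c = u1 at *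
  generalize ∑ c ∈ range q, abar a q g (c + 1) * S c = u2 at *
  generalize ∑ c ∈ range q, a (c + 1) * S' c = u3 at *
  generalize ∑ c ∈ range q, abar a q g (c + 1) * S' c = u4 at *
  generalize ∑ c ∈ range q, a (c + 1) * ∑ d ∈ range q, abar a q c (d + 1) * S d = u5 at *
  generalize ∑ c ∈ range q, a (c + 1) * ∑ d ∈ range q, abar a q c (d + 1) * S' d = u6 at *
  have e : S g - τ * (u1 + u2) + τ ^ 2 * u5 - (S' g - τ' * (u3 + u4) + τ' ^ 2 * u6) =
      (τ - τ') * ((τ + τ') * u5 - (u1 + u2)) +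
        ((S g - S' g) - τ' * (u1 - u3 + (u2 - u4)) + τ' ^ 2 * (u5 - u6)) := by ring
  have a1 : |(τ + τ') * u5| ≤ 4 * (q ^ 2 * M) := by
    rw [abs_mul, abs_of_nonneg (add_nonneg τ0 τ0')]
    exact mul_le_mul (by linarith) h2 (abs_nonneg _) (by norm_num)
  have a2 : |τ' * (u1 - u3 + (u2 - u4))| ≤ 2 * (2 * (q ^ 2 * δ)) := by
    rw [abs_mul, abs_of_nonneg τ0']
    exact mul_le_mul τ2' h3 (abs_nonneg _) (by norm_num)
  have a3 : |τ' ^ 2 * (u5 - u6)| ≤ 4 * (q ^ 2 * δ) := by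
    rw [abs_mul, abs_of_nonneg (sq_nonneg _)]
    exact mul_le_mul (by nlinarith) h4 (abs_nonneg _) (by norm_num)
  have a4 : |(τ - τ') * ((τ + τ') * u5 - (u1 + u2))| ≤ |τ - τ'| * (6 * (q ^ 2 * M)) := by
    rw [abs_mul]
    exact mul_le_mul_of_nonneg_left ((abs_sub _ _).trans (by linarith)) (abs_nonneg _)
  rw [e]
  refine (abs_add_le _ _).trans (add_le_add (a4.trans_eq (by ring)) ?_)
  rw [abs_le] at *
  constructor <;> linarith

end Pool.Agent.Lib.MP_a3b3a7_nt.M
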