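import Pool.Agent.Lib.MP_a3b3a7_nt.M.Cls

/-! The gap sum in terms of class sums of the pair correlation, and elementary expansions. -/

open Finset Function
open scoped BigOperators

namespace Pool.Agent.Lib.MP_a3b3a7_nt.M

theorem pow_approx {α : ℝ} (α0 : 0 ≤ α) (α1 : α ≤ 1) (i : ℕ) :
    1 - i * α ≤ (1 - α) ^ i ∧ (1 - α) ^ i ≤ 1 - i * α + (i * α) ^ 2 := by
  refine ⟨by simpa [sub_eq_add_neg] using one_add_mul_le_pow (a := -α) (by linarith) i, ?_⟩
  induction i with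
  | zero => simp
  | succ i ih =>
    have h := mul_le_mul_of_nonneg_right ih (sub_nonneg.2 α1)
    have h1 : (0 : ℝ) ≤ i := Nat.cast_nonneg i
    have h2 := mul_nonneg (sq_nonneg (i * α)) α0
    have h3 := mul_nonneg h1 (sq_nonneg α)
    rw [pow_succ]
    push_cast
    nlinarith [sq_nonneg α]

theorem geo_approx {α : ℝ} (α0 : 0 ≤ α) (α1 : α ≤ 1) (n : ℕ) :
    n * (1 - α * (n - 1) / 2) ≤ ∑ i ∈ range n, (1 - α) ^ i ∧
    ∑ i ∈ range n, (1 - α) ^ i ≤ n * (1 - α * (n - 1) / 2 + (n * α) ^ 2) := by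
  induction n with
  | zero => simp
  | succ n ih =>
    obtain ⟨h1, h2⟩ := pow_approx α0 α1 n
    have h3 : (0 : ℝ) ≤ n := Nat.cast_nonneg n
    have h4 := mul_nonneg h3 (sq_nonneg α)
    have h5 := mul_nonneg h3 h4
    rw [sum_range_succ]
    push_cast
    constructor <;> nlinarith [ih.1, ih.2, sq_nonneg α]

theorem elem {α : ℝ} {q m : ℕ} (q2 : 2 ≤ q) (hm : m ≤ q) (α0 : 0 < α) (hα : q * α ≤ 1 / 4) :
    α ≤ 1 - (1 - α) ^ (q - 1) ∧ 1 - (1 - α) ^ (q - 1) ≤ q * α ∧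
    α / (1 - α) / (1 - (1 - α) ^ (q - 1)) ≤ 2 ∧
    |α / (1 - α) / (1 - (1 - α) ^ (q - 1)) - 1 / (q - 1)| ≤ 6 * (q * α) ∧
    |(q - 1) * α * ((1 - α) ^ m / (1 - (1 - α) ^ (q - 1))) - (1 - α * m + α * (q - 2) / 2)| ≤
      10 * (q * α) ^ 2 := by
  have q2' : (2 : ℝ) ≤ q := by exact_mod_cast q2
  have hm' : (m : ℝ) ≤ q := by exact_mod_cast hm
  have m0 : (0 : ℝ) ≤ m := Nat.cast_nonneg m
  have α1 : α ≤ q * α := by nlinarith
  obtain ⟨h1, h2⟩ := geo_approx α0.le (by linarith) (q - 1)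
  obtain ⟨h3, h4⟩ := pow_approx α0.le (by linarith) m
  obtain ⟨h5, -⟩ := pow_approx α0.le (by linarith) (q - 1)
  have h6 : (1 - α) ^ (q - 1) ≤ 1 - α := pow_le_of_le_one (by linarith) (by linarith) (by omega)
  have e := mul_neg_geom_sum (1 - α) (q - 1)
  rw [sub_sub_cancel] at e
  rw [Nat.cast_pred (by omega)] at h1 h2 h5
  refine ⟨by linarith, by linarith, ?_⟩
  rw [← e]
  have φ0 : (0 : ℝ) < q - 1 := by linarith
  obtain ⟨D, hD⟩ : ∃ D, ∑ i ∈ range (q - 1), (1 - α) ^ i = (q - 1) * D :=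
    ⟨_, (mul_div_cancel₀ _ φ0.ne').symm⟩
  rw [hD] at h1 h2 ⊢
  have h7 := le_of_mul_le_mul_left h1 φ0
  have h8 := le_of_mul_le_mul_left h2 φ0
  have h9 : ((q - 1) * α) ^ 2 ≤ (q * α) ^ 2 := pow_le_pow_left₀ (by positivity) (by linarith) 2
  have h10 : (m * α) ^ 2 ≤ (q * α) ^ 2 := by gcongr
  have b0 : 0 ≤ α * (q - 1 - 1) / 2 := by have : (0 : ℝ) ≤ q - 1 - 1 := by linarith
                                          positivity
  have b1 : α * (q - 1 - 1) / 2 ≤ q * α := by linarith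
  have c0 : 0 ≤ m * α := by positivity
  have c1 : m * α ≤ q * α := by gcongr
  have a1 : 0 < 1 - α := by linarith
  have D0 : 3 / 4 ≤ D := by linarith
  have e1 : α / (1 - α) / (α * ((q - 1) * D)) = 1 / (q - 1) * (1 / ((1 - α) * D)) := by
    field_simp
  have e2 : (q - 1) * α * ((1 - α) ^ m / (α * ((q - 1) * D))) = (1 - α) ^ m / D := by
    field_simp
  have e3 : α * (q - 2) / 2 = α * (q - 1 - 1) / 2 := by ring
  have f1 : 1 / ((q : ℝ) - 1) ≤ 1 := div_le_one_of_le₀ (by linarith) φ0.le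
  have f0 : 0 ≤ 1 / ((q : ℝ) - 1) := by positivity
  have t2 : (q * α) ^ 2 ≤ q * α := pow_le_of_le_one (b0.trans b1) (by linarith) two_ne_zero
  rw [e1, e2, e3, mul_comm α m]
  generalize α * (q - 1 - 1) / 2 = b at *
  generalize m * α = c at *
  generalize (1 - α) ^ m = X at *
  generalize q * α = t at *
  have t0 : 0 ≤ t := b0.trans b1
  have g0 : 1 / 2 ≤ (1 - α) * D := le_trans (by norm_num)
    (mul_le_mul (show 3 / 4 ≤ 1 - α by linarith) D0 (by norm_num) a1.le)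
  have g1 : |1 / ((1 - α) * D) - 1| ≤ 6 * t := by
    rw [div_sub_one (by linarith), abs_div, abs_of_pos (show 0 < (1 - α) * D by linarith),
      div_le_iff₀ (by linarith), abs_le]
    have k1 := mul_le_mul_of_nonneg_left g0 t0
    have k2 := mul_le_mul α1 (show D ≤ 2 by linarith) (by linarith) t0
    have k3 := mul_nonneg α0.le (show 0 ≤ D by linarith)
    constructor <;> linarith
  refine ⟨?_, ?_, ?_⟩
  · refine (mul_le_of_le_one_left (by positivity) f1).trans ?_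
    rw [div_le_iff₀ (by linarith)]
    linarith
  · rw [← mul_sub_one, abs_mul, abs_of_nonneg f0]
    exact (mul_le_of_le_one_left (abs_nonneg _) f1).trans g1
  · rw [div_sub' (by linarith), abs_div, abs_of_pos (show 0 < D by linarith),
      div_le_iff₀ (by linarith), abs_le]
    have k1 := mul_le_mul b1 c1 c0 t0
    have k2 : b ^ 2 ≤ t ^ 2 := pow_le_pow_left₀ b0 b1 2
    have k3 := mul_nonneg b0 c0
    have k4 : (D - (1 - b)) * (1 - c + b) ≤ t ^ 2 * 2 :=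
      mul_le_mul (by linarith) (by linarith) (by linarith) (by positivity)
    have k5 : 0 ≤ (D - (1 - b)) * (1 - c + b) := mul_nonneg (by linarith) (by linarith)
    have k6 : 10 * t ^ 2 * (3 / 4) ≤ 10 * t ^ 2 * D := by gcongr
    have k7 := sq_nonneg b
    have k8 := sq_nonneg t
    constructor <;> linarith

theorem gam_eq {a : ℕ → ℝ} (ha : ∀ t, a t = 0 ∨ a t = 1) (α : ℝ) (n : ℕ) :
    ∃ m ≤ n, (m : ℝ) = ∑ i ∈ range n, a (1 + i) ∧ gam a α n = (1 - α) ^ m := by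
  induction n with
  | zero => exact ⟨0, le_rfl, by simp, by simp [gam]⟩
  | succ n ih =>
    obtain ⟨m, h1, h2, h3⟩ := ih
    unfold gam at *
    rw [sum_range_succ, prod_range_succ, h3, ← h2]
    rcases ha (1 + n) with h | h <;> rw [h]
    · exact ⟨m, by omega, by simp, by simp⟩
    · exact ⟨m + 1, by omega, by simp, by simp [pow_succ]⟩

variable {Ω : Type} [Fintype Ω] [Nonempty Ω]
variable {y : ℕ → Ω → ℝ} {a : ℕ → ℝ} {sh : ℕ → Ω → Ω} {q : ℕ} {Θ α : ℝ}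

/-- Pair correlation. -/
noncomputable def cor (y : ℕ → Ω → ℝ) (d : ℕ) : ℝ := 𝔼 ω, y 0 ω * y d ω

namespace Sys2

variable (H : Sys2 y a sh q Θ α)
include H

theorem cor_eq {t u : ℕ} (h : t ≤ u) : 𝔼 ω, y t ω * y u ω = cor y (u - t) := by
  rw [cor, ← H.E_sh t fun ω => y 0 ω * y (u - t) ω]
  simp only [H.y_sh, zero_add, Nat.sub_add_cancel h]

theorem cor_le (d : ℕ) : |cor y d| ≤ Θ ^ 2 := by
  refine (abs_expect_le _ _).trans (expect_le univ_nonempty fun ω _ => ?_)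
  rw [abs_mul, sq]
  exact mul_le_mul (H.bdd _ _) (H.bdd _ _) (abs_nonneg _) H.pos.le

theorem SS_le {G : ℝ} (G0 : 0 ≤ G) (G1 : G ≤ 1) {R J : ℕ} (hJ : J ≤ R ^ 4) (c : ℕ) :
    |SS G q J (cor y) c| ≤ Θ ^ 2 * R ^ 2 := by
  refine abel_le G0 G1 _ J fun m hm => ?_
  have e : ∑ j ∈ range m, cor y (c + 1 + q * j) = 𝔼 ω, y 0 ω * VV y q (c + 1) m ω := by
    simp only [VV, mul_sum, cor]
    rw [expect_sum_comm]
  have h1 := H.one_le
  have h2 : n4 (VV y q (c + 1) m) ≤ (Θ * R ^ 2) ^ 2 := by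
    refine (H.hV _ _).trans ?_
    have : (m : ℝ) ≤ R ^ 4 := by exact_mod_cast hm.trans hJ
    calc Θ * m ≤ Θ ^ 2 * R ^ 4 := mul_le_mul (by nlinarith) this (by positivity) (by positivity)
      _ = _ := by ring
  rw [e]
  refine (abs_E_mul _ _).trans ((mul_le_mul (n2_le_of_bdd (H.bdd 0))
    (n2_le_of_n4 (by positivity) h2) (n2_nonneg _) H.pos.le).trans_eq (by ring))

theorem core {g R k J : ℕ} (hg : g < q) (hR : 0 < R) (hk : R ^ 4 ≤ 2 ^ k)
    (hk' : (k : ℝ) + 1 ≤ Θ) (hJ : q * (J + R ^ 2) ≤ R ^ 4) (J0 : 0 < J) {κ s G : ℝ}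
    (hκ : κ = α / (1 - α)) (hs : s = κ * Θ * R ^ 2) (hs' : s ≤ 1 / 4) (hG : gam a α q = G)
    (G1 : G < 1) (τ2 : κ / (1 - G) ≤ 2) :
    |∑ j ∈ range J, 𝔼 ω, (1 + y 0 ω) * (1 + y (g + 1 + q * j) ω) * void y a α (g + q * j) ω -
      gam a α g * (∑ j ∈ range J, G ^ j + Psi a q g (κ / (1 - G)) (SS G q J (cor y)))| ≤
      κ * (5 * Θ ^ 4 * R ^ 3) + κ ^ 2 * (15 * Θ ^ 5 * R ^ 7) + R ^ 4 * (480 * Θ ^ 2 * s ^ 3) +
      14 * q ^ 2 * ((κ + (1 - G)) * (Θ ^ 2 * R ^ 2) +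
        G ^ J * ((q * J : ℕ) * ((q * J : ℕ) * Θ ^ 2))) := by
  have h1 := H.expand hg hR hk hk' hJ hκ hs hs'
  have G0 : 0 ≤ G := hG ▸ (H.gam_mem q).1
  have α0 := H.α0
  have α1 := H.α1
  have κ0 : 0 ≤ κ := hκ ▸ div_nonneg α0.le (by linarith)
  have κ1 : κ ≤ 1 := hκ ▸ div_le_one_of_le₀ (by linarith) (by linarith)
  have hJ' : J ≤ R ^ 4 := le_trans (by nlinarith [Nat.zero_lt_of_lt hg]) hJ
  have h2 := alg_main G0 G1 κ0 κ1 (div_mul_cancel₀ κ (sub_pos.2 G1).ne').symm τ2 hg H.per H.a_le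
    H.cor_le (fun c _ => H.SS_le G0 G1.le hJ' c) le_rfl J0
  have e1 : ∀ n, 𝔼 ω, y 0 ω * WW y a 1 n ω = ∑ i ∈ range n, a (1 + i) * cor y (1 + i) :=
    fun n => by
      simp only [WW, mul_sum, cor, mul_expect]
      rw [expect_sum_comm]
      exact sum_congr rfl fun i _ => expect_congr rfl fun ω _ => by ring
  have e2 : ∀ n i, i ≤ n → 𝔼 ω, y (1 + n) ω * WW y a 1 i ω =
      ∑ l ∈ range i, a (1 + l) * cor y (n - l) := fun n i hi => by
    simp only [WW, mul_sum]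
    rw [expect_sum_comm]
    refine sum_congr rfl fun l hl => ?_
    rw [← Nat.add_sub_add_left 1, ← H.cor_eq (by have := mem_range.1 hl; omega), mul_expect]
    exact expect_congr rfl fun ω _ => by ring
  have e3 : ∀ n, 𝔼 ω, M.e2 y a 1 n ω =
      ∑ i ∈ range n, a (1 + i) * ∑ l ∈ range i, a (1 + l) * cor y (i - l) := fun n => by
    simp only [M.e2]
    rw [expect_sum_comm]
    refine sum_congr rfl fun i _ => ?_
    rw [← e2 i i le_rfl, mul_expect]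
    exact expect_congr rfl fun ω _ => by ring
  have e4 : ∀ j, 𝔼 ω, y (g + 1 + q * j) ω * WW y a 1 (g + q * j) ω =
      ∑ l ∈ range (g + q * j), a (1 + l) * cor y (g + q * j - l) := fun j => by
    rw [← e2 _ _ le_rfl, show 1 + (g + q * j) = g + 1 + q * j by ring]
  simp only [e1, e3, e4, hG, ← cor.eq_1] at h1
  refine (abs_sub_le _ _ _).trans (add_le_add h1 ?_)
  rw [← mul_sub]
  exact abs_mul_le (by rw [abs_of_nonneg (H.gam_mem g).1]; exact (H.gam_mem g).2) h2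

end Sys2

end Pool.Agent.Lib.MP_a3b3a7_nt.M
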