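import Pool.Agent.Lib.MP_a3b3a7_nt.M.Sieve
import Pool.Agent.Lib.MP_a3b3a7_nt.M.Bias

/-! Counting consecutive sifted integers. -/

open Finset Function Real
open scoped BigOperators

namespace Pool.Agent.Lib.MP_a3b3a7_nt.M

/-- Share of the integers below `x` prime to `N` that lie in class `A` and whose successor among
the integers prime to `N` lies in class `B`. -/
noncomputable def share (N x q : ℕ) (A B : ZMod q) : ℝ :=
  (#{k ∈ range (Nat.count (fun n => n.Coprime N) x) |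
    ((Nat.nth (fun n => n.Coprime N) k : ℕ) : ZMod q) = A ∧
      ((Nat.nth (fun n => n.Coprime N) (k + 1) : ℕ) : ZMod q) = B} : ℝ) /
    Nat.count (fun n => n.Coprime N) x

theorem gap_void {I : ℕ → ℝ} {h : ℕ} (h0 : 0 < h) (h1 : I h = 1) (h2 : ∀ t, 0 < t → t < h → I t = 0)
    (m : ℕ) : ∏ i ∈ range m, (1 - I (1 + i)) = if m < h then 1 else 0 := by
  split_ifs with hm
  · exact prod_eq_one fun i hi => by
      rw [h2 _ (by omega) (by have := mem_range.1 hi; omega), sub_zero]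
  · exact prod_eq_zero (i := h - 1) (mem_range.2 (by omega))
      (by rw [Nat.add_sub_cancel' h0, h1, sub_self])

theorem gap_ind {I : ℕ → ℝ} {h q g J : ℕ} (h0 : 0 < h) (h1 : I h = 1)
    (h2 : ∀ t, 0 < t → t < h → I t = 0) (hg : g < q) :
    |(if (h : ZMod q) = (g + 1 : ℕ) then 1 else 0) - ∑ j ∈ range J, I (g + q * j + 1) *
      ∏ i ∈ range (g + q * j), (1 - I (1 + i))| ≤ ∏ i ∈ range (q * J), (1 - I (1 + i)) := by
  have e : ∀ m, I (m + 1) * ∏ i ∈ range m, (1 - I (1 + i)) = if m + 1 = h then 1 else 0 := by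
    intro m
    rw [gap_void h0 h1 h2]
    split_ifs with a b b
    · rw [b, h1, one_mul]
    · rw [h2 _ m.succ_pos (by omega), zero_mul]
    · omega
    · exact mul_zero _
  simp only [e]
  rw [gap_void h0 h1 h2]
  have hJ : ∀ j ∈ range J, g + q * j + 1 ≤ q * J := fun j hj => by
    have := Nat.mul_le_mul_left q (mem_range.1 hj)
    rw [Nat.mul_succ] at this
    omega
  by_cases a : q * J < h
  · rw [if_pos a, sum_eq_zero fun j hj => if_neg (by have := hJ j hj; omega)]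
    split_ifs <;> norm_num
  · rw [if_neg a, abs_nonpos_iff, sub_eq_zero]
    obtain ⟨h, rfl⟩ := Nat.exists_eq_add_one.2 h0
    split_ifs with b
    · rw [Nat.cast_succ, Nat.cast_succ, add_left_inj, ZMod.natCast_eq_natCast_iff',
        Nat.mod_eq_of_lt hg] at b
      have e2 := Nat.mod_add_div h q
      rw [sum_eq_single_of_mem (h / q) (mem_range.2 (Nat.div_lt_of_lt_mul (by omega))), if_pos]
      · rw [← b, e2]
      · intro j _ hj
        refine if_neg fun e3 => hj ?_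
        rw [← Nat.add_right_cancel e3, Nat.add_mul_div_left _ _ (Nat.zero_lt_of_lt hg),
          Nat.div_eq_of_lt hg, zero_add]
    · exact (sum_eq_zero fun j _ => if_neg fun e3 => b (by rw [← e3]; simp)).symm

theorem card_nth {p : ℕ → Prop} [DecidablePred p] (hp : {n | p n}.Infinite) (x : ℕ)
    (Q : ℕ → ℕ → Prop) [∀ a b, Decidable (Q a b)] :
    (#{k ∈ range (Nat.count p x) | Q (Nat.nth p k) (Nat.nth p (k + 1))} : ℝ) =
      ∑ n ∈ range x, if p n ∧ Q n (Nat.nth p (Nat.count p n + 1)) then 1 else 0 := by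
  rw [sum_boole, Nat.cast_inj]
  refine card_nbij' (Nat.nth p) (Nat.count p) (fun k hk => ?_) (fun n hn => ?_)
    (fun k _ => Nat.count_nth_of_infinite hp k) fun n hn => Nat.nth_count (mem_filter.1 hn).2.1
  · obtain ⟨h1, h2⟩ := mem_filter.1 hk
    exact mem_filter.2 ⟨mem_range.2 (Nat.nth_lt_of_lt_count (mem_range.1 h1)),
      Nat.nth_mem_of_infinite hp k, by rwa [Nat.count_nth_of_infinite hp]⟩
  · obtain ⟨h1, h2, h3⟩ := mem_filter.1 hn
    exact mem_filter.2 ⟨mem_range.2 (Nat.count_strict_mono h2 (mem_range.1 h1)),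
      by rwa [Nat.nth_count h2]⟩

variable {ι : Type} [Fintype ι] [DecidableEq ι] {P : ι → ℕ} [hP : ∀ i, Fact (P i).Prime]

theorem cop_eq (i0 : ι) (n t : ℕ) : aa (P i0) n t * xs P (univ.erase i0) t (res P n) =
    if (n + t).Coprime (∏ i, P i) then 1 else 0 := by
  refine (mul_prod_erase univ (fun i => 1 - hit (P i) t (res P n i)) (mem_univ i0)).trans ?_
  have e : ∀ i, 1 - hit (P i) t (res P n i) = if (n + t).Coprime (P i) then 1 else 0 := fun i => by
    rw [hit, res, ← Nat.cast_add]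
    simp only [ZMod.natCast_eq_zero_iff, Nat.coprime_comm (n := n + t),
      (hP i).out.coprime_iff_not_dvd]
    split_ifs <;> norm_num
  simp only [e, prod_boole, Nat.coprime_prod_right_iff]
  split_ifs <;> rfl

/-- The event that the start survives in class `A`, the positions in `T0` survive and the next
`n` positions do not. -/
noncomputable def ev (i0 : ι) (A : ZMod (P i0)) (T0 : Finset ℕ) (n : ℕ) (ω : ∀ i, ZMod (P i)) : ℝ :=
  st i0 A ω * (∏ t ∈ T0, xs P (univ.erase i0) t ω) *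
    ∏ i ∈ range n, (1 - aa _ A (1 + i) * xs P (univ.erase i0) (1 + i) ω)

omit [DecidableEq ι] in
theorem cop_inf : {n : ℕ | n.Coprime (∏ i, P i)}.Infinite :=
  Set.infinite_of_injective_forall_mem (f := fun k : ℕ => 1 + (∏ i, P i) * k)
    (fun _ _ h => Nat.eq_of_mul_eq_mul_left (prod_pos fun i _ => (hP i).out.pos)
      (Nat.add_left_cancel h)) fun k => by simp

theorem ptw {i0 : ι} {A B : ZMod (P i0)} (hA : A ≠ 0) (hB : B ≠ 0) {g : ℕ} (hg : g < P i0)
    (hAB : B = A + (g + 1 : ℕ)) (J n : ℕ) :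
    |(if n.Coprime (∏ i, P i) ∧ (n : ZMod (P i0)) = A ∧ ((Nat.nth (fun n => n.Coprime (∏ i, P i))
        (Nat.count (fun n => n.Coprime (∏ i, P i)) n + 1) : ℕ) : ZMod (P i0)) = B then 1 else 0) -
      ∑ j ∈ range J, ev i0 A {0, g + P i0 * j + 1} (g + P i0 * j) (res P n)| ≤
      ev i0 A {0} (P i0 * J) (res P n) := by
  by_cases h : (n : ZMod (P i0)) = A
  swap
  · simp [ev, st, res, h]
  subst h
  have e0 := cop_eq (P := P) i0 n 0
  rw [aa_zero hA, one_mul, add_zero] at e0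
  have e1 : ∀ j, xs P (univ.erase i0) (g + P i0 * j + 1) (res P n) =
      if (n + (g + P i0 * j + 1)).Coprime (∏ i, P i) then 1 else 0 := fun j => by
    rw [← cop_eq i0, add_right_comm g, aa_per, ← add_zero (g + 1), aa_add, ← hAB, aa_zero hB,
      one_mul]
  simp only [ev, st, res, if_true, prod_pair (Nat.succ_ne_zero _).symm, prod_singleton, cop_eq,
    one_mul, e0, e1, true_and]
  by_cases hn : n.Coprime (∏ i, P i)
  swap
  · simp [hn]
  have hp := cop_inf (P := P)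
  have h1 := (Nat.nth_lt_nth hp).2 (Nat.lt_succ_self (Nat.count (fun n => n.Coprime (∏ i, P i)) n))
  have h2 := fun a h ha => Nat.le_nth_of_lt_nth_succ (p := fun n => n.Coprime (∏ i, P i)) (a := a)
    (k := Nat.count (fun n => n.Coprime (∏ i, P i)) n) h ha
  have h3 := Nat.nth_mem_of_infinite hp (Nat.count (fun n => n.Coprime (∏ i, P i)) n + 1)
  rw [Nat.nth_count (p := fun n => n.Coprime (∏ i, P i)) hn] at h1 h2
  obtain ⟨h, e⟩ := Nat.exists_eq_add_of_le h1.le
  rw [Nat.succ_eq_add_one] at e h1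
  rw [e] at h1 h2 h3 ⊢
  have := gap_ind (I := fun t => if (n + t).Coprime (∏ i, P i) then 1 else 0) (h := h) (J := J)
    (by omega) (if_pos h3) (fun t t0 t1 => if_neg fun ht => by
      have := h2 (n + t) (by omega) ht; omega) hg
  simpa only [eq_true hn, if_true, one_mul, true_and, hAB, Nat.cast_add n h, add_right_inj] using this

theorem E_st (i0 : ι) (A : ZMod (P i0)) {f : (∀ i, ZMod (P i)) → ℝ}
    (hf : ∀ ω r, f (update ω i0 r) = f ω) : 𝔼 ω, st i0 A ω * f ω = 1 / (P i0 : ℝ) * 𝔼 ω, f ω := by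
  rw [← E_av i0, mul_expect]
  refine expect_congr rfl fun ω _ => ?_
  simp only [hf, st, update_self, ← expect_mul]
  rw [Fintype.expect_eq_sum_div_card]
  simp

theorem E_xs (S : Finset ι) (t : ℕ) : 𝔼 ω, xs P S t ω = ∏ i ∈ S, (1 - 1 / (P i : ℝ)) := by
  simp only [xs_eq, ← mul_expect, expect_add_distrib, E_one_add, expect_const univ_nonempty,
    add_zero, mul_one]

omit [Fintype ι] [DecidableEq ι] hP in
theorem tail_sq (hinj : Injective P) {T : Finset ι} {y : ℕ} (y0 : 0 < y) (hT : ∀ i ∈ T, y < P i) :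
    ∑ i ∈ T, 1 / (P i : ℝ) ^ 2 ≤ 1 / (y : ℝ) := by
  have h := sum_Ioc_inv_sq_le_sub (α := ℝ) y0.ne' (Nat.le_add_right y (T.sup P))
  have h0 : (0 : ℝ) ≤ ((y + T.sup P : ℕ) : ℝ)⁻¹ := by positivity
  simp only [one_div]
  rw [← sum_image (f := fun p : ℕ => ((p : ℝ) ^ 2)⁻¹) hinj.injOn]
  refine (sum_le_sum_of_subset_of_nonneg (fun p hp => ?_) fun _ _ _ => by positivity).trans
    (h.trans (by linarith))
  obtain ⟨i, hi, rfl⟩ := mem_image.1 hp
  exact mem_Ioc.2 ⟨hT i hi, (le_sup hi).trans (Nat.le_add_left _ _)⟩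

namespace Par

variable {i0 : ι} {S : Finset ι} {β α u w : ℝ} {R k J y : ℕ} (H : Par P i0 S β α u w R k J y)
  {T : Finset ι} (hST : S ∪ T = univ.erase i0) (hd : Disjoint S T) (hT : ∀ i ∈ T, y < P i)
  (hβ : β = ∏ i ∈ T, (1 - 1 / (P i : ℝ)))
include H hST hd hT hβ

theorem E_pat (A : ZMod (P i0)) (n : ℕ) {m : ℕ} (hm : m ≤ P i0 * J + 1) :
    |𝔼 ω, st i0 A ω * pat P (uu n) (ww (aa _ A) n) m (univ.erase i0) 1 ω -
      1 / (P i0 : ℝ) * 𝔼 ω, ∏ t ∈ range m, (uu n t + ww (aa _ A) n t * (α * (1 + yy P S t ω)))| ≤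
      ((P i0 * J + 1 : ℕ) : ℝ) ^ 2 * (1 / y) := by
  have q2 := two_le_cast (P i0)
  have y0 : 0 < y := (Nat.mul_pos (hP i0).out.pos H.J0).trans_le H.hy
  have h := thin P (uw_le (aa01 _ A) n) (ww_le (aa01 _ A) n) (n := m) S T hd
    (fun i hi => by have := hT i hi; have := H.hy; omega) 1 zero_le_one le_rfl
  rw [hST, one_mul, ← hβ] at h
  have e : ∀ ω, pat P (uu n) (ww (aa _ A) n) m S β ω =
      ∏ t ∈ range m, (uu n t + ww (aa _ A) n t * (α * (1 + yy P S t ω))) := fun ω => by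
    simp only [pat, xs_eq, H.hα, mul_assoc]
  rw [E_st i0 A fun ω r => by simp only [pat, xs_update P (notMem_erase i0 univ)], ← mul_sub]
  simp only [e] at h
  refine abs_mul_le (by
    rw [abs_of_nonneg (by positivity)]; exact div_le_one_of_le₀ (by linarith) (by linarith))
    (h.trans (mul_le_mul (by gcongr) (tail_sq H.inj y0 hT)
      (sum_nonneg fun _ _ => by positivity) (by positivity)))

theorem count_approx (hy : w ^ 24 ≤ y) {x K : ℕ} (hx : 0 < x) {η : ℝ}
    (hη : ∀ (A : ZMod (P i0)) (T : Finset ℕ), #T ≤ K + 2 →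
      |dl P x fun ω => st i0 A ω * ∏ t ∈ T, xs P (univ.erase i0) t ω| ≤ η)
    (hη2 : (K + 1) * (((P i0 * J : ℕ) + 1) ^ K * η) + 2 * rexp (3 * ((P i0 * J : ℕ) *
      ∏ i ∈ univ.erase i0 with P i0 * J < P i, (1 - 1 / (P i : ℝ))) - K) ≤ 1 / w ^ 20)
    {A B : ZMod (P i0)} (hA : A ≠ 0) (hB : B ≠ 0) {g : ℕ} (hg : g < P i0)
    (hAB : B = A + (g + 1 : ℕ)) :
    |(P i0 - 1) ^ 2 * share (∏ i, P i) x (P i0) A B - mm P i0 S α J A g| ≤
      100 * (u ^ 16 / w ^ 5) := by
  obtain ⟨h1, -, h3, h4, h5, h6, -⟩ := H.basic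
  have q2 := two_le_cast (P i0)
  have w0 : 0 < w := by linarith
  have α0 : 0 < α := lt_of_lt_of_le (by positivity) h5
  have x0 : (0 : ℝ) < x := by exact_mod_cast hx
  have hJ : ∀ j < J, g + P i0 * j + 1 ≤ P i0 * J := fun j hj => by
    have := Nat.mul_le_mul_left (P i0) hj
    rw [Nat.mul_succ] at this
    omega
  have η0 : 0 ≤ η := (abs_nonneg _).trans (hη A ∅ (Nat.zero_le _))
  have η1 : η ≤ 1 / w ^ 20 := by
    refine le_trans ?_ ((le_add_of_nonneg_right (by positivity)).trans hη2)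
    exact (le_mul_of_one_le_left η0 (one_le_pow₀ (le_add_of_nonneg_left (by positivity)))).trans
      (le_mul_of_one_le_left (by positivity) (le_add_of_nonneg_left (by positivity)))
  have d1 := abs_sum_le (n := J) fun j hj => (outer i0 A _ (aa01 _ A) (n := g + P i0 * j)
    ((Nat.le_succ _).trans (hJ j hj)) (T0 := {0, g + P i0 * j + 1}) (by simp) card_le_two x
    (hη A)).trans hη2
  have d2 := (outer i0 A _ (aa01 _ A) (le_refl (P i0 * J)) (T0 := {0}) (by simp) (by simp) x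
    (hη A)).trans hη2
  have d3 := abs_sum_le (n := J) fun j hj => H.E_pat hST hd hT hβ A (g + P i0 * j)
    (m := g + P i0 * j + 2) (Nat.succ_le_succ (hJ j hj))
  have d4 := H.E_pat hST hd hT hβ A (P i0 * J) le_rfl
  have d5 := (abs_expect_le (range x) _).trans (expect_le_expect fun n _ => ptw hA hB hg hAB J n)
  have d6 := H.void_bd A
  rw [expect_sub_distrib, expect_sum_comm, expect_eq_sum_div_card, card_range,
    ← card_nth cop_inf x fun a b => (a : ZMod (P i0)) = A ∧ (b : ZMod (P i0)) = B] at d5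
  have e1 : ∀ n ω, α * (1 + yy P S 0 ω) * (α * (1 + yy P S (n + 1) ω)) *
      ∏ i ∈ range n, (1 - aa _ A (1 + i) * (α * (1 + yy P S (1 + i) ω))) =
      α ^ 2 * ((1 + yy P S 0 ω) * (1 + yy P S (n + 1) ω) * void (yy P S) (aa _ A) α n ω) :=
    fun n ω => by rw [void]; ring
  have e2 : ∀ n ω, α * (1 + yy P S 0 ω) *
      ∏ i ∈ range n, (1 - aa _ A (1 + i) * (α * (1 + yy P S (1 + i) ω))) =
      α * ((1 + yy P S 0 ω) * void (yy P S) (aa _ A) α n ω) := fun n ω => by rw [void]; ring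
  simp only [pat, prod_gap, one_mul, e1, ← mul_expect, sum_sub_distrib, ← mul_sum] at d3
  simp only [pat, prod_void, one_mul, e2, ← mul_expect] at d4
  simp only [← mul_assoc] at d3 d4
  simp only [ev, dl, prod_pair (Nat.succ_ne_zero _).symm, prod_singleton, sum_sub_distrib,
    ← mul_assoc, Nat.succ_eq_add_one] at d1 d2 d5
  have e3 : (Nat.count (fun n => n.Coprime (∏ i, P i)) x : ℝ) / x = ∑ A ∈ univ.erase 0,
      𝔼 n ∈ range x, st i0 A (res P n) * xs P (univ.erase i0) 0 (res P n) := by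
    rw [← expect_sum_comm, expect_eq_sum_div_card, card_range, Nat.count_eq_card_filter_range,
      ← sum_boole]
    refine congrArg (· / (x : ℝ)) (sum_congr rfl fun n _ => ?_)
    rw [← sum_mul, ← add_zero n, ← cop_eq i0, add_zero]
    congr 1
    refine Eq.trans ?_ (sum_ite_eq (univ.erase 0) (n : ZMod (P i0)) fun _ => (1 : ℝ)).symm
    by_cases h : (n : ZMod (P i0)) = 0 <;> simp [aa, hit, h]
  have e4 : ∏ i ∈ univ.erase i0, (1 - 1 / (P i : ℝ)) = α := by
    rw [← hST, prod_union hd, H.hα, hβ, mul_comm]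
  have hL := H.hL
  have d7 : |(Nat.count (fun n => n.Coprime (∏ i, P i)) x : ℝ) / x - 1 / w ^ 4| ≤
      u * (1 / w ^ 20) := by
    have a1 := (abs_sum_le_sum_abs _ _).trans (sum_le_card_nsmul (univ.erase 0) _ _
      fun A _ => (hη A {0} (by simp)).trans η1)
    simp only [dl, prod_singleton, E_st i0 _ fun ω r => xs_update P (notMem_erase i0 univ) 0 ω r,
      E_xs, e4, sum_sub_distrib, ← e3, sum_const, card_erase_of_mem (mem_univ _), card_univ,
      ZMod.card, nsmul_eq_mul, Nat.cast_pred (hP i0).out.pos] at a1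
    rw [show 1 / w ^ 4 = (P i0 - 1) * (1 / (P i0 : ℝ) * α) by field_simp; linarith]
    exact a1.trans (by gcongr; linarith)
  have c0 : (0 : ℝ) < Nat.count (fun n => n.Coprime (∏ i, P i)) x := by
    have a1 : u * (1 / w ^ 20) < 1 / w ^ 4 := by
      rw [mul_one_div, div_lt_div_iff₀ (by positivity) (by positivity), one_mul,
        show w ^ 20 = w ^ 16 * w ^ 4 by ring]
      refine mul_lt_mul_of_pos_right (lt_of_lt_of_le ?_ (le_self_pow₀ h4 (by norm_num)))
        (by positivity)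
      linarith [H.hw, le_self_pow₀ h3 (show 3 ≠ 0 by norm_num)]
    exact (div_pos_iff_of_pos_right x0).1 (by linarith [(abs_le.1 d7).1])
  have s1 : share (∏ i, P i) x (P i0) A B ≤ 1 := div_le_one_of_le₀ (by
    exact_mod_cast (card_filter_le _ _).trans_eq (card_range _)) c0.le
  have s0 : 0 ≤ share (∏ i, P i) x (P i0) A B := by unfold share; positivity
  rw [← div_mul_cancel₀ (Nat.cast (card _)) c0.ne', ← share, mul_div_assoc] at d5
  have hR : ((P i0 * J : ℕ) : ℝ) ≤ (u * w) ^ 4 := (show _ ≤ (R : ℝ) ^ 4 by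
    exact_mod_cast le_trans (Nat.mul_le_mul_left _ (Nat.le_add_right _ _)) H.hJ).trans
      (pow_le_pow_left₀ (Nat.cast_nonneg R) H.hR 4)
  have hJ' : (J : ℝ) ≤ (u * w) ^ 4 :=
    le_trans (by exact_mod_cast Nat.le_mul_of_pos_left _ (hP i0).out.pos) hR
  have uw : 1 ≤ (u * w) ^ 4 := one_le_pow₀ (one_le_mul_of_one_le_of_one_le h3 h4)
  have t1 : ((P i0 * J + 1 : ℕ) : ℝ) ^ 2 * (1 / y) ≤ 4 * (u ^ 8 / w ^ 16) :=
    calc _ ≤ (2 * (u * w) ^ 4) ^ 2 * (1 / w ^ 24) := by
          gcongr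
          rw [Nat.cast_succ]
          linarith
      _ = _ := by field_simp; ring
  have t2 : (J : ℝ) * (1 / w ^ 20) ≤ 1 * (u ^ 12 / w ^ 12) :=
    calc _ ≤ (u * w) ^ 4 * (1 / w ^ 20) := by gcongr
      _ = 1 * (u ^ 4 / w ^ 16) := by field_simp
      _ ≤ _ := mono h3 h4 zero_le_one (by norm_num) (by norm_num)
  have t3 : (J : ℝ) * (((P i0 * J + 1 : ℕ) : ℝ) ^ 2 * (1 / y)) ≤ 4 * (u ^ 12 / w ^ 12) :=
    calc _ ≤ (u * w) ^ 4 * (4 * (u ^ 8 / w ^ 16)) := by gcongr
      _ = _ := by field_simp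
  have t4 := t1.trans (mono (n := 12) (e := 12) h3 h4 (by norm_num) (by norm_num) (by norm_num))
  have t5 : 1 / w ^ 20 ≤ 1 * (u ^ 12 / w ^ 12) :=
    le_of_eq_of_le (by simp) (mono (a := 0) (d := 20) h3 h4 zero_le_one (by norm_num) (by norm_num))
  have t6 : u * (1 / w ^ 20) ≤ 1 * (u ^ 12 / w ^ 12) := le_of_eq_of_le (by ring)
    (mono (a := 1) (d := 20) h3 h4 zero_le_one (by norm_num) (by norm_num))
  have t7 : 1 / (P i0 : ℝ) * α * 𝔼 ω, (1 + yy P S 0 ω) * void (yy P S) (aa _ A) α (P i0 * J) ω ≤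
      68 * (u ^ 12 / w ^ 12) :=
    calc _ ≤ 1 / (P i0 : ℝ) * α * (34 * (u ^ 5 / w ^ 8)) := by gcongr
      _ ≤ 1 / 1 * (2 / w ^ 4) * (34 * (u ^ 5 / w ^ 8)) := by gcongr; linarith
      _ = 68 * (u ^ 5 / w ^ 12) := by field_simp; ring
      _ ≤ _ := mono h3 h4 (by norm_num) (by norm_num) le_rfl
  have t8 : |share (∏ i, P i) x (P i0) A B * ((Nat.count (fun n => n.Coprime (∏ i, P i)) x : ℝ) /
      x - 1 / w ^ 4)| ≤ 1 * (u ^ 12 / w ^ 12) :=
    abs_mul_le (abs_le.2 ⟨by linarith, s1⟩) (d7.trans t6)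
  unfold mm
  simp only [add_right_comm g 1]
  rw [← mul_assoc] at t3
  generalize ∑ j ∈ range J, 𝔼 ω, (1 + yy P S 0 ω) * (1 + yy P S (g + P i0 * j + 1) ω) *
    void (yy P S) (aa _ A) α (g + P i0 * j) ω = Z at *
  generalize share (∏ i, P i) x (P i0) A B = f at *
  have t9 : |f * (1 / w ^ 4) - 1 / (P i0 : ℝ) * α ^ 2 * Z| ≤ 79 * (u ^ 12 / w ^ 12) := by
    rw [abs_le] at d1 d2 d3 d4 d5 t8 ⊢
    constructor <;> linarith [d1.1, d1.2, d2.1, d2.2, d3.1, d3.2, d4.1, d4.2, d5.1, d5.2, t8.1, t8.2]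
  have e5 : (P i0 - 1) ^ 2 * f - (P i0 - 1) * α * Z =
      (P i0 - 1) ^ 2 * w ^ 4 * (f * (1 / w ^ 4) - 1 / (P i0 : ℝ) * α ^ 2 * Z) := by
    field_simp
    linear_combination ((P i0 - 1) * α * Z) * hL
  rw [e5, abs_mul, abs_of_nonneg (by positivity)]
  calc _ ≤ u ^ 2 * w ^ 4 * (79 * (u ^ 12 / w ^ 12)) := by gcongr <;> linarith
    _ = 79 * (u ^ 14 / w ^ 8) := by field_simp
    _ ≤ 79 * (u ^ 16 / w ^ 5) := mono h3 h4 (by norm_num) (by norm_num) (by norm_num)
    _ ≤ _ := by gcongr; norm_num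

end Par

end Pool.Agent.Lib.MP_a3b3a7_nt.M
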