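import Pool.Agent.Lib.MP_a3b3a7_nt.M.Prob

/-!
Error terms with fixed end points, for an abstract stationary system with a fourth moment bound.
-/

set_option autoImplicit false
set_option linter.unusedSectionVars false

open Finset Function
open scoped BigOperators

namespace Pool.Agent.Lib.MP_a3b3a7_nt.M

variable {Ω : Type} [Fintype Ω] [Nonempty Ω]

/-- Sum along an arithmetic progression. -/
def VV (y : ℕ → Ω → ℝ) (q c m : ℕ) (ω : Ω) : ℝ := ∑ j ∈ range m, y (c + q * j) ω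

/-- Weighted sum over an interval. -/
def WW (y : ℕ → Ω → ℝ) (a : ℕ → ℝ) (s n : ℕ) (ω : Ω) : ℝ :=
  ∑ i ∈ range n, a (s + i) * y (s + i) ω

/-- Second elementary symmetric function over an interval. -/
def e2 (y : ℕ → Ω → ℝ) (a : ℕ → ℝ) (s n : ℕ) (ω : Ω) : ℝ :=
  ∑ i ∈ range n, a (s + i) * y (s + i) ω * WW y a s i ω

/-- The bilinear sum with the right end point in a progression. -/
def BB (y : ℕ → Ω → ℝ) (a : ℕ → ℝ) (q g m : ℕ) (ω : Ω) : ℝ :=
  ∑ j ∈ range m, y (g + 1 + q * j) ω * WW y a 1 (g + q * j) ω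

/-- The standing assumptions. -/
structure Sys (y : ℕ → Ω → ℝ) (a : ℕ → ℝ) (sh : ℕ → Ω → Ω) (q : ℕ) (Θ : ℝ) : Prop where
  bij : ∀ s, Bijective (sh s)
  y_sh : ∀ t s ω, y t (sh s ω) = y (t + s) ω
  per : ∀ t s, a (t + q * s) = a t
  a_le : ∀ t, |a t| ≤ 1
  one_le : 1 ≤ Θ
  q_le : (q : ℝ) ≤ Θ
  bdd : ∀ t ω, |y t ω| ≤ Θ
  hV : ∀ c m, n4 (VV y q c m) ≤ Θ * m
  hW : ∀ s n, n4 (WW y a s n) ≤ Θ * n

variable {y : ℕ → Ω → ℝ} {a : ℕ → ℝ} {sh : ℕ → Ω → Ω} {q : ℕ} {Θ : ℝ}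

theorem WW_add (s n m : ℕ) (ω : Ω) : WW y a s (n + m) ω = WW y a s n ω + WW y a (s + n) m ω := by
  simp only [WW, sum_range_add, add_assoc]

theorem e2_add (s n m : ℕ) (ω : Ω) : e2 y a s (n + m) ω =
    e2 y a s n ω + WW y a s n ω * WW y a (s + n) m ω + e2 y a (s + n) m ω := by
  rw [e2, sum_range_add, add_assoc]
  refine congrArg _ ?_
  rw [e2, WW.eq_def y a (s + n) m, mul_sum, ← sum_add_distrib]
  refine sum_congr rfl fun i _ => ?_
  rw [WW_add, add_assoc]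
  ring

theorem WW_sq (s n : ℕ) (ω : Ω) : WW y a s n ω ^ 2 =
    2 * e2 y a s n ω + ∑ i ∈ range n, (a (s + i) * y (s + i) ω) ^ 2 := by
  induction n with
  | zero => simp [WW, e2]
  | succ n ih =>
    rw [e2, sum_range_succ, sum_range_succ, ← e2, WW, sum_range_succ, ← WW, add_sq, ih]
    ring

theorem hW_of_hV (hq : 0 < q) (per : ∀ t s, a (t + q * s) = a t) (a_le : ∀ t, |a t| ≤ 1)
    (h1 : 1 ≤ Θ) (bdd : ∀ t ω, |y t ω| ≤ Θ) (hV : ∀ c m, n4 (VV y q c m) ≤ Θ * m) (s n : ℕ) :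
    n4 (WW y a s n) ≤ 4 * q ^ 2 * Θ ^ 2 * n := by
  have e : ∀ k ω, WW y a s (q * k) ω = ∑ c ∈ range q, a (s + c) * VV y q (s + c) k ω := by
    intro k ω
    induction k with
    | zero => simp [WW, VV]
    | succ k ih =>
      rw [mul_add_one, WW_add, ih, WW, ← sum_add_distrib]
      refine sum_congr rfl fun c _ => ?_
      rw [VV, VV, sum_range_succ, add_right_comm, per, mul_add]
  have hq' : (1 : ℝ) ≤ q := by exact_mod_cast hq
  have b1 : n4 (WW y a s (q * (n / q))) ≤ q * (q * (Θ * n)) := by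
    refine (n2_mono (g := fun ω => q * ∑ c ∈ range q, VV y q (s + c) (n / q) ω ^ 2)
      fun ω => ?_).trans ?_
    · rw [abs_of_nonneg (sq_nonneg _), e]
      refine le_trans ?_ (le_abs_self _)
      refine (sum_mul_sq_le_sq_mul_sq _ _ _).trans (mul_le_mul_of_nonneg_right ?_
        (sum_nonneg fun _ _ => sq_nonneg _))
      refine (sum_le_card_nsmul _ _ 1 fun c _ => ?_).trans (by simp)
      exact (sq_le_one_iff_abs_le_one _).2 (a_le _)
    · rw [n2_const_mul, abs_of_nonneg (by positivity)]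
      refine mul_le_mul_of_nonneg_left ((n2_sum _ _).trans ((sum_le_card_nsmul _ _ (Θ * n)
        fun c _ => (hV _ _).trans ?_).trans (by simp))) (by positivity)
      exact mul_le_mul_of_nonneg_left (Nat.cast_le.2 (Nat.div_le_self _ _)) (by linarith)
  have b2 : n4 (WW y a (s + q * (n / q)) (n % q)) ≤ q * n * Θ ^ 2 := by
    refine n2_le_of_bdd fun ω => ?_
    have : |WW y a (s + q * (n / q)) (n % q) ω| ≤ (n % q : ℕ) * Θ := by
      refine (abs_sum_le_sum_abs _ _).trans ((sum_le_card_nsmul _ _ Θ fun i _ => ?_).trans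
        (by simp))
      rw [abs_mul]
      exact (mul_le_of_le_one_left (abs_nonneg _) (a_le _)).trans (bdd _ _)
    rw [abs_pow]
    refine (pow_le_pow_left₀ (abs_nonneg _) this 2).trans ?_
    rw [mul_pow, sq ((n % q : ℕ) : ℝ)]
    exact mul_le_mul_of_nonneg_right (mul_le_mul (Nat.cast_le.2 (Nat.mod_lt _ hq).le)
      (Nat.cast_le.2 (Nat.mod_le _ _)) (by positivity) (by positivity)) (sq_nonneg _)
  refine (n2_mono (g := fun ω => 2 * WW y a s (q * (n / q)) ω ^ 2 +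
    2 * WW y a (s + q * (n / q)) (n % q) ω ^ 2) fun ω => ?_).trans ((n2_add _ _).trans ?_)
  · conv_lhs => rw [← Nat.div_add_mod n q, WW_add]
    rw [abs_of_nonneg (sq_nonneg _), abs_of_nonneg (by positivity)]
    nlinarith [sq_nonneg (WW y a s (q * (n / q)) ω - WW y a (s + q * (n / q)) (n % q) ω)]
  · rw [n2_const_mul, n2_const_mul, abs_two]
    have c1 : (q : ℝ) * (q * (Θ * n)) ≤ q ^ 2 * Θ ^ 2 * n := by
      have : Θ ≤ Θ ^ 2 := by nlinarith
      calc _ = q ^ 2 * Θ * n := by ring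
        _ ≤ _ := by gcongr
    have c2 : (q : ℝ) * n * Θ ^ 2 ≤ q ^ 2 * Θ ^ 2 * n := by
      have : (q : ℝ) ≤ q ^ 2 := by nlinarith
      calc _ = q * Θ ^ 2 * n := by ring
        _ ≤ _ := by gcongr
    have d1 : n2 (fun ω => WW y a s (q * (n / q)) ω ^ 2) ≤ _ := b1
    have d2 : n2 (fun ω => WW y a (s + q * (n / q)) (n % q) ω ^ 2) ≤ _ := b2
    linarith

namespace Sys

variable (H : Sys y a sh q Θ)
include H

theorem E_sh (s : ℕ) (f : Ω → ℝ) : 𝔼 ω, f (sh s ω) = 𝔼 ω, f ω :=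
  Fintype.expect_bijective _ (H.bij s) _ _ fun _ => rfl

theorem n2_sh (s : ℕ) (f : Ω → ℝ) : n2 (fun ω => f (sh s ω)) = n2 f :=
  congrArg Real.sqrt (H.E_sh s fun ω => f ω ^ 2)

theorem pos : 0 < Θ := one_pos.trans_le H.one_le

theorem WW_sh (s n k : ℕ) (ω : Ω) : WW y a s n (sh (q * k) ω) = WW y a (s + q * k) n ω :=
  sum_congr rfl fun i _ => by rw [H.y_sh, add_right_comm s (q * k), H.per]

theorem e2_sh (s n k : ℕ) (ω : Ω) : e2 y a s n (sh (q * k) ω) = e2 y a (s + q * k) n ω :=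
  sum_congr rfl fun i _ => by rw [H.y_sh, H.WW_sh, add_right_comm s (q * k), H.per]

theorem n2_e2 (s n : ℕ) : n2 (e2 y a s n) ≤ Θ ^ 2 * n := by
  have h1 := H.one_le
  have e : e2 y a s n = fun ω => 1 / 2 * (WW y a s n ω ^ 2 -
      ∑ i ∈ range n, (a (s + i) * y (s + i) ω) ^ 2) := funext fun ω => by
    rw [WW_sq]
    ring
  have b : n2 (fun ω => ∑ i ∈ range n, (a (s + i) * y (s + i) ω) ^ 2) ≤ n * Θ ^ 2 := by
    refine n2_le_of_bdd fun ω => (abs_sum_le_sum_abs _ _).trans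
      ((sum_le_card_nsmul _ _ (Θ ^ 2) fun i _ => ?_).trans (by simp))
    rw [abs_pow, abs_mul]
    exact pow_le_pow_left₀ (by positivity)
      ((mul_le_of_le_one_left (abs_nonneg _) (H.a_le _)).trans (H.bdd _ _)) 2
  rw [e, n2_const_mul, abs_of_nonneg (by norm_num)]
  have d : n2 (fun ω => WW y a s n ω ^ 2) ≤ _ := H.hW s n
  have c : Θ * n ≤ Θ ^ 2 * n := mul_le_mul_of_nonneg_right (by nlinarith) n.cast_nonneg
  linarith [n2_sub (fun ω => WW y a s n ω ^ 2)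
    fun ω => ∑ i ∈ range n, (a (s + i) * y (s + i) ω) ^ 2]

theorem n2_V (c R : ℕ) : n2 (VV y q c (R ^ 2)) ≤ Θ * R := by
  have h1 := H.one_le
  refine n2_le_of_n4 (by positivity) ((H.hV _ _).trans ?_)
  push_cast
  rw [mul_pow]
  exact mul_le_mul_of_nonneg_right (by nlinarith) (sq_nonneg _)

theorem transl {R : ℕ} (hR : 0 < R) (G : Ω → ℝ) {D : ℝ}
    (hD : ∀ s < R ^ 2, n2 (fun ω => G (sh (q * s) ω) - G ω) ≤ D) :
    |𝔼 ω, y 0 ω * G ω| ≤ Θ * (n2 G / R + D) := by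
  have hR' : (0 : ℝ) < R := by exact_mod_cast hR
  have e : (R : ℝ) ^ 2 * 𝔼 ω, y 0 ω * G ω = 𝔼 ω, VV y q 0 (R ^ 2) ω * G ω +
      ∑ s ∈ range (R ^ 2), 𝔼 ω, y (0 + q * s) ω * (G (sh (q * s) ω) - G ω) := by
    simp only [VV, sum_mul, expect_sum_comm]
    rw [← sum_add_distrib, sum_congr rfl (g := fun _ => 𝔼 ω, y 0 ω * G ω) fun s _ => ?_]
    · simp
    · rw [← expect_add_distrib, ← H.E_sh (q * s) fun ω => y 0 ω * G ω]
      refine expect_congr rfl fun ω _ => ?_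
      rw [H.y_sh]
      ring
  have b1 := (abs_E_mul (VV y q 0 (R ^ 2)) G).trans
    (mul_le_mul_of_nonneg_right (H.n2_V 0 R) (n2_nonneg _))
  have b2 : |∑ s ∈ range (R ^ 2), 𝔼 ω, y (0 + q * s) ω * (G (sh (q * s) ω) - G ω)| ≤
      (R : ℝ) ^ 2 * (Θ * D) := by
    refine (abs_sum_le_sum_abs _ _).trans ((sum_le_card_nsmul _ _ (Θ * D) fun s hs => ?_).trans
      (by simp))
    exact (abs_E_le _).trans ((n2_bdd_mul (H.bdd _) H.pos.le _).trans
      (mul_le_mul_of_nonneg_left (hD s (mem_range.1 hs)) H.pos.le))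
  refine le_of_mul_le_mul_left ?_ (pow_pos hR' 2)
  rw [← abs_of_pos (pow_pos hR' 2), ← abs_mul, e, abs_of_pos (pow_pos hR' 2)]
  refine (abs_add_le _ _).trans ((add_le_add b1 b2).trans (le_of_eq ?_))
  field_simp

theorem n2_long_short {f g : Ω → ℝ} {R n m : ℕ} (hf : n4 f ≤ Θ * n) (hg : n4 g ≤ Θ * m)
    (hn : n ≤ R ^ 4) (hm : (m : ℝ) ≤ Θ * R ^ 2) : n2 (fun ω => f ω * g ω) ≤ Θ ^ 2 * R ^ 3 := by
  have h1 := H.one_le
  have hn' : (n : ℝ) ≤ R ^ 4 := by exact_mod_cast hn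
  refine n2_mul (by positivity) ?_
  calc _ ≤ (Θ * R ^ 4) * (Θ * (Θ * R ^ 2)) :=
        mul_le_mul (hf.trans (by gcongr)) (hg.trans (by gcongr)) (n4_nonneg _) (by positivity)
    _ = 1 * (Θ ^ 3 * R ^ 6) := by ring
    _ ≤ Θ * (Θ ^ 3 * R ^ 6) := by gcongr
    _ = _ := by ring

theorem qs_le {R s : ℕ} (hs : s < R ^ 2) : ((q * s : ℕ) : ℝ) ≤ Θ * R ^ 2 := by
  push_cast
  exact mul_le_mul H.q_le (by exact_mod_cast hs.le) s.cast_nonneg H.pos.le

theorem n2_e2_short {R s : ℕ} (hR : 0 < R) (hs : s < R ^ 2) (c : ℕ) :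
    n2 (e2 y a c (q * s)) ≤ Θ ^ 3 * R ^ 3 := by
  have h1 := H.one_le
  have hR' : (1 : ℝ) ≤ R := by exact_mod_cast hR
  calc _ ≤ Θ ^ 2 * (Θ * R ^ 2) := (H.n2_e2 _ _).trans (by gcongr; exact H.qs_le hs)
    _ = Θ ^ 3 * R ^ 2 := by ring
    _ ≤ _ := mul_le_mul_of_nonneg_left (pow_le_pow_right₀ hR' (by norm_num)) (by positivity)

theorem sq_le_cube (R : ℕ) : Θ ^ 2 * (R : ℝ) ^ 3 ≤ Θ ^ 3 * R ^ 3 :=
  mul_le_mul_of_nonneg_right (pow_le_pow_right₀ H.one_le (by norm_num)) (by positivity)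

theorem err2 {R n : ℕ} (hR : 0 < R) (hn : n ≤ R ^ 4) :
    |𝔼 ω, y 0 ω * e2 y a 1 n ω| ≤ 5 * Θ ^ 4 * R ^ 3 := by
  have h1 := H.one_le
  have hR' : (0 : ℝ) < R := by exact_mod_cast hR
  refine (H.transl hR _ (D := 4 * (Θ ^ 3 * R ^ 3)) fun s hs => ?_).trans ?_
  · have e : (fun ω => e2 y a 1 n (sh (q * s) ω) - e2 y a 1 n ω) = fun ω =>
        (WW y a 1 n ω * WW y a (1 + n) (q * s) ω + e2 y a (1 + n) (q * s) ω) -
        (WW y a (1 + q * s) n ω * WW y a 1 (q * s) ω + e2 y a 1 (q * s) ω) := funext fun ω => by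
      have e1 := e2_add (y := y) (a := a) 1 n (q * s) ω
      rw [add_comm n, e2_add] at e1
      rw [H.e2_sh]
      linarith
    rw [e]
    refine (n2_sub _ _).trans ((add_le_add (n2_add _ _) (n2_add _ _)).trans ?_)
    linarith [H.n2_long_short (H.hW 1 n) (H.hW (1 + n) (q * s)) hn (H.qs_le hs),
      H.n2_long_short (H.hW (1 + q * s) n) (H.hW 1 (q * s)) hn (H.qs_le hs),
      H.n2_e2_short hR hs (1 + n), H.n2_e2_short hR hs 1, H.sq_le_cube R]
  · have hn' : (n : ℝ) ≤ R ^ 4 := by exact_mod_cast hn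
    have : n2 (e2 y a 1 n) / R ≤ Θ ^ 3 * R ^ 3 := by
      rw [div_le_iff₀ hR']
      calc _ ≤ Θ ^ 2 * R ^ 4 := (H.n2_e2 _ _).trans (by gcongr)
        _ = Θ ^ 2 * R ^ 3 * R := by ring
        _ ≤ _ := mul_le_mul_of_nonneg_right (H.sq_le_cube R) hR'.le
    calc _ ≤ Θ * (Θ ^ 3 * R ^ 3 + 4 * (Θ ^ 3 * R ^ 3)) := by gcongr
      _ = _ := by ring

theorem BB_add (g s m : ℕ) (ω : Ω) : BB y a q g (s + m) ω = BB y a q g s ω +
    BB y a q g m (sh (q * s) ω) + WW y a 1 (q * s) ω * VV y q (g + 1 + q * s) m ω := by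
  rw [BB, sum_range_add, add_assoc]
  refine congrArg _ ?_
  rw [BB, VV, mul_sum, ← sum_add_distrib]
  refine sum_congr rfl fun j _ => ?_
  rw [H.y_sh, H.WW_sh, show g + q * (s + j) = q * s + (g + q * j) by ring, WW_add,
    show g + 1 + q * (s + j) = g + 1 + q * s + q * j by ring, add_right_comm _ (q * j)]
  ring

theorem n2_BB {g : ℕ} (hg : g < q) (k : ℕ) : ∀ m ≤ 2 ^ k,
    n2 (BB y a q g m) ≤ Θ ^ 2 * m * (k + 1) := by
  have h1 := H.one_le
  induction k with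
  | zero =>
    intro m hm
    rcases Nat.le_one_iff_eq_zero_or_eq_one.1 hm with rfl | rfl
    · simp [n2, BB]
    · have e : BB y a q g 1 = fun ω => y (g + 1) ω * WW y a 1 g ω := funext fun ω => by simp [BB]
      have b : n2 (WW y a 1 g) ≤ Θ := n2_le_of_n4 H.pos.le ((H.hW _ _).trans (by
        rw [sq]
        exact mul_le_mul_of_nonneg_left ((Nat.cast_le.2 hg.le).trans H.q_le) H.pos.le))
      rw [e]
      refine (n2_bdd_mul (H.bdd _) H.pos.le _).trans ?_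
      simpa [sq] using mul_le_mul_of_nonneg_left b H.pos.le
  | succ k ih =>
    intro m hm
    obtain ⟨s, t, rfl, hs, ht⟩ : ∃ s t, m = s + t ∧ s ≤ 2 ^ k ∧ t ≤ 2 ^ k :=
      ⟨m / 2, m - m / 2, by omega, by omega, by omega⟩
    rw [show BB y a q g (s + t) = _ from funext (H.BB_add g s t)]
    refine (n2_add _ _).trans ((add_le_add_left (n2_add _ _) _).trans ?_)
    have b : n2 (fun ω => WW y a 1 (q * s) ω * VV y q (g + 1 + q * s) t ω) ≤ Θ ^ 2 * (s + t) := by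
      refine n2_mul (by positivity) ?_
      have hq := H.q_le
      calc _ ≤ (Θ * (Θ * (s + t))) * (Θ * (s + t)) := by
            refine mul_le_mul ((H.hW _ _).trans ?_) ((H.hV _ _).trans ?_) (n4_nonneg _)
              (by positivity)
            · push_cast
              gcongr
              exact le_add_of_nonneg_right t.cast_nonneg
            · gcongr
              exact le_add_of_nonneg_left s.cast_nonneg
        _ = 1 * (Θ ^ 3 * (s + t) ^ 2) := by ring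
        _ ≤ Θ * (Θ ^ 3 * (s + t) ^ 2) := by gcongr
        _ = _ := by ring
    rw [H.n2_sh (q * s) (BB y a q g t)]
    refine (add_le_add (add_le_add (ih s hs) (ih t ht)) b).trans (le_of_eq ?_)
    push_cast
    ring

theorem err1 {g R k m : ℕ} (hg : g < q) (hR : 0 < R) (hk : R ^ 4 ≤ 2 ^ k) (hk' : (k : ℝ) + 1 ≤ Θ)
    (hm : q * m ≤ R ^ 4) : |𝔼 ω, y 0 ω * BB y a q g m ω| ≤ 5 * Θ ^ 4 * R ^ 3 := by
  have h1 := H.one_le
  have hR' : (1 : ℝ) ≤ R := by exact_mod_cast hR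
  have hm' : m ≤ R ^ 4 := (Nat.le_mul_of_pos_left m (Nat.zero_lt_of_lt hg)).trans hm
  have b : ∀ n ≤ R ^ 4, n2 (BB y a q g n) ≤ Θ ^ 3 * n := fun n hn =>
    (H.n2_BB hg k n (hn.trans hk)).trans
      ((mul_le_mul_of_nonneg_left hk' (by positivity)).trans_eq (by ring))
  refine (H.transl hR _ (D := 4 * (Θ ^ 3 * R ^ 3)) fun s hs => ?_).trans ?_
  · have e : (fun ω => BB y a q g m (sh (q * s) ω) - BB y a q g m ω) = fun ω =>
        (BB y a q g s (sh (q * m) ω) + WW y a 1 (q * m) ω * VV y q (g + 1 + q * m) s ω) -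
        (BB y a q g s ω + VV y q (g + 1 + q * s) m ω * WW y a 1 (q * s) ω) := funext fun ω => by
      have e1 := H.BB_add g m s ω
      rw [add_comm m, H.BB_add] at e1
      linarith
    rw [e]
    refine (n2_sub _ _).trans ((add_le_add (n2_add _ _) (n2_add _ _)).trans ?_)
    rw [H.n2_sh (q * m) (BB y a q g s)]
    have hs' : (s : ℝ) ≤ R ^ 2 := by exact_mod_cast hs.le
    have c : n2 (BB y a q g s) ≤ Θ ^ 3 * R ^ 3 :=
      (b s (hs.le.trans (Nat.pow_le_pow_right hR (by norm_num)))).trans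
        (mul_le_mul_of_nonneg_left (hs'.trans (pow_le_pow_right₀ hR' (by norm_num)))
          (by positivity))
    linarith [H.n2_long_short (H.hW 1 (q * m)) (H.hV (g + 1 + q * m) s) hm
      (hs'.trans (le_mul_of_one_le_left (by positivity) h1)),
      H.n2_long_short (H.hV (g + 1 + q * s) m) (H.hW 1 (q * s)) hm' (H.qs_le hs), H.sq_le_cube R]
  · have hn' : (m : ℝ) ≤ R ^ 4 := by exact_mod_cast hm'
    have : n2 (BB y a q g m) / R ≤ Θ ^ 3 * R ^ 3 := by
      rw [div_le_iff₀ (by linarith)]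
      calc _ ≤ Θ ^ 3 * R ^ 4 := (b m hm').trans (by gcongr)
        _ = _ := by ring
    calc _ ≤ Θ * (Θ ^ 3 * R ^ 3 + 4 * (Θ ^ 3 * R ^ 3)) := by gcongr
      _ = _ := by ring

theorem err3 {g R m : ℕ} (hg : g < q) (hR : 0 < R) (hm : q * (m + R ^ 2) ≤ R ^ 4) {Z : Ω → ℝ}
    (hZ : ∀ ω, |Z ω| ≤ Θ) :
    |∑ j ∈ range m, 𝔼 ω, Z ω * (y (g + 1 + q * j) ω * e2 y a 1 (g + q * j) ω)| ≤
      5 * Θ ^ 5 * R ^ 7 := by
  have h1 := H.one_le
  have hR' : (1 : ℝ) ≤ R := by exact_mod_cast hR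
  have hl : ∀ j < m + R ^ 2, g + q * j ≤ R ^ 4 := fun j hj =>
    le_trans (by nlinarith [Nat.mul_le_mul_left q (Nat.succ_le_of_lt hj)]) hm
  have hm' : (m : ℝ) ≤ R ^ 4 := by
    have : m ≤ R ^ 4 := (Nat.le_add_right _ _).trans
      ((Nat.le_mul_of_pos_left _ (Nat.zero_lt_of_lt hg)).trans hm)
    exact_mod_cast this
  set F : ℕ → Ω → ℝ := fun j => e2 y a 1 (g + q * j) with hF
  set Y : ℕ → Ω → ℝ := fun j => y (g + 1 + q * j) with hY
  have bF : ∀ j < m + R ^ 2, n2 (F j) ≤ Θ ^ 2 * R ^ 4 := fun j hj =>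
    (H.n2_e2 _ _).trans (mul_le_mul_of_nonneg_left (by exact_mod_cast hl j hj) (by positivity))
  have bE : ∀ (j : ℕ) (G : Ω → ℝ), |𝔼 ω, Z ω * (Y j ω * G ω)| ≤ Θ * (Θ * n2 G) := fun j G =>
    (abs_E_le _).trans ((n2_bdd_mul hZ H.pos.le _).trans
      (mul_le_mul_of_nonneg_left (n2_bdd_mul (H.bdd _) H.pos.le _) H.pos.le))
  set u : ℕ → ℕ → ℝ := fun i j => 𝔼 ω, Z ω * (Y i ω * F j ω) with hu
  have b1 : ∀ s < R ^ 2, |∑ j ∈ range m, u j j - ∑ j ∈ range m, u (j + s) j| ≤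
      4 * Θ ^ 5 * R ^ 7 := fun s hs => by
    have e1 := sum_range_add (fun j => u j j) m s
    rw [add_comm m, sum_range_add] at e1
    have e2' : ∑ j ∈ range m, u j j - ∑ j ∈ range m, u (j + s) j =
        (∑ j ∈ range s, u j j - ∑ j ∈ range s, u (m + j) (m + j)) +
        ∑ j ∈ range m, (u (s + j) (s + j) - u (s + j) j) := by
      simp only [sum_sub_distrib, add_comm _ s]
      linarith
    have hs' : (s : ℝ) ≤ R ^ 2 := by exact_mod_cast hs.le
    have c1 : ∀ c ≤ m, |∑ j ∈ range s, u (c + j) (c + j)| ≤ Θ ^ 5 * R ^ 7 := fun c hc => by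
      refine (abs_sum_le_sum_abs _ _).trans ((sum_le_card_nsmul _ _ (Θ * (Θ * (Θ ^ 2 * R ^ 4)))
        fun j hj => (bE _ _).trans ?_).trans ?_)
      · have := bF (c + j) (by have := mem_range.1 hj; omega)
        gcongr
      · rw [card_range, nsmul_eq_mul]
        calc _ ≤ R ^ 2 * (Θ * (Θ * (Θ ^ 2 * R ^ 4))) := by gcongr
          _ = Θ ^ 4 * R ^ 6 := by ring
          _ ≤ _ := mul_le_mul (pow_le_pow_right₀ h1 (by norm_num))
            (pow_le_pow_right₀ hR' (by norm_num)) (by positivity) (by positivity)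
    have c2 : |∑ j ∈ range m, (u (s + j) (s + j) - u (s + j) j)| ≤ 2 * Θ ^ 5 * R ^ 7 := by
      refine (abs_sum_le_sum_abs _ _).trans ((sum_le_card_nsmul _ _
        (Θ * (Θ * (2 * (Θ ^ 3 * R ^ 3)))) fun j hj => ?_).trans ?_)
      · have e3 : u (s + j) (s + j) - u (s + j) j = 𝔼 ω, Z ω * (Y (s + j) ω *
            (WW y a 1 (g + q * j) ω * WW y a (1 + (g + q * j)) (q * s) ω +
              e2 y a (1 + (g + q * j)) (q * s) ω)) := by
          rw [← expect_sub_distrib]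
          refine expect_congr rfl fun ω _ => ?_
          simp only [hF]
          rw [show g + q * (s + j) = g + q * j + q * s by ring, e2_add]
          ring
        rw [e3]
        refine (bE _ _).trans (mul_le_mul_of_nonneg_left (mul_le_mul_of_nonneg_left
          ((n2_add _ _).trans ?_) H.pos.le) H.pos.le)
        linarith [H.n2_long_short (H.hW 1 (g + q * j)) (H.hW (1 + (g + q * j)) (q * s))
          (hl j (by have := mem_range.1 hj; omega)) (H.qs_le hs),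
          H.n2_e2_short hR hs (1 + (g + q * j)), H.sq_le_cube R]
      · rw [card_range, nsmul_eq_mul]
        exact (mul_le_mul_of_nonneg_right hm' (by positivity)).trans_eq (by ring)
    have c3 := c1 0 (Nat.zero_le _)
    simp only [zero_add] at c3
    rw [e2']
    refine (abs_add_le _ _).trans ((add_le_add_left (abs_sub _ _) _).trans ?_)
    linarith [c1 m le_rfl]
  have b2 : |∑ s ∈ range (R ^ 2), ∑ j ∈ range m, u (j + s) j| ≤ R ^ 2 * (Θ ^ 5 * R ^ 7) := by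
    rw [sum_comm]
    refine (abs_sum_le_sum_abs _ _).trans ((sum_le_card_nsmul _ _
      (Θ * R * (Θ * (Θ ^ 2 * R ^ 4))) fun j hj => ?_).trans ?_)
    · have e3 : ∑ s ∈ range (R ^ 2), u (j + s) j =
          𝔼 ω, VV y q (g + 1 + q * j) (R ^ 2) ω * (Z ω * F j ω) := by
        simp only [VV, sum_mul, expect_sum_comm]
        refine sum_congr rfl fun s _ => expect_congr rfl fun ω _ => ?_
        simp only [hY]
        rw [show g + 1 + q * (j + s) = g + 1 + q * j + q * s by ring]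
        ring
      rw [e3]
      refine (abs_E_mul _ _).trans (mul_le_mul (H.n2_V _ _) ((n2_bdd_mul hZ H.pos.le _).trans ?_)
        (n2_nonneg _) (by positivity))
      exact mul_le_mul_of_nonneg_left (bF j (by have := mem_range.1 hj; omega)) H.pos.le
    · rw [card_range, nsmul_eq_mul]
      calc _ ≤ R ^ 4 * (Θ * R * (Θ * (Θ ^ 2 * R ^ 4))) := by gcongr
        _ = R ^ 2 * (Θ ^ 4 * R ^ 7) := by ring
        _ ≤ _ := mul_le_mul_of_nonneg_left (mul_le_mul_of_nonneg_right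
          (pow_le_pow_right₀ h1 (by norm_num)) (by positivity)) (by positivity)
  have b3 : |∑ s ∈ range (R ^ 2), (∑ j ∈ range m, u j j - ∑ j ∈ range m, u (j + s) j)| ≤
      R ^ 2 * (4 * Θ ^ 5 * R ^ 7) :=
    (abs_sum_le_sum_abs _ _).trans ((sum_le_card_nsmul _ _ _
      fun s hs => b1 s (mem_range.1 hs)).trans (by simp))
  rw [sum_sub_distrib, sum_const, card_range, nsmul_eq_mul] at b3
  have b4 := (abs_add_le _ _).trans (add_le_add b3 b2)
  rw [sub_add_cancel, abs_mul, Nat.abs_cast] at b4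
  push_cast at b4
  refine le_of_mul_le_mul_left (b4.trans_eq (by ring)) (pow_pos (by linarith) 2)

end Sys

end Pool.Agent.Lib.MP_a3b3a7_nt.M
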