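import Mathlib

/-! Asymptotics of the logarithm of the Dedekind eta function on the imaginary axis, and the
rearrangement of the divisor double series. -/

open Finset Function Real
open scoped BigOperators

namespace Pool.Agent.Lib.MP_a3b3a7_nt.M

/-- Fourth root. -/
noncomputable def qr (x : ℝ) : ℝ := √(√x)

theorem qr_nonneg (x : ℝ) : 0 ≤ qr x := sqrt_nonneg _

theorem qr_mul {x : ℝ} (hx : 0 ≤ x) (y : ℝ) : qr (x * y) = qr x * qr y := by
  unfold qr
  rw [sqrt_mul hx, sqrt_mul (sqrt_nonneg _)]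

theorem qr_pow {x : ℝ} (hx : 0 ≤ x) : qr x ^ 4 = x := by
  unfold qr
  rw [show (4 : ℕ) = 2 * 2 from rfl, pow_mul, sq_sqrt (sqrt_nonneg _), sq_sqrt hx]

theorem one_le_qr {x : ℝ} (hx : 1 ≤ x) : 1 ≤ qr x := one_le_sqrt.2 (one_le_sqrt.2 hx)

theorem le_qr {x : ℝ} (h0 : 0 ≤ x) (hx : x ≤ 1) : x ≤ qr x := by
  have h1 : qr x ≤ 1 := sqrt_le_one.2 (sqrt_le_one.2 hx)
  have h2 := qr_pow h0
  have h3 := qr_nonneg x
  calc x = qr x * qr x ^ 3 := by rw [← pow_succ', h2]
    _ ≤ qr x * 1 := mul_le_mul_of_nonneg_left (pow_le_one₀ h3 h1) h3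
    _ = qr x := mul_one _

theorem qr_le_self {x : ℝ} (hx : 1 ≤ x) : qr x ≤ x := by
  have h1 := one_le_qr hx
  have h2 := qr_pow (zero_le_one.trans hx)
  calc qr x = qr x ^ 1 := (pow_one _).symm
    _ ≤ qr x ^ 4 := pow_le_pow_right₀ h1 (by norm_num)
    _ = x := h2

theorem log_le_qr {x : ℝ} (hx : 0 < x) : log x ≤ 4 * qr x := by
  have h0 : 0 < qr x := sqrt_pos.2 (sqrt_pos.2 hx)
  have h1 := log_le_sub_one_of_pos h0
  have h2 : log x = 4 * log (qr x) := by
    conv_lhs => rw [← qr_pow hx.le, log_pow]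
    norm_num
  linarith

theorem exp_neg_lt_one {x : ℝ} (hx : 0 < x) : rexp (-x) < 1 := exp_lt_one_iff.2 (by linarith)

theorem exp_neg_le_half {x : ℝ} (hx : 1 ≤ x) : rexp (-x) ≤ 1 / 2 := by
  have h := add_one_le_exp x
  rw [exp_neg, ← one_div]
  exact one_div_le_one_div_of_le (by norm_num) (by linarith)

/-- Minus the logarithm of the Euler product. -/
noncomputable def T0 (x : ℝ) : ℝ := ∑' m : ℕ, -log (1 - rexp (-x) ^ (m + 1))

theorem one_sub_pow_pos {x : ℝ} (hx : 0 < x) (m : ℕ) : 0 < 1 - rexp (-x) ^ (m + 1) :=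
  sub_pos.2 (pow_lt_one₀ (exp_pos _).le (exp_neg_lt_one hx) (Nat.succ_ne_zero m))

theorem summable_log {x : ℝ} (hx : 0 < x) : Summable fun m : ℕ => log (1 - rexp (-x) ^ (m + 1)) := by
  have h : Summable fun m : ℕ => -rexp (-x) ^ (m + 1) :=
    ((summable_nat_add_iff 1).2 (summable_geometric_of_lt_one (exp_pos _).le
      (exp_neg_lt_one hx))).neg
  simpa only [sub_eq_add_neg] using Real.summable_log_one_add_of_summable h

theorem norm_eta {x : ℝ} (hx : 0 < x) :
    ‖ModularForm.eta (Complex.I * (x / (2 * π) : ℝ))‖ = rexp (-x / 24 - T0 x) := by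
  have hπ : (π : ℂ) ≠ 0 := by exact_mod_cast pi_ne_zero
  have e1 : 2 * π * Complex.I * (Complex.I * (x / (2 * π) : ℝ)) = ((-x : ℝ) : ℂ) := by
    push_cast
    field_simp
    rw [Complex.I_sq, neg_one_mul]
  have e2 : ∀ n, 1 - ModularForm.eta_q n (Complex.I * (x / (2 * π) : ℝ)) =
      1 - ((rexp (-x) : ℝ) : ℂ) ^ (n + 1) := fun n => by
    rw [ModularForm.eta_q_eq_pow, e1, Complex.ofReal_exp]
  have hm : Multipliable fun n : ℕ => 1 - ((rexp (-x) : ℝ) : ℂ) ^ (n + 1) :=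
    ModularForm.multipliable_one_sub_pow (by
      rw [Complex.norm_real, Real.norm_of_nonneg (exp_pos _).le]; exact exp_neg_lt_one hx)
  have e3 : ∀ n : ℕ, ‖1 - ((rexp (-x) : ℝ) : ℂ) ^ (n + 1)‖ = 1 - rexp (-x) ^ (n + 1) := fun n => by
    rw [← Complex.ofReal_pow, ← Complex.ofReal_one, ← Complex.ofReal_sub, Complex.norm_real,
      Real.norm_of_nonneg (one_sub_pow_pos hx n).le]
  unfold ModularForm.eta
  simp only [e2]
  rw [norm_mul, hm.norm_tprod]
  simp only [e3]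
  rw [← Real.rexp_tsum_eq_tprod (one_sub_pow_pos hx) (summable_log hx), Periodic.qParam, e1,
    ← Complex.ofReal_div, ← Complex.ofReal_exp, Complex.norm_real,
    Real.norm_of_nonneg (exp_pos _).le, ← exp_add, T0, tsum_neg, sub_neg_eq_add]

theorem norm_csqrt (z : ℂ) : ‖Complex.sqrt z‖ = √‖z‖ := by
  rw [Complex.sqrt, sqrt_eq_rpow, one_div, ← Complex.norm_cpow_real]
  norm_num

theorem T0_eq {x : ℝ} (hx : 0 < x) :
    T0 x = π ^ 2 / 6 / x - x / 24 + log (x / (2 * π)) / 2 + T0 (4 * π ^ 2 / x) := by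
  have hp := pi_pos
  have ht : 0 < x / (2 * π) := by positivity
  have h := ModularForm.eta_comp_eq_csqrt_I_inv (x := Complex.I * (x / (2 * π) : ℝ)) (by
    show 0 < (Complex.I * (x / (2 * π) : ℝ)).im
    rw [Complex.I_mul_im, Complex.ofReal_re]; exact ht)
  have e : -1 / (Complex.I * (x / (2 * π) : ℝ)) =
      Complex.I * ((4 * π ^ 2 / x) / (2 * π) : ℝ) := by
    have hπ : (π : ℂ) ≠ 0 := by exact_mod_cast pi_ne_zero
    have hx' : (x : ℂ) ≠ 0 := by exact_mod_cast hx.ne'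
    push_cast
    field_simp
    rw [Complex.I_sq]
    ring
  have h2 := congrArg norm h
  simp only [comp_apply, Pi.smul_apply, Pi.mul_apply, smul_eq_mul, norm_mul, norm_inv,
    norm_csqrt, Complex.norm_I, sqrt_one, inv_one, one_mul, Complex.norm_real,
    Real.norm_of_nonneg ht.le] at h2
  rw [e, norm_eta hx, norm_eta (by positivity)] at h2
  have h3 := congrArg log h2
  rw [log_mul (sqrt_pos.2 ht).ne' (exp_pos _).ne', log_exp, log_exp, log_sqrt ht.le] at h3
  have e4 : -(4 * π ^ 2 / x) / 24 = -(π ^ 2 / 6 / x) := by ring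
  linarith

theorem T0_mem {u : ℝ} (hu : 1 ≤ u) : 0 ≤ T0 u ∧ T0 u ≤ 4 * rexp (-u) := by
  have h0 : 0 < u := by linarith
  have hr := exp_neg_le_half hu
  have hp := exp_pos (-u)
  constructor
  · exact tsum_nonneg fun m => neg_nonneg.2 (log_nonpos (one_sub_pow_pos h0 m).le
      (by have := pow_pos hp (m + 1); linarith))
  · have hs : HasSum (fun m : ℕ => 2 * rexp (-u) * (1 / 2) ^ m) (2 * rexp (-u) * 2) :=
      hasSum_geometric_two.mul_left _
    refine ((summable_log h0).neg.tsum_le_tsum (fun m => ?_) hs.summable).trans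
      (by rw [hs.tsum_eq]; linarith)
    have h1 : rexp (-u) ^ (m + 1) ≤ rexp (-u) * (1 / 2) ^ m := by
      rw [pow_succ']
      exact mul_le_mul_of_nonneg_left (pow_le_pow_left₀ hp.le hr m) hp.le
    have h2 : rexp (-u) * (1 / 2) ^ m ≤ 1 / 2 := by
      have : ((1 : ℝ) / 2) ^ m ≤ 1 := pow_le_one₀ (by norm_num) (by norm_num)
      nlinarith
    have h3 := one_sub_inv_le_log_of_pos (one_sub_pow_pos h0 m)
    have h4 := pow_pos hp (m + 1)
    generalize rexp (-u) ^ (m + 1) = t at *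
    have h5 : (1 - t)⁻¹ ≤ 1 + 2 * t := by
      rw [inv_eq_one_div, div_le_iff₀ (by linarith)]
      nlinarith
    linarith

theorem T0_approx {x : ℝ} (hx : 0 < x) :
    |T0 x - π ^ 2 / 6 / x - log (x / (2 * π)) / 2| ≤ 9 * qr x := by
  have h3 := pi_gt_three
  have h4 := pi_lt_four
  rcases le_total x 1 with h | h
  · have hq := le_qr hx.le h
    have h1 : 1 / x ≤ 4 * π ^ 2 / x := by
      gcongr
      nlinarith
    have h2 : 1 ≤ 1 / x := one_le_one_div hx h
    obtain ⟨h5, h6⟩ := T0_mem (h2.trans h1)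
    have h7 : rexp (-(4 * π ^ 2 / x)) ≤ x := by
      have := add_one_le_exp (4 * π ^ 2 / x)
      rw [exp_neg, inv_le_comm₀ (exp_pos _) hx, ← one_div]
      linarith
    rw [T0_eq hx, abs_le]
    constructor <;> linarith
  · have hq := one_le_qr h
    obtain ⟨h5, h6⟩ := T0_mem h
    have h7 := exp_neg_le_half h
    have h8 : π ^ 2 / 6 / x ≤ 3 := (div_le_self (by positivity) h).trans (by nlinarith)
    have h9 : 0 ≤ π ^ 2 / 6 / x := by positivity
    have h10 := log_le_qr hx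
    have h11 := log_nonneg h
    have h12 : 0 ≤ log (2 * π) := log_nonneg (by linarith)
    have h13 := log_le_sub_one_of_pos (show 0 < 2 * π by linarith)
    rw [log_div hx.ne' (by linarith), abs_le]
    constructor <;> linarith

/-- Generating series. -/
noncomputable def Gen (F : ℕ → ℝ) (x : ℝ) : ℝ := ∑' d : ℕ, F d * rexp (-x) ^ d

theorem hasSum_lin {x : ℝ} (hx : 0 < x) (C : ℝ) :
    HasSum (fun d : ℕ => C * d * rexp (-x) ^ d) (C * (rexp (-x) / (1 - rexp (-x)) ^ 2)) := by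
  have h := (hasSum_coe_mul_geometric_of_norm_lt_one (r := rexp (-x)) (by
    rw [Real.norm_of_nonneg (exp_pos _).le]; exact exp_neg_lt_one hx)).mul_left C
  simpa only [mul_assoc] using h

theorem norm_term {F : ℕ → ℝ} {C : ℝ} (hF : ∀ d, |F d| ≤ C * d) (x : ℝ) (d : ℕ) :
    ‖F d * rexp (-x) ^ d‖ ≤ C * d * rexp (-x) ^ d := by
  rw [Real.norm_eq_abs, abs_mul, abs_of_pos (pow_pos (exp_pos _) d)]
  exact mul_le_mul_of_nonneg_right (hF d) (pow_pos (exp_pos _) d).le

theorem hasSum_Gen {F : ℕ → ℝ} {C : ℝ} (hF : ∀ d, |F d| ≤ C * d) {x : ℝ} (hx : 0 < x) :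
    HasSum (fun d : ℕ => F d * rexp (-x) ^ d) (Gen F x) :=
  (Summable.of_norm_bounded (hasSum_lin hx C).summable (norm_term hF x)).hasSum

theorem abs_Gen_le {F : ℕ → ℝ} {C : ℝ} (hF : ∀ d, |F d| ≤ C * d) {x : ℝ} (hx : 1 ≤ x) :
    |Gen F x| ≤ 2 * C := by
  have hC : 0 ≤ C := by simpa using (abs_nonneg _).trans (hF 1)
  have h := tsum_of_norm_bounded (hasSum_lin (one_pos.trans_le hx) C) (norm_term hF x)
  refine h.trans ?_
  have hr := exp_neg_le_half hx
  have hp := exp_pos (-x)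
  rw [mul_comm 2]
  refine mul_le_mul_of_nonneg_left ?_ hC
  rw [div_le_iff₀ (by nlinarith)]
  nlinarith

theorem hasSum_div (c : ℕ → ℕ → ℝ) (hc : ∀ b d, |c b d| ≤ 2) {x : ℝ} (hx : 0 < x) {s : ℕ → ℝ}
    (hs : ∀ b, HasSum (fun a => c (b + 1) ((b + 1) * (a + 1)) *
      (rexp (-x) ^ (b + 1)) ^ (a + 1)) (s b)) :
    HasSum s (Gen (fun d => ∑ b ∈ d.divisors, c b d) x) := by
  have hp := exp_pos (-x)
  have h1 := exp_neg_lt_one hx
  have hg := summable_geometric_of_lt_one hp.le h1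
  have hφ : Summable fun p : ℕ × ℕ => c (p.1 + 1) ((p.1 + 1) * (p.2 + 1)) *
      (rexp (-x) ^ (p.1 + 1)) ^ (p.2 + 1) := by
    refine Summable.of_norm_bounded ((hg.mul_of_nonneg hg (fun _ => by positivity)
      (fun _ => by positivity)).mul_left 2) fun p => ?_
    rw [Real.norm_eq_abs, abs_mul, ← pow_mul, ← pow_add, abs_of_pos (pow_pos hp _)]
    exact mul_le_mul (hc _ _) (pow_le_pow_of_le_one hp.le h1.le (by nlinarith)) (by positivity)
      (by norm_num)
  have h2 := hφ.hasSum.tsum_fiberwise fun p : ℕ × ℕ => (p.1 + 1) * (p.2 + 1)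
  have h3 := hφ.hasSum.prod_fiberwise hs
  suffices e : ∀ d : ℕ, ∑' p : (fun p : ℕ × ℕ => (p.1 + 1) * (p.2 + 1)) ⁻¹' {d},
      c (p.1.1 + 1) ((p.1.1 + 1) * (p.1.2 + 1)) * (rexp (-x) ^ (p.1.1 + 1)) ^ (p.1.2 + 1) =
      (∑ b ∈ d.divisors, c b d) * rexp (-x) ^ d by
    simp only [e] at h2
    rw [Gen, h2.tsum_eq]
    exact h3
  intro d
  have e : (fun p : ℕ × ℕ => (p.1 + 1) * (p.2 + 1)) ⁻¹' {d} =
      ↑(d.divisors.image fun b => (b - 1, d / b - 1)) := by
    ext ⟨b, a⟩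
    simp only [Set.mem_preimage, Set.mem_singleton_iff, coe_image, Set.mem_image, mem_coe,
      Nat.mem_divisors, Prod.mk.injEq]
    constructor
    · rintro rfl
      exact ⟨b + 1, ⟨dvd_mul_right _ _, by positivity⟩, by simp,
        by rw [Nat.mul_div_cancel_left _ b.succ_pos]; simp⟩
    · rintro ⟨k, ⟨⟨m, rfl⟩, h0⟩, rfl, rfl⟩
      have hk : 0 < k := Nat.pos_of_ne_zero (left_ne_zero_of_mul h0)
      have hm : 0 < m := Nat.pos_of_ne_zero (right_ne_zero_of_mul h0)
      rw [Nat.mul_div_cancel_left _ hk, Nat.sub_add_cancel hk, Nat.sub_add_cancel hm]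
  rw [e, Finset.tsum_subtype' _ fun p : ℕ × ℕ => c (p.1 + 1) ((p.1 + 1) * (p.2 + 1)) *
      (rexp (-x) ^ (p.1 + 1)) ^ (p.2 + 1), sum_image, sum_mul]
  · refine sum_congr rfl fun k hk => ?_
    obtain ⟨⟨m, rfl⟩, h0⟩ := Nat.mem_divisors.1 hk
    have hk : 0 < k := Nat.pos_of_ne_zero (left_ne_zero_of_mul h0)
    have hm : 0 < m := Nat.pos_of_ne_zero (right_ne_zero_of_mul h0)
    simp only
    rw [Nat.mul_div_cancel_left _ hk, Nat.sub_add_cancel hk, Nat.sub_add_cancel hm, pow_mul]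
  · intro k hk l hl h
    have h1 := Nat.pos_of_mem_divisors hk
    have h2 := Nat.pos_of_mem_divisors hl
    have h3 := congrArg Prod.fst h
    simp only at h3
    omega

theorem Gen_sigma {x : ℝ} (hx : 0 < x) :
    Gen (fun d => ∑ b ∈ d.divisors, 1 / (b : ℝ)) x = T0 x := by
  have h := hasSum_div (fun b d => if b ≤ d then (b : ℝ) / d else 0) (fun b d => ?_) hx
    (s := fun b => -log (1 - rexp (-x) ^ (b + 1))) fun b => ?_
  · rw [T0, h.tsum_eq]
    refine congrArg (Gen · x) (funext fun d => ?_)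
    rw [← Nat.sum_div_divisors d fun b => 1 / (b : ℝ)]
    refine sum_congr rfl fun k hk => ?_
    rw [if_pos (Nat.divisor_le hk), Nat.cast_div_charZero (Nat.dvd_of_mem_divisors hk),
      one_div_div]
  · split_ifs with h
    · rw [abs_of_nonneg (by positivity)]
      exact (div_le_one_of_le₀ (by exact_mod_cast h) (by positivity)).trans (by norm_num)
    · norm_num
  · have h := hasSum_pow_div_log_of_abs_lt_one (x := rexp (-x) ^ (b + 1)) (by
      rw [abs_of_pos (by positivity)]; have := one_sub_pow_pos hx b; linarith)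
    refine h.congr_fun ?_
    intro a
    rw [if_pos (Nat.le_mul_of_pos_right _ a.succ_pos)]
    push_cast
    field_simp

end Pool.Agent.Lib.MP_a3b3a7_nt.M
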