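import Pool.Agent.Lib.MP_a3b3a7_nt.M.Err

/-!
Second order expansion of the probability of a gap.
-/

set_option autoImplicit false
set_option linter.unusedSectionVars false

open Finset Function
open scoped BigOperators

namespace Pool.Agent.Lib.MP_a3b3a7_nt.M

theorem cube_le {x s : ℝ} (hx : 0 ≤ x) (hs : 0 < s) : x ^ 3 ≤ s ^ 3 + x ^ 4 / s := by
  rcases le_total x s with h | h
  · exact (pow_le_pow_left₀ hx h 3).trans (le_add_of_nonneg_right (by positivity))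
  · refine le_add_of_nonneg_of_le (by positivity) ?_
    rw [le_div_iff₀ hs, pow_succ x 3]
    exact mul_le_mul_of_nonneg_left h (by positivity)

theorem taylor (u : ℕ → ℝ) (n : ℕ) {s c : ℝ} (hs : 0 < s) (hs' : s ≤ 1 / 4) (hu : ∀ i, |u i| ≤ s)
    (hQ : ∑ i ∈ range n, u i ^ 2 ≤ s ^ 2) (c0 : 0 ≤ c) (c1 : c ≤ 1)
    (hP : |c * ∏ i ∈ range n, (1 - u i)| ≤ 1) :
    |c * ∏ i ∈ range n, (1 - u i) - c * (1 - ∑ i ∈ range n, u i +
      ((∑ i ∈ range n, u i) ^ 2 - ∑ i ∈ range n, u i ^ 2) / 2)| ≤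
      60 * (s ^ 3 + (∑ i ∈ range n, u i) ^ 4 / s) := by
  set U := ∑ i ∈ range n, u i with hU
  set Q := ∑ i ∈ range n, u i ^ 2 with hQ'
  have Q0 : 0 ≤ Q := sum_nonneg fun _ _ => sq_nonneg _
  have e4 : U ^ 4 = |U| ^ 4 := by rw [← abs_pow, abs_of_nonneg (by positivity)]
  have s2 : s ^ 2 ≤ 1 / 16 := by nlinarith
  have s3 : 0 < s ^ 3 := by positivity
  have U0 := abs_nonneg U
  rcases le_total |U| (1 / 2) with h | h
  · set θ := ∑ i ∈ range n, (u i + u i ^ 2 / 2 + Real.log (1 - u i)) with hθ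
    have b1 : |θ| ≤ 2 * s ^ 3 := by
      refine (abs_sum_le_sum_abs _ _).trans ((sum_le_sum (g := fun i => 2 * s * u i ^ 2)
        fun i _ => ?_).trans ?_)
      · have h1 := Real.abs_log_sub_add_sum_range_le (x := u i) (by linarith [hu i]) 2
        simp only [sum_range_succ, range_zero, sum_empty] at h1
        norm_num at h1
        refine h1.trans ?_
        rw [div_le_iff₀ (by linarith [hu i]), ← sq_abs (u i), pow_succ]
        have h2 : |u i| ≤ 2 * s * (1 - |u i|) := by nlinarith [hu i]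
        calc _ ≤ |u i| ^ 2 * (2 * s * (1 - |u i|)) := mul_le_mul_of_nonneg_left h2 (sq_nonneg _)
          _ = _ := by ring
      · rw [← mul_sum]
        calc _ ≤ 2 * s * s ^ 2 := mul_le_mul_of_nonneg_left hQ (by positivity)
          _ = _ := by ring
    set w := Q / 2 - θ with hw
    have e : ∏ i ∈ range n, (1 - u i) = Real.exp (-(U + w)) := by
      rw [← prod_congr rfl fun i _ => Real.exp_log (show 0 < 1 - u i by
        linarith [hu i, le_abs_self (u i)]), ← Real.exp_sum]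
      refine congrArg _ ?_
      simp only [hw, hθ, sum_add_distrib, ← sum_div]
      ring
    have s32 : s ^ 3 ≤ s ^ 2 / 4 := by nlinarith
    have b2 : |w| ≤ s ^ 2 := by
      refine (abs_sub _ _).trans ?_
      rw [abs_of_nonneg (by positivity)]
      linarith
    have w0 := abs_nonneg w
    have b3 : |-(U + w)| ≤ |U| + |w| := (abs_neg _).trans_le (abs_add_le _ _)
    have b4 := Real.exp_bound (x := -(U + w)) (by linarith) (n := 3) (by norm_num)
    simp only [sum_range_succ, range_zero, sum_empty, Nat.factorial] at b4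
    norm_num at b4
    have b5 : |-(U + w)| ^ 3 ≤ 4 * |U| ^ 3 + 4 * |w| ^ 3 :=
      (pow_le_pow_left₀ (abs_nonneg _) b3 3).trans (by
        nlinarith [mul_nonneg (add_nonneg U0 w0) (sq_nonneg (|U| - |w|))])
    have b6 : |w| ≤ s := by nlinarith
    have b7 : |w| ^ 3 ≤ s ^ 3 := pow_le_pow_left₀ w0 b6 3
    have b8 : |U * w| ≤ s ^ 3 + |U| ^ 3 := by
      rw [abs_mul]
      refine (mul_le_mul_of_nonneg_left b2 U0).trans ?_
      nlinarith [mul_nonneg (add_nonneg U0 hs.le) (sq_nonneg (|U| - s)), mul_nonneg U0 (sq_nonneg U),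
        mul_nonneg (mul_nonneg U0 U0) hs.le]
    have b9 : w ^ 2 ≤ s ^ 3 := by
      rw [← sq_abs]
      nlinarith
    have b10 := cube_le U0 hs
    rw [← mul_sub, abs_mul, abs_of_nonneg c0, e, e4]
    refine (mul_le_of_le_one_left (abs_nonneg _) c1).trans ?_
    have e5 : Real.exp (-(U + w)) - (1 - U + (U ^ 2 - Q) / 2) =
        (Real.exp (-(U + w)) - (1 + -(U + w) + (-(U + w)) ^ 2 / 2)) + (θ + U * w + w ^ 2 / 2) := by
      rw [hw]
      ring
    have b11 : |Real.exp (-(U + w)) - (1 + -(U + w) + (-(U + w)) ^ 2 / 2)| ≤ |-(U + w)| ^ 3 := by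
      have := pow_nonneg (abs_nonneg (-(U + w))) 3
      rw [neg_add_rev] at this ⊢
      linarith
    rw [e5]
    refine (abs_add_le _ _).trans ((add_le_add b11 ((abs_add_le _ _).trans
      (add_le_add_left (abs_add_le _ _) _))).trans ?_)
    rw [abs_of_nonneg (a := w ^ 2 / 2) (by positivity)]
    have : 0 ≤ |U| ^ 4 / s := by positivity
    linarith
  · have b1 : |U| ^ 4 ≤ |U| ^ 4 / s := le_div_self (by positivity) hs (by linarith)
    have b2 : |1 - U + (U ^ 2 - Q) / 2| ≤ 2 + |U| + |U| ^ 2 := by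
      rw [sq_abs, abs_le]
      constructor <;> nlinarith [le_abs_self U, neg_abs_le U, sq_nonneg U]
    have b3 : 1 / 4 ≤ |U| ^ 2 := by nlinarith
    have b4 : |U| ≤ 2 * |U| ^ 2 := by nlinarith
    have b5 : |U| ^ 2 ≤ 4 * |U| ^ 4 := by nlinarith
    refine (abs_sub _ _).trans ?_
    rw [abs_mul c (1 - U + _), abs_of_nonneg c0, e4]
    have := mul_le_of_le_one_left (abs_nonneg (1 - U + (U ^ 2 - Q) / 2)) c1
    linarith

theorem abel_id (G : ℝ) (b : ℕ → ℝ) (J : ℕ) : ∑ j ∈ range J, G ^ j * b j =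
    (1 - G) * ∑ m ∈ range J, G ^ m * ∑ j ∈ range (m + 1), b j + G ^ J * ∑ j ∈ range J, b j := by
  induction J with
  | zero => simp
  | succ J ih =>
    rw [sum_range_succ, ih, sum_range_succ (fun m => G ^ m * _), sum_range_succ b J]
    ring

theorem abel_le {G M : ℝ} (G0 : 0 ≤ G) (G1 : G ≤ 1) (b : ℕ → ℝ) (J : ℕ)
    (h : ∀ m ≤ J, |∑ j ∈ range m, b j| ≤ M) : |∑ j ∈ range J, G ^ j * b j| ≤ M := by
  have h1 : |∑ m ∈ range J, G ^ m * ∑ j ∈ range (m + 1), b j| ≤ (∑ m ∈ range J, G ^ m) * M := by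
    rw [sum_mul]
    refine (abs_sum_le_sum_abs _ _).trans (sum_le_sum fun m hm => ?_)
    rw [abs_mul, abs_of_nonneg (by positivity)]
    exact mul_le_mul_of_nonneg_left (h _ (mem_range.1 hm)) (by positivity)
  rw [abel_id]
  refine (abs_add_le _ _).trans ?_
  rw [abs_mul, abs_mul, abs_of_nonneg (sub_nonneg.2 G1), abs_of_nonneg (pow_nonneg G0 J)]
  refine (add_le_add (mul_le_mul_of_nonneg_left h1 (sub_nonneg.2 G1))
    (mul_le_mul_of_nonneg_left (h J le_rfl) (pow_nonneg G0 J))).trans (le_of_eq ?_)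
  rw [← mul_assoc, mul_neg_geom_sum]
  ring

variable {Ω : Type} [Fintype Ω] [Nonempty Ω]

/-- The conditional probability that no allowed position in `[1, n]` survives. -/
def void (y : ℕ → Ω → ℝ) (a : ℕ → ℝ) (α : ℝ) (n : ℕ) (ω : Ω) : ℝ :=
  ∏ i ∈ range n, (1 - a (1 + i) * (α * (1 + y (1 + i) ω)))

/-- The same probability for independent positions. -/
def gam (a : ℕ → ℝ) (α : ℝ) (n : ℕ) : ℝ := ∏ i ∈ range n, (1 - α * a (1 + i))

/-- Further standing assumptions. -/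
structure Sys2 (y : ℕ → Ω → ℝ) (a : ℕ → ℝ) (sh : ℕ → Ω → Ω) (q : ℕ) (Θ α : ℝ) : Prop
    extends Sys y a sh q Θ where
  a01 : ∀ t, a t = 0 ∨ a t = 1
  mean : ∀ t, 𝔼 ω, y t ω = 0
  α0 : 0 < α
  α1 : α ≤ 1 / 2
  y0 : ∀ t ω, 0 ≤ 1 + y t ω
  y1 : ∀ t ω, α * (1 + y t ω) ≤ 1

variable {y : ℕ → Ω → ℝ} {a : ℕ → ℝ} {sh : ℕ → Ω → Ω} {q : ℕ} {Θ α : ℝ}

namespace Sys2

variable (H : Sys2 y a sh q Θ α)
include H

theorem gam_mem (n : ℕ) : 0 ≤ gam a α n ∧ gam a α n ≤ 1 := by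
  have h : ∀ t, 0 ≤ 1 - α * a t ∧ 1 - α * a t ≤ 1 := fun t => by
    rcases H.a01 t with h | h <;> rw [h] <;> constructor <;> linarith [H.α0, H.α1]
  exact ⟨prod_nonneg fun _ _ => (h _).1, prod_le_one (fun _ _ => (h _).1) fun _ _ => (h _).2⟩

theorem gam_add (g j : ℕ) : gam a α (g + q * j) = gam a α g * gam a α q ^ j := by
  induction j with
  | zero => simp
  | succ j ih =>
    have e : ∀ n, gam a α (q + n) = gam a α q * gam a α n := fun n => by
      rw [gam, prod_range_add]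
      refine congrArg _ (prod_congr rfl fun i _ => ?_)
      rw [show 1 + (q + i) = 1 + i + q * 1 by ring, H.per]
    rw [show g + q * (j + 1) = q + (g + q * j) by ring, e, ih]
    ring

theorem factor_mem (t : ℕ) (ω : Ω) :
    0 ≤ a t * (α * (1 + y t ω)) ∧ a t * (α * (1 + y t ω)) ≤ 1 := by
  rcases H.a01 t with h | h <;> rw [h]
  · simp
  · rw [one_mul]
    exact ⟨mul_nonneg H.α0.le (H.y0 t ω), H.y1 t ω⟩

theorem void_mem (n : ℕ) (ω : Ω) : 0 ≤ void y a α n ω ∧ void y a α n ω ≤ 1 :=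
  ⟨prod_nonneg fun _ _ => sub_nonneg.2 (H.factor_mem _ ω).2, prod_le_one
    (fun _ _ => sub_nonneg.2 (H.factor_mem _ ω).2) fun _ _ => sub_le_self _ (H.factor_mem _ ω).1⟩

theorem void_taylor {R n : ℕ} (hR : 0 < R) (hn : n ≤ R ^ 4) {κ s : ℝ} (hκ : κ = α / (1 - α))
    (hs : s = κ * Θ * R ^ 2) (hs' : s ≤ 1 / 4) :
    𝔼 ω, |void y a α n ω - gam a α n * (1 - κ * WW y a 1 n ω + κ ^ 2 * e2 y a 1 n ω)| ≤
      120 * s ^ 3 := by
  have h1 := H.one_le
  have hγ : 0 < 1 - α := by linarith [H.α1]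
  have κ0 : 0 < κ := hκ ▸ div_pos H.α0 hγ
  have hR' : (1 : ℝ) ≤ R := by exact_mod_cast hR
  have hn' : (n : ℝ) ≤ R ^ 4 := by exact_mod_cast hn
  have s0 : 0 < s := by rw [hs]; positivity
  have hu : ∀ t ω, |κ * (a t * y t ω)| ≤ κ * Θ := fun t ω => by
    rw [abs_mul, abs_of_pos κ0, abs_mul]
    exact mul_le_mul_of_nonneg_left
      ((mul_le_of_le_one_left (abs_nonneg _) (H.a_le _)).trans (H.bdd _ _)) κ0.le
  have e : ∀ ω, void y a α n ω = gam a α n * ∏ i ∈ range n, (1 - κ * (a (1 + i) * y (1 + i) ω)) := by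
    intro ω
    rw [void, gam, ← prod_mul_distrib]
    refine prod_congr rfl fun i _ => ?_
    rcases H.a01 (1 + i) with h | h <;> rw [h, hκ]
    · ring
    · field_simp
      ring
  have b : ∀ ω, |void y a α n ω - gam a α n * (1 - κ * WW y a 1 n ω + κ ^ 2 * e2 y a 1 n ω)| ≤
      60 * s ^ 3 + 60 * κ ^ 4 / s * (WW y a 1 n ω ^ 2) ^ 2 := fun ω => by
    have h := taylor (fun i => κ * (a (1 + i) * y (1 + i) ω)) n s0 hs'
      (fun i => (hu _ ω).trans (hs ▸ le_mul_of_one_le_right (by positivity) (one_le_pow₀ hR')))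
      ((sum_le_card_nsmul _ _ ((κ * Θ) ^ 2) fun i _ =>
        sq_le_sq.2 ((hu _ ω).trans (le_abs_self _))).trans (by
          rw [card_range, nsmul_eq_mul, hs]
          exact (mul_le_mul_of_nonneg_right hn' (sq_nonneg _)).trans_eq (by ring)))
      (H.gam_mem n).1 (H.gam_mem n).2 (by
        rw [← e, abs_of_nonneg (H.void_mem n ω).1]
        exact (H.void_mem n ω).2)
    simp only [mul_pow κ, ← mul_sum] at h
    rw [← e, ← WW, WW_sq] at h
    refine le_trans (le_of_eq (congrArg _ (by ring))) (h.trans_eq (by ring))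
  refine (expect_le_expect fun ω _ => b ω).trans ?_
  rw [expect_add_distrib, Fintype.expect_const, ← mul_expect, ← sq_n2]
  have c : n2 (fun ω => WW y a 1 n ω ^ 2) ≤ Θ * R ^ 4 :=
    (H.hW 1 n).trans (mul_le_mul_of_nonneg_left hn' H.pos.le)
  have d : κ ^ 4 * (Θ * R ^ 4) ^ 2 ≤ s ^ 3 * s := by
    rw [hs]
    calc _ = 1 * (κ ^ 4 * Θ ^ 2 * R ^ 8) := by ring
      _ ≤ Θ ^ 2 * (κ ^ 4 * Θ ^ 2 * R ^ 8) :=
        mul_le_mul_of_nonneg_right (one_le_pow₀ h1) (by positivity)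
      _ = _ := by ring
  have f : κ ^ 4 / s * n2 (fun ω => WW y a 1 n ω ^ 2) ^ 2 ≤ s ^ 3 := by
    rw [div_mul_eq_mul_div, div_le_iff₀ s0]
    exact (mul_le_mul_of_nonneg_left (pow_le_pow_left₀ (n2_nonneg _) c 2) (by positivity)).trans d
  rw [mul_div_assoc, mul_assoc]
  linarith

theorem E_WW (s n : ℕ) : 𝔼 ω, WW y a s n ω = 0 := by
  simp [WW, expect_sum_comm, ← mul_expect, H.mean]

theorem expand {g R k J : ℕ} (hg : g < q) (hR : 0 < R) (hk : R ^ 4 ≤ 2 ^ k)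
    (hk' : (k : ℝ) + 1 ≤ Θ) (hJ : q * (J + R ^ 2) ≤ R ^ 4) {κ s : ℝ} (hκ : κ = α / (1 - α))
    (hs : s = κ * Θ * R ^ 2) (hs' : s ≤ 1 / 4) :
    |∑ j ∈ range J, 𝔼 ω, (1 + y 0 ω) * (1 + y (g + 1 + q * j) ω) * void y a α (g + q * j) ω -
      gam a α g * ∑ j ∈ range J, gam a α q ^ j * (1 + 𝔼 ω, y 0 ω * y (g + 1 + q * j) ω -
        κ * (𝔼 ω, y 0 ω * WW y a 1 (g + q * j) ω +
          𝔼 ω, y (g + 1 + q * j) ω * WW y a 1 (g + q * j) ω) +
        κ ^ 2 * 𝔼 ω, e2 y a 1 (g + q * j) ω)| ≤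
      κ * (5 * Θ ^ 4 * R ^ 3) + κ ^ 2 * (15 * Θ ^ 5 * R ^ 7) + R ^ 4 * (480 * Θ ^ 2 * s ^ 3) := by
  have h1 := H.one_le
  have hγ : 0 < 1 - α := by linarith [H.α1]
  have κ0 : 0 < κ := hκ ▸ div_pos H.α0 hγ
  have s0 : 0 ≤ s := by rw [hs]; positivity
  have hl : ∀ j < J, g + q * j ≤ R ^ 4 := fun j hj =>
    le_trans (by nlinarith [Nat.mul_le_mul_left q (Nat.succ_le_of_lt hj)]) hJ
  have hJ' : (J : ℝ) ≤ R ^ 4 := by
    have : J ≤ R ^ 4 := (Nat.le_add_right _ _).trans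
      ((Nat.le_mul_of_pos_left _ (Nat.zero_lt_of_lt hg)).trans hJ)
    exact_mod_cast this
  obtain ⟨G0, G1⟩ := H.gam_mem q
  obtain ⟨g0, g1⟩ := H.gam_mem g
  set G := gam a α q
  set b1 : ℕ → ℝ := fun j => 𝔼 ω, y 0 ω * (y (g + 1 + q * j) ω * WW y a 1 (g + q * j) ω)
  set b2 : ℕ → ℝ := fun j => 𝔼 ω, y 0 ω * e2 y a 1 (g + q * j) ω
  set b3 : ℕ → ℝ := fun j => 𝔼 ω, 1 * (y (g + 1 + q * j) ω * e2 y a 1 (g + q * j) ω)
  set b4 : ℕ → ℝ := fun j => 𝔼 ω, y 0 ω * (y (g + 1 + q * j) ω * e2 y a 1 (g + q * j) ω)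
  set r : ℕ → ℝ := fun j => 𝔼 ω, (1 + y 0 ω) * (1 + y (g + 1 + q * j) ω) *
    (void y a α (g + q * j) ω - gam a α (g + q * j) *
      (1 - κ * WW y a 1 (g + q * j) ω + κ ^ 2 * e2 y a 1 (g + q * j) ω))
  have c1 : |∑ j ∈ range J, G ^ j * b1 j| ≤ 5 * Θ ^ 4 * R ^ 3 := abel_le G0 G1 _ _ fun m hm => by
    have := H.err1 hg hR hk hk' (m := m)
      ((Nat.mul_le_mul_left q (hm.trans (Nat.le_add_right _ _))).trans hJ)
    simpa only [BB, mul_sum, expect_sum_comm] using this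
  have c2 : |∑ j ∈ range J, G ^ j * b2 j| ≤ 5 * Θ ^ 5 * R ^ 7 := abel_le G0 G1 _ _ fun m hm => by
    refine (abs_sum_le_sum_abs _ _).trans ((sum_le_card_nsmul _ _ _ fun j hj =>
      H.err2 hR (hl j ((mem_range.1 hj).trans_le hm))).trans ?_)
    rw [card_range, nsmul_eq_mul]
    calc _ ≤ R ^ 4 * (5 * Θ ^ 4 * R ^ 3) :=
          mul_le_mul_of_nonneg_right ((Nat.cast_le.2 hm).trans hJ') (by positivity)
      _ = 1 * (5 * Θ ^ 4 * R ^ 7) := by ring
      _ ≤ Θ * (5 * Θ ^ 4 * R ^ 7) := mul_le_mul_of_nonneg_right h1 (by positivity)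
      _ = _ := by ring
  have c3 : |∑ j ∈ range J, G ^ j * b3 j| ≤ 5 * Θ ^ 5 * R ^ 7 := abel_le G0 G1 _ _ fun m hm =>
    H.err3 hg hR ((Nat.mul_le_mul_left q (Nat.add_le_add_right hm _)).trans hJ)
      fun _ => abs_one.trans_le h1
  have c4 : |∑ j ∈ range J, G ^ j * b4 j| ≤ 5 * Θ ^ 5 * R ^ 7 := abel_le G0 G1 _ _ fun m hm =>
    H.err3 hg hR ((Nat.mul_le_mul_left q (Nat.add_le_add_right hm _)).trans hJ) (H.bdd 0)
  have c5 : |∑ j ∈ range J, r j| ≤ R ^ 4 * (480 * Θ ^ 2 * s ^ 3) := by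
    refine (abs_sum_le_sum_abs _ _).trans ((sum_le_card_nsmul _ _ (480 * Θ ^ 2 * s ^ 3)
      fun j hj => ?_).trans ?_)
    · have b : ∀ t ω, |1 + y t ω| ≤ 2 * Θ := fun t ω =>
        (abs_add_le _ _).trans (by rw [abs_one]; linarith [H.bdd t ω])
      refine (abs_expect_le _ _).trans ((expect_le_expect (g := fun ω => 2 * Θ * (2 * Θ) *
        |void y a α (g + q * j) ω - gam a α (g + q * j) * (1 - κ * WW y a 1 (g + q * j) ω +
          κ ^ 2 * e2 y a 1 (g + q * j) ω)|) fun ω _ => ?_).trans ?_)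
      · rw [abs_mul, abs_mul]
        exact mul_le_mul_of_nonneg_right (mul_le_mul (b _ _) (b _ _) (abs_nonneg _)
          (by positivity)) (abs_nonneg _)
      · rw [← mul_expect]
        exact (mul_le_mul_of_nonneg_left (H.void_taylor hR (hl j (mem_range.1 hj)) hκ hs hs')
          (by positivity)).trans_eq (by ring)
    · rw [card_range, nsmul_eq_mul]
      exact mul_le_mul_of_nonneg_right hJ' (by positivity)
  have e : ∀ j, 𝔼 ω, (1 + y 0 ω) * (1 + y (g + 1 + q * j) ω) * void y a α (g + q * j) ω -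
      gam a α g * (G ^ j * (1 + 𝔼 ω, y 0 ω * y (g + 1 + q * j) ω -
        κ * (𝔼 ω, y 0 ω * WW y a 1 (g + q * j) ω +
          𝔼 ω, y (g + 1 + q * j) ω * WW y a 1 (g + q * j) ω) +
        κ ^ 2 * 𝔼 ω, e2 y a 1 (g + q * j) ω)) =
      r j + gam a α g * (κ ^ 2 * (G ^ j * b2 j + G ^ j * b3 j + G ^ j * b4 j) -
        κ * (G ^ j * b1 j)) := fun j => by
    have e1 : 𝔼 ω, (1 + y 0 ω) * (1 + y (g + 1 + q * j) ω) * void y a α (g + q * j) ω =
        r j + gam a α (g + q * j) * (𝔼 _ω : Ω, (1 : ℝ) + 𝔼 ω, y 0 ω + 𝔼 ω, y (g + 1 + q * j) ω +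
          𝔼 ω, y 0 ω * y (g + 1 + q * j) ω - κ * (𝔼 ω, WW y a 1 (g + q * j) ω +
            𝔼 ω, y 0 ω * WW y a 1 (g + q * j) ω +
            𝔼 ω, y (g + 1 + q * j) ω * WW y a 1 (g + q * j) ω + b1 j) +
          κ ^ 2 * (𝔼 ω, e2 y a 1 (g + q * j) ω + b2 j + b3 j + b4 j)) := by
      simp only [r, b1, b2, b3, b4, ← expect_add_distrib, mul_expect, ← expect_sub_distrib]
      exact expect_congr rfl fun ω _ => by ring
    rw [e1, H.mean, H.mean, H.E_WW, Fintype.expect_const, H.gam_add]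
    ring
  rw [mul_sum, ← sum_sub_distrib]
  simp only [e, sum_add_distrib, ← mul_sum, sum_sub_distrib]
  refine (abs_add_le _ _).trans ?_
  rw [abs_mul, abs_of_nonneg g0]
  refine (add_le_add c5 ((mul_le_of_le_one_left (abs_nonneg _) g1).trans (abs_sub _ _))).trans ?_
  rw [abs_mul, abs_mul, abs_of_pos κ0, abs_of_nonneg (sq_nonneg κ)]
  have d := (abs_add_le _ _).trans (add_le_add ((abs_add_le _ _).trans (add_le_add c2 c3)) c4)
  linarith [mul_le_mul_of_nonneg_left d (sq_nonneg κ), mul_le_mul_of_nonneg_left c1 κ0.le]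

theorem void_le {n : ℕ} {c : ℝ} (c0 : 0 < c) (hc : c ≤ ∑ i ∈ range n, a (1 + i)) :
    𝔼 ω, (1 + y 0 ω) * void y a α n ω ≤
      2 * Θ * (Real.exp (-(α * c / 2)) + 16 * (Θ * n) ^ 2 / c ^ 4) := by
  have h1 := H.one_le
  have b : ∀ ω, void y a α n ω ≤ Real.exp (-(α * c / 2)) + 16 / c ^ 4 * (WW y a 1 n ω ^ 2) ^ 2 := by
    intro ω
    rcases le_total |WW y a 1 n ω| (c / 2) with h | h
    · refine le_add_of_le_of_nonneg ((prod_le_prod (fun i _ => sub_nonneg.2 (H.factor_mem _ ω).2)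
        fun i _ => Real.one_sub_le_exp_neg _).trans ?_) (by positivity)
      rw [← Real.exp_sum, Real.exp_le_exp, sum_neg_distrib, neg_le_neg_iff]
      have e : ∑ i ∈ range n, a (1 + i) * (α * (1 + y (1 + i) ω)) =
          α * (∑ i ∈ range n, a (1 + i) + WW y a 1 n ω) := by
        rw [WW, ← sum_add_distrib, mul_sum]
        exact sum_congr rfl fun i _ => by ring
      rw [e, mul_div_assoc]
      exact mul_le_mul_of_nonneg_left (by linarith [neg_abs_le (WW y a 1 n ω)]) H.α0.le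
    · refine le_add_of_nonneg_of_le (Real.exp_pos _).le ((H.void_mem n ω).2.trans ?_)
      rw [div_mul_eq_mul_div, one_le_div (by positivity), ← sq_abs (WW y a 1 n ω)]
      calc c ^ 4 = 16 * (c / 2) ^ 4 := by ring
        _ ≤ 16 * |WW y a 1 n ω| ^ 4 := by gcongr
        _ = _ := by ring
  refine (expect_le_expect (g := fun ω => 2 * Θ * (Real.exp (-(α * c / 2)) +
    16 / c ^ 4 * (WW y a 1 n ω ^ 2) ^ 2)) fun ω _ => mul_le_mul
      (by linarith [H.bdd 0 ω, le_abs_self (y 0 ω)]) (b ω) (H.void_mem n ω).1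
      (by positivity)).trans ?_
  rw [← mul_expect, expect_add_distrib, Fintype.expect_const, ← mul_expect, ← sq_n2]
  refine mul_le_mul_of_nonneg_left (add_le_add_right ?_ _) (by positivity)
  rw [div_mul_eq_mul_div]
  exact div_le_div_of_nonneg_right (mul_le_mul_of_nonneg_left
    (pow_le_pow_left₀ (n2_nonneg _) (H.hW 1 n) 2) (by norm_num)) (by positivity)

end Sys2

end Pool.Agent.Lib.MP_a3b3a7_nt.M
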