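import Pool.Agent.Lib.MP_a3b3a7_nt.M.Param

/-! The expansions for integers free of small prime factors. -/

open Finset Function Real Filter
open scoped BigOperators

namespace Pool.Agent.Lib.MP_a3b3a7_nt.M

theorem at_z {ι : Type} [Fintype ι] [DecidableEq ι] {P : ι → ℕ} [hP : ∀ i, Fact (P i).Prime]
    (hinj : Injective P) {z : ℕ} (hz : ∀ i, P i ≤ z) (hz' : ∀ p, p.Prime → p ≤ z → ∃ i, P i = p)
    (i0 : ι) {C u : ℝ} (C0 : 0 < C) (hC : ∀ (V : Finset ℕ) (t : ℕ), 2 ≤ t →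
      (∀ p ∈ V, p.Prime ∧ p ≤ t) → ∑ p ∈ V, 1 / (p : ℝ) ≤ log (log t) + C)
    (hL : (u ^ 80) ^ 4 * ∏ i, (1 - 1 / (P i : ℝ)) = 1) (u3 : 3 ≤ u)
    (c1 : 4 * (P i0 : ℝ) ^ 2 * (rexp (81 * C) * 2000 ^ 81) ^ 2 * log u ^ 162 ≤ u)
    (c2 : 2 * (u ^ 80) ^ 24 ≤ z) {x : ℕ} (c3 : rexp (6 * (21 * (44 * P i0 * rexp (C + 2)) + 62) *
      log ((u ^ 80) ^ 4) ^ 3 * log z) ≤ x) :
    ∃ (S : Finset ι) (β α : ℝ) (R k J y : ℕ), Par P i0 S β α u (u ^ 80) R k J y ∧
      ∀ {A B : ZMod (P i0)}, A ≠ 0 → B ≠ 0 → ∀ {g : ℕ}, g < P i0 → B = A + (g + 1 : ℕ) →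
      |(P i0 - 1) ^ 2 * share (∏ i, P i) x (P i0) A B - mm P i0 S α J A g| ≤
        100 * (u ^ 16 / (u ^ 80) ^ 5) := by
  have q2 := two_le_cast (P i0)
  have u1 : 1 ≤ u := by linarith
  have lu : 1 ≤ log u := (le_log_iff_exp_le (by linarith)).2 (by linarith [exp_one_lt_d9])
  have w1 : u ≤ u ^ 80 := le_self_pow₀ u1 (by norm_num)
  have eC : 1 ≤ rexp (81 * C) := one_le_exp (by linarith)
  have a1 : 120000 * P i0 * log u ≤ u := by
    refine le_trans ?_ c1
    have b1 : (2000 : ℝ) ≤ rexp (81 * C) * 2000 ^ 81 :=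
      le_trans (by norm_num) (le_mul_of_one_le_left (by positivity) eC)
    exact mul_le_mul (by nlinarith [pow_le_pow_left₀ (by norm_num) b1 2])
      (le_self_pow₀ lu (by norm_num)) (by linarith) (by positivity)
  obtain ⟨R, k, J, R0, hR, hk, hk', hJ, J0, hE, hJ'⟩ := par_nat (hP i0).out.two_le lu u3 a1
  have el : log ((u ^ 80) ^ 4) = 320 * log u := by
    rw [log_pow, log_pow]; push_cast; ring
  have w24 : u ^ 80 ≤ (u ^ 80) ^ 24 := le_self_pow₀ (by linarith) (by norm_num)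
  obtain ⟨y, y1, y2⟩ : ∃ y : ℕ, (u ^ 80) ^ 24 ≤ y ∧ y ≤ 2 * (u ^ 80) ^ 24 :=
    ⟨_, Nat.le_ceil _, (Nat.ceil_lt_add_one (by positivity)).le.trans (by linarith)⟩
  have yz : y ≤ z := by exact_mod_cast y2.trans c2
  have y3 : (3 : ℝ) ≤ y := by linarith
  have hpr : ∀ (V : Finset ι), ∀ p ∈ V.image P, p.Prime := fun V p hp => by
    obtain ⟨i, -, rfl⟩ := mem_image.1 hp
    exact (hP i).out
  have hb := fun V : Finset ι => prod_bounds (hpr V)
  have hC' : ∀ (V : Finset ι) (t : ℕ), 2 ≤ t → (∀ i ∈ V, P i ≤ t) →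
      ∑ i ∈ V, 1 / (P i : ℝ) ≤ log (log t) + C := fun V t ht hV => by
    rw [← sum_image (f := fun p : ℕ => 1 / (p : ℝ)) hinj.injOn]
    refine hC _ t ht fun p hp => ⟨hpr V p hp, ?_⟩
    obtain ⟨i, hi, rfl⟩ := mem_image.1 hp
    exact hV i hi
  simp only [prod_image hinj.injOn, sum_image hinj.injOn] at hb
  have hqJ : ((P i0 * J : ℕ) : ℝ) ≤ (u ^ 80) ^ 8 :=
    calc _ ≤ (R : ℝ) ^ 4 := by
          exact_mod_cast le_trans (Nat.mul_le_mul_left _ (Nat.le_add_right _ _)) hJ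
      _ ≤ (u ^ 80 * u ^ 80) ^ 4 := pow_le_pow_left₀ (by positivity) (hR.trans (by gcongr)) 4
      _ = _ := by ring
  have w8 : (u ^ 80) ^ 8 ≤ y := (pow_le_pow_right₀ (by linarith) (by norm_num)).trans y1
  have hST := filter_union_filter_not_eq (fun i => P i ≤ y) (univ.erase i0)
  have hd := disjoint_filter_filter_not (univ.erase i0) (univ.erase i0) fun i => P i ≤ y
  have H : Par P i0 _ (∏ i ∈ univ.erase i0 with ¬ P i ≤ y, (1 - 1 / (P i : ℝ)))
      (∏ i ∈ univ.erase i0, (1 - 1 / (P i : ℝ))) u (u ^ 80) R k J y :=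
    { inj := hinj
      hi := fun h => notMem_erase i0 univ (mem_filter.1 h).1
      β1 := prod_le_one (fun i _ => (frac_mem P i).1) fun i _ => (frac_mem P i).2
      hα := by rw [mul_comm, prod_filter_mul_prod_filter_not]
      hL := by
        rw [← mul_prod_erase univ _ (mem_univ i0)] at hL
        field_simp at hL
        linarith
      hΘ := by
        refine le_trans ?_ c1
        rw [mul_assoc (4 * _), show 162 = 81 * 2 from rfl, pow_mul, ← mul_pow,
          prod_image hinj.injOn]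
        have b0 : 0 < log (y : ℝ) := log_pos (by linarith)
        have b1 : log (y : ℝ) ≤ 2000 * log u := by
          refine (log_le_log (by linarith) y2).trans ?_
          rw [log_mul two_ne_zero (by positivity), log_pow, log_pow]
          push_cast
          linarith [log_two_lt_d9]
        have b2 := hC' ((univ.erase i0).filter fun i => P i ≤ y) y (by exact_mod_cast
          (show (2 : ℝ) ≤ y by linarith)) fun i hi => (mem_filter.1 hi).2
        gcongr
        calc _ ≤ rexp (∑ i ∈ univ.erase i0 with P i ≤ y, 81 / (P i : ℝ)) :=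
              prod_one_add_le_exp_sum _ fun i => by positivity
          _ ≤ rexp (81 * C + (81 : ℕ) * log (log y)) := exp_le_exp.2 (by
              simp only [div_eq_mul_one_div (81 : ℝ), ← mul_sum]; push_cast; linarith)
          _ = rexp (81 * C) * log y ^ 81 := by rw [exp_add, exp_nat_mul, exp_log b0]
          _ ≤ rexp (81 * C) * (2000 * log u) ^ 81 := by gcongr
          _ = _ := by ring
      hw :=
        calc 16 * u ^ 3 ≤ u ^ 4 * u ^ 3 := by
              gcongr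
              exact le_trans (by norm_num) (pow_le_pow_left₀ (by norm_num) u3 4)
          _ = u ^ 7 := by ring
          _ ≤ _ := pow_le_pow_right₀ u1 (by norm_num)
      R0 := R0
      hR := hR
      hk := hk
      hk' := hk'
      hJ := hJ
      J0 := J0
      hE := hE
      hy := by exact_mod_cast hqJ.trans w8
      hy' := w8
      hU := fun p hp hy => by
        obtain ⟨i, rfl⟩ := hz' p hp (hy.trans yz)
        by_cases h : i = i0
        · rw [h]; exact mem_insert_self _ _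
        · exact mem_insert_of_mem (mem_image_of_mem _ (by simp [h, hy])) }
  obtain ⟨-, -, -, h4, h5, h6, -⟩ := H.basic
  have L0 : 0 < (u ^ 80) ^ 4 := by positivity
  have h2 : 2 ≤ P i0 * J := (hP i0).out.two_le.trans (Nat.le_mul_of_pos_right _ J0)
  have h2' : (2 : ℝ) ≤ (P i0 * J : ℕ) := by exact_mod_cast h2
  have β0 : 0 ≤ ∏ i ∈ univ.erase i0 with P i0 * J < P i, (1 - 1 / (P i : ℝ)) :=
    prod_nonneg fun i _ => (frac_mem P i).1
  have d1 : ∏ i ∈ univ.erase i0 with P i0 * J < P i, (1 - 1 / (P i : ℝ)) ≤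
      2 / (u ^ 80) ^ 4 * (rexp (C + 2) * (2 * log ((u ^ 80) ^ 4))) := by
    have b0 : 0 < log ((P i0 * J : ℕ) : ℝ) := log_pos (by linarith)
    have b1 : log ((P i0 * J : ℕ) : ℝ) ≤ 2 * log ((u ^ 80) ^ 4) := by
      refine (log_le_log (by linarith) hqJ).trans_eq ?_
      rw [log_pow, log_pow (u ^ 80)]; push_cast; ring
    have b2 := hC' ((univ.erase i0).filter fun i => ¬ P i0 * J < P i) _ h2
      fun i hi => not_lt.1 (mem_filter.1 hi).2
    have b3 := (exp_le_exp.2 (show -(C + 2 + log (log ((P i0 * J : ℕ) : ℝ))) ≤ _ by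
      linarith)).trans (hb ((univ.erase i0).filter fun i => ¬ P i0 * J < P i)).1
    rw [← prod_filter_mul_prod_filter_not _ fun i => P i0 * J < P i] at h6
    have b4 := (mul_le_mul_of_nonneg_left b3 β0).trans h6
    rw [exp_neg, ← div_eq_mul_inv, div_le_iff₀ (exp_pos _), exp_add, exp_log b0] at b4
    exact b4.trans (by gcongr)
  have d2 : ∑ i ∈ univ.erase i0, 1 / (P i : ℝ) ≤ log ((u ^ 80) ^ 4) := by
    rw [le_log_iff_exp_le L0]
    have b1 := h5.trans (hb (univ.erase i0)).2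
    rwa [exp_neg, one_div, inv_le_inv₀ L0 (exp_pos _)] at b1
  have d3 : (#(univ.erase i0) : ℝ) ≤ z := by
    have : #(univ.erase i0) ≤ #(Ioc 0 z) := card_le_card_of_injOn P
      (fun i _ => mem_Ioc.2 ⟨(hP i).out.pos, hz i⟩) hinj.injOn
    exact_mod_cast this.trans_eq (by simp)
  have l0 : 0 < log ((u ^ 80) ^ 4) := by linarith
  have d4 : (P i0 * J : ℕ) * ∏ i ∈ univ.erase i0 with P i0 * J < P i, (1 - 1 / (P i : ℝ)) ≤
      44 * P i0 * rexp (C + 2) * log ((u ^ 80) ^ 4) ^ 2 :=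
    calc _ ≤ P i0 * (11 * (u ^ 80) ^ 4 * log ((u ^ 80) ^ 4)) *
          (2 / (u ^ 80) ^ 4 * (rexp (C + 2) * (2 * log ((u ^ 80) ^ 4)))) := by
            push_cast
            gcongr
      _ = _ := by field_simp; ring
  have d5 : ((P i0 * J : ℕ) : ℝ) + 1 ≤ rexp (3 * log ((u ^ 80) ^ 4)) :=
    calc _ ≤ (u ^ 80) ^ 8 * 2 := by linarith [one_le_pow₀ (n := 8) h4]
      _ ≤ (u ^ 80) ^ 8 * (u ^ 80) ^ 4 := by
          gcongr
          linarith [le_self_pow₀ h4 (show 4 ≠ 0 by norm_num)]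
      _ = rexp ((3 : ℕ) * log ((u ^ 80) ^ 4)) := by rw [exp_nat_mul, exp_log L0]; ring
      _ = _ := by norm_num
  obtain ⟨K, r, hK⟩ := eta_ok (by linarith) (by positivity) d4 (mul_nonneg (Nat.cast_nonneg _) β0)
    d2 (Nat.cast_nonneg _) d5 (Nat.cast_nonneg _) d3 (by linarith) c3
  have x0 : 0 < x := by exact_mod_cast (exp_pos _).trans_le c3
  refine ⟨_, _, _, R, k, J, y, H, fun hA hB _ hg hAB => H.count_approx hST hd
    (fun i hi => not_le.1 (mem_filter.1 hi).2) rfl y1 x0 (fun A T hT => (brun hinj hz i0 A _ T r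
      x0).trans ?_) (hK.trans_eq ?_) hA hB hg hAB⟩
  · have : (#T : ℝ) ≤ K + 2 := by exact_mod_cast hT
    gcongr
  · rw [show (u ^ 80) ^ 20 = rexp ((5 : ℕ) * log ((u ^ 80) ^ 4)) by
      rw [exp_nat_mul, exp_log L0]; ring, one_div, ← exp_neg]
    norm_num

/-- The mean gap between integers prime to the primorial. -/
noncomputable def LL (z : ℕ) : ℝ := (primorial z : ℝ) / Nat.totient (primorial z)

theorem LL_eq (z : ℕ) : LL z = (∏ p ∈ Nat.primesLE z, (1 - 1 / (p : ℝ)))⁻¹ := by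
  have h := congrArg (Rat.cast (K := ℝ)) (Nat.totient_eq_mul_prod_factors (primorial z))
  have h0 : (primorial z : ℝ) ≠ 0 := by exact_mod_cast (primorial_pos z).ne'
  push_cast at h
  rw [LL, h, primeFactors_primorial, div_mul_cancel_left₀ h0]
  simp only [one_div]

theorem LL_bounds : ∃ C : ℝ, 0 < C ∧ (∀ (V : Finset ℕ) (t : ℕ), 2 ≤ t →
    (∀ p ∈ V, p.Prime ∧ p ≤ t) → ∑ p ∈ V, 1 / (p : ℝ) ≤ log (log t) + C) ∧
    ∀ z : ℕ, 2 ≤ z → rexp (log (log z) - C) ≤ LL z ∧ LL z ≤ rexp (log (log z) + C + 2) := by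
  obtain ⟨C, C0, h1, h2⟩ := mert
  refine ⟨C, C0, h1, fun z hz => ?_⟩
  obtain ⟨b1, b2⟩ := prod_bounds (V := Nat.primesLE z) fun p hp => Nat.prime_of_mem_primesLE hp
  have b0 := (exp_pos _).trans_le b1
  have b3 := h1 (Nat.primesLE z) z hz fun p hp => (Nat.mem_primesLE.1 hp).symm
  rw [LL_eq, le_inv_comm₀ (exp_pos _) b0, inv_le_comm₀ b0 (exp_pos _), ← exp_neg, ← exp_neg]
  exact ⟨b2.trans (exp_le_exp.2 (by linarith [h2 z hz])), (exp_le_exp.2 (by linarith)).trans b1⟩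

theorem llz : Tendsto (fun z : ℕ => log (log z)) atTop atTop :=
  tendsto_log_atTop.comp (tendsto_log_atTop.comp tendsto_natCast_atTop_atTop)

theorem LL_tendsto : Tendsto LL atTop atTop := by
  obtain ⟨C, -, -, h⟩ := LL_bounds
  exact tendsto_atTop_mono' _ ((eventually_ge_atTop 2).mono fun z hz => (h z hz).1)
    (tendsto_exp_atTop.comp (tendsto_atTop_add_const_right _ (-C) llz))

theorem main {q : ℕ} (hq : q.Prime) : ∀ᶠ z : ℕ in atTop, ∀ x : ℕ,
    (z : ℝ) ^ (log (log z) ^ 4) ≤ x →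
    (∀ A B : ZMod q, A ≠ 0 → B ≠ 0 → A ≠ B → |(q - 1) ^ 2 * share (primorial z) x q A B +
      (q - 1) ^ 2 * share (primorial z) x q B A -
      2 * (1 - (log (q / (2 * π)) - log (LL z)) / (2 * LL z))| ≤ 67000 * LL z ^ (-(6 / 5 : ℝ))) ∧
    ∀ A : ZMod q, A ≠ 0 → |(q - 1) ^ 2 * share (primorial z) x q A A -
      (1 + (q - 2) / (2 * LL z) * (log (q / (2 * π)) - log (LL z)))| ≤
      67000 * LL z ^ (-(6 / 5 : ℝ)) := by
  obtain ⟨C, C0, hC, hLL⟩ := LL_bounds
  have hu := (tendsto_rpow_atTop (show (0 : ℝ) < 1 / 320 by norm_num)).comp LL_tendsto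
  filter_upwards [hu.eventually (ev_log (4 * (q : ℝ) ^ 2 * (rexp (81 * C) * 2000 ^ 81) ^ 2) 162),
    hu.eventually_ge_atTop 3, eventually_ge_atTop q, eventually_ge_atTop 3,
    tendsto_natCast_atTop_atTop.eventually (ev_log (2 * rexp (C + 2) ^ 6) 6),
    llz.eventually_ge_atTop (C + 2),
    llz.eventually_ge_atTop (48 * (21 * (44 * q * rexp (C + 2)) + 62))]
    with z c1 u3 hqz z3 c2 c3 c4 x hx
  simp only [comp_apply] at c1 u3
  obtain ⟨l1, l2⟩ := hLL z (by omega)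
  have L0 : 0 < LL z := (exp_pos _).trans_le l1
  have z3' : (3 : ℝ) ≤ z := by exact_mod_cast z3
  have lz : 0 < log (z : ℝ) := log_pos (by linarith)
  have e1 : ((LL z ^ (1 / 320 : ℝ)) ^ 80) ^ 4 = LL z := by
    rw [← pow_mul, ← rpow_natCast, ← rpow_mul L0.le]; norm_num
  have e2 : (LL z ^ (1 / 320 : ℝ)) ^ 16 / ((LL z ^ (1 / 320 : ℝ)) ^ 80) ^ 5 =
      LL z ^ (-(6 / 5 : ℝ)) := by
    rw [← pow_mul, ← rpow_natCast, ← rpow_natCast, ← rpow_mul L0.le, ← rpow_mul L0.le,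
      ← rpow_sub L0]
    norm_num
  generalize LL z ^ (1 / 320 : ℝ) = u at c1 u3 e1 e2
  have hP : ∀ i : Nat.primesLE z, Fact (i : ℕ).Prime :=
    fun i => ⟨Nat.prime_of_mem_primesLE i.2⟩
  have L1 : 1 ≤ LL z := e1 ▸ one_le_pow₀ (one_le_pow₀ (by linarith))
  obtain ⟨S, β, α, R, k, J, y, H, hc⟩ := at_z (P := fun i : Nat.primesLE z => (i : ℕ))
    Subtype.val_injective (fun i => Nat.le_of_mem_primesLE i.2)
    (fun p hp h => ⟨⟨p, Nat.mem_primesLE.2 ⟨h, hp⟩⟩, rfl⟩) ⟨q, Nat.mem_primesLE.2 ⟨hqz, hq⟩⟩ C0 hC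
    (u := u) (x := x) (by
      rw [e1, prod_coe_sort _ fun p : ℕ => 1 - 1 / (p : ℝ), LL_eq]
      exact inv_mul_cancel₀ (inv_pos.1 (LL_eq z ▸ L0)).ne') u3 c1
    (by
      rw [exp_add, exp_add, exp_log lz, mul_assoc, ← exp_add] at l2
      calc _ = 2 * LL z ^ 6 := by rw [← e1]; ring
        _ ≤ 2 * (log z * rexp (C + 2)) ^ 6 := by gcongr
        _ = 2 * rexp (C + 2) ^ 6 * log z ^ 6 := by ring
        _ ≤ _ := c2)
    (by
      refine le_trans ?_ hx
      rw [rpow_def_of_pos (by linarith), mul_comm (log z), e1]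
      have b1 : log (LL z) ≤ 2 * log (log z) := by
        rw [log_le_iff_le_exp L0]
        exact l2.trans (exp_le_exp.2 (by linarith))
      have b2 := log_nonneg L1
      have b3 : 0 ≤ log (log z) := by linarith
      refine exp_le_exp.2 (mul_le_mul_of_nonneg_right ?_ lz.le)
      calc _ ≤ 6 * (21 * (44 * q * rexp (C + 2)) + 62) * (2 * log (log z)) ^ 3 := by gcongr
        _ = 48 * (21 * (44 * q * rexp (C + 2)) + 62) * log (log z) ^ 3 := by ring
        _ ≤ log (log z) * log (log z) ^ 3 := by gcongr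
        _ = _ := by ring)
  have d1 := fun {A} => H.diag (A := A)
  have d2 := fun {A B} => H.off (A := A) (B := B)
  rw [prod_coe_sort _ fun p : ℕ => p, ← primorial_eq_prod_primesLE] at hc
  simp only [e1, e2] at hc d1 d2
  have p0 : 0 ≤ LL z ^ (-(6 / 5 : ℝ)) := rpow_nonneg L0.le _
  have : Fact q.Prime := ⟨hq⟩
  have q0 := hq.pos
  refine ⟨fun A B hA hB hAB => ?_, fun A hA => ?_⟩
  · have v0 : 0 < (B - A).val := ZMod.val_pos.2 (sub_ne_zero.2 hAB.symm)
    have v1 := ZMod.val_lt (B - A)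
    obtain ⟨g, hg⟩ := Nat.exists_eq_add_one.2 v0
    obtain ⟨g', hg'⟩ : ∃ g', g + 1 + (g' + 1) = q := ⟨q - g - 2, by omega⟩
    have e3 : B = A + (g + 1 : ℕ) := by rw [← hg, ZMod.natCast_zmod_val, add_sub_cancel]
    have e4 : A = B + (g' + 1 : ℕ) := by
      rw [e3, add_assoc, ← Nat.cast_add, hg', ZMod.natCast_self, add_zero]
    have a1 := abs_le.1 (hc hA hB (g := g) (by omega) e3)
    have a2 := abs_le.1 (hc hB hA (g := g') (by omega) e4)
    have a3 := abs_le.1 (d2 hA hB hg' e3)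
    rw [abs_le]
    constructor <;> linarith [a1.1, a1.2, a2.1, a2.2, a3.1, a3.2]
  · have a1 := abs_le.1 (hc hA hA (g := q - 1) (by omega) (by
      rw [show q - 1 + 1 = q by omega, ZMod.natCast_self, add_zero]))
    have a2 := abs_le.1 (d1 hA)
    rw [abs_le]
    constructor <;> linarith [a1.1, a1.2, a2.1, a2.2]

end Pool.Agent.Lib.MP_a3b3a7_nt.M
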