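import Pool.Agent.Lib.MP_a3b3a7_nt.M.Moment
import Pool.Agent.Lib.MP_a3b3a7_nt.M.Expand

/-! Large primes act like an independent thinning. -/

open Finset Function
open scoped BigOperators

namespace Pool.Agent.Lib.MP_a3b3a7_nt.M

theorem ml (A ε : ℕ → ℝ) (hA : ∀ t, |A t| ≤ 1) (hε : ∀ t, |A t + ε t| ≤ 1) (T : Finset ℕ) :
    |∏ t ∈ T, (A t + ε t) - ∏ t ∈ T, A t| ≤ ∑ t ∈ T, |ε t| ∧
    |∏ t ∈ T, (A t + ε t) - ∏ t ∈ T, A t - ∑ t ∈ T, ε t * ∏ s ∈ T.erase t, A s| ≤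
      (∑ t ∈ T, |ε t|) ^ 2 - ∑ t ∈ T, |ε t| ^ 2 := by
  induction T using Finset.induction_on with
  | empty => simp
  | insert k T hk ih =>
    obtain ⟨h1, h2⟩ := ih
    have hY : |∏ t ∈ T, A t| ≤ 1 := by
      rw [abs_prod]; exact prod_le_one (fun _ _ => abs_nonneg _) fun t _ => hA t
    have e : ∑ t ∈ T, ε t * ∏ s ∈ (insert k T).erase t, A s =
        A k * ∑ t ∈ T, ε t * ∏ s ∈ T.erase t, A s := by
      rw [mul_sum]
      refine sum_congr rfl fun t ht => ?_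
      rw [erase_insert_of_ne (ne_of_mem_of_not_mem ht hk).symm, prod_insert fun h => hk (mem_of_mem_erase h)]
      ring
    have s0 : 0 ≤ ∑ t ∈ T, |ε t| := sum_nonneg fun _ _ => abs_nonneg _
    simp only [prod_insert hk, sum_insert hk, erase_insert hk, e]
    generalize ∏ t ∈ T, (A t + ε t) = X at *
    generalize ∏ t ∈ T, A t = Y at *
    generalize ∑ t ∈ T, ε t * ∏ s ∈ T.erase t, A s = Z at *
    have a1 : |(A k + ε k) * (X - Y)| ≤ ∑ t ∈ T, |ε t| := by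
      rw [abs_mul]; exact (mul_le_of_le_one_left (abs_nonneg _) (hε k)).trans h1
    have a2 : |ε k * Y| ≤ |ε k| := by
      rw [abs_mul]; exact mul_le_of_le_one_right (abs_nonneg _) hY
    have a3 : |A k * (X - Y - Z)| ≤ (∑ t ∈ T, |ε t|) ^ 2 - ∑ t ∈ T, |ε t| ^ 2 := by
      rw [abs_mul]; exact (mul_le_of_le_one_left (abs_nonneg _) (hA k)).trans h2
    have a4 : |ε k * (X - Y)| ≤ |ε k| * ∑ t ∈ T, |ε t| := by
      rw [abs_mul]; exact mul_le_mul_of_nonneg_left h1 (abs_nonneg _)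
    have a5 := mul_nonneg (abs_nonneg (ε k)) s0
    constructor
    · rw [show (A k + ε k) * X - A k * Y = (A k + ε k) * (X - Y) + ε k * Y by ring]
      exact (abs_add_le _ _).trans (by linarith)
    · rw [show (A k + ε k) * X - A k * Y - (ε k * Y + A k * Z) =
        A k * (X - Y - Z) + ε k * (X - Y) by ring]
      exact (abs_add_le _ _).trans (by nlinarith)

theorem hit_mem (p t : ℕ) (a : ZMod p) : 0 ≤ 1 - hit p t a ∧ 1 - hit p t a ≤ 1 := by
  unfold hit; split_ifs <;> norm_num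

theorem av_step {p : ℕ} [hp : Fact p.Prime] {n : ℕ} (hn : n ≤ p) (u w s : ℕ → ℝ)
    (h : ∀ t (z : ℝ), 0 ≤ z → z ≤ 1 → |u t + w t * z| ≤ 1) (hw : ∀ t, |w t| ≤ 1)
    (s0 : ∀ t, 0 ≤ s t) (s1 : ∀ t, s t ≤ 1) :
    |𝔼 r : ZMod p, ∏ t ∈ range n, (u t + w t * ((1 - hit p t r) * s t)) -
      ∏ t ∈ range n, (u t + w t * ((1 - 1 / (p : ℝ)) * s t))| ≤ (n : ℝ) ^ 2 * (1 / (p : ℝ) ^ 2) := by
  have p2 := two_le_cast p
  have hA : ∀ t, |u t + w t * s t| ≤ 1 := fun t => h t _ (s0 t) (s1 t)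
  have key : ∀ c : ℕ → ℝ, (∀ t, 0 ≤ 1 - c t ∧ 1 - c t ≤ 1) →
      |∏ t ∈ range n, (u t + w t * ((1 - c t) * s t)) - ∏ t ∈ range n, (u t + w t * s t) -
        ∑ t ∈ range n, c t * (-(w t * s t) * ∏ k ∈ (range n).erase t, (u k + w k * s k))| ≤
      (∑ t ∈ range n, |c t * -(w t * s t)|) ^ 2 - ∑ t ∈ range n, |c t * -(w t * s t)| ^ 2 := by
    intro c hc
    have e : ∀ t, u t + w t * s t + c t * -(w t * s t) = u t + w t * ((1 - c t) * s t) :=
      fun t => by ring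
    have := (ml (fun t => u t + w t * s t) (fun t => c t * -(w t * s t)) hA (fun t => by
      rw [e]
      exact h t _ (mul_nonneg (hc t).1 (s0 t)) (mul_le_one₀ (hc t).2 (s0 t) (s1 t))) (range n)).2
    simpa only [e, mul_assoc] using this
  have e1 : ∀ r : ZMod p, ∏ t ∈ range n, (u t + w t * ((1 - hit p t r) * s t)) =
      ∏ t ∈ range n, (u t + w t * s t) + ∑ t ∈ range n, hit p t r *
        (-(w t * s t) * ∏ k ∈ (range n).erase t, (u k + w k * s k)) := fun r => by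
    have h1 := key (fun t => hit p t r) fun t => hit_mem p t r
    have h2 : (∑ t ∈ range n, |hit p t r * -(w t * s t)|) ^ 2 =
        ∑ t ∈ range n, |hit p t r * -(w t * s t)| ^ 2 := by
      rw [sq, sum_mul_sum]
      refine sum_congr rfl fun t ht => ?_
      rw [sum_eq_single t (fun k hk hkt => ?_) fun h => (h ht).elim, sq]
      rw [← abs_mul, mul_mul_mul_comm, hit_mul, if_neg, zero_mul, abs_zero]
      rw [ZMod.natCast_eq_natCast_iff', Nat.mod_eq_of_lt ((mem_range.1 ht).trans_le hn),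
        Nat.mod_eq_of_lt ((mem_range.1 hk).trans_le hn)]
      exact hkt.symm
    rw [h2, sub_self, abs_nonpos_iff] at h1
    linarith
  have h1 := key (fun _ => 1 / (p : ℝ)) fun _ =>
    ⟨sub_nonneg.2 (div_le_one_of_le₀ (by linarith) (by linarith)), sub_le_self _ (by positivity)⟩
  have h2 : ∑ t ∈ range n, |1 / (p : ℝ) * -(w t * s t)| ≤ n * (1 / (p : ℝ)) := by
    refine (sum_le_card_nsmul _ _ (1 / (p : ℝ)) fun t _ => ?_).trans (by simp)
    rw [abs_mul, abs_neg, abs_mul, abs_of_nonneg (s0 t), abs_of_nonneg (by positivity)]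
    exact mul_le_of_le_one_right (by positivity) (mul_le_one₀ (hw t) (s0 t) (s1 t))
  have h3 := pow_le_pow_left₀ (sum_nonneg fun _ _ => abs_nonneg _) h2 2
  have h4 : 0 ≤ ∑ t ∈ range n, |1 / (p : ℝ) * -(w t * s t)| ^ 2 := sum_nonneg fun _ _ => sq_nonneg _
  simp only [e1]
  rw [expect_add_distrib, expect_const univ_nonempty, expect_sum_comm]
  simp only [← expect_mul, E_hit]
  rw [mul_pow, one_div_pow] at h3
  rw [abs_sub_comm, ← sub_sub]
  linarith

variable {ι : Type} [Fintype ι] [DecidableEq ι] (P : ι → ℕ) [hP : ∀ i, Fact (P i).Prime]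

/-- Survival of position `t` for the primes in `S`. -/
noncomputable def xs (S : Finset ι) (t : ℕ) (ω : ∀ i, ZMod (P i)) : ℝ :=
  ∏ i ∈ S, (1 - hit (P i) t (ω i))

/-- Probability of a pattern after thinning with rate `β`. -/
noncomputable def pat (u w : ℕ → ℝ) (n : ℕ) (S : Finset ι) (β : ℝ) (ω : ∀ i, ZMod (P i)) : ℝ :=
  ∏ t ∈ range n, (u t + w t * (β * xs P S t ω))

omit [Fintype ι] [DecidableEq ι] hP in
theorem xs_mem (S : Finset ι) (t : ℕ) (ω : ∀ i, ZMod (P i)) : 0 ≤ xs P S t ω ∧ xs P S t ω ≤ 1 :=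
  ⟨prod_nonneg fun _ _ => (hit_mem ..).1,
    prod_le_one (fun _ _ => (hit_mem ..).1) fun _ _ => (hit_mem ..).2⟩

omit [Fintype ι] hP in
theorem xs_update {S : Finset ι} {i : ι} (hi : i ∉ S) (t : ℕ) (ω : ∀ i, ZMod (P i))
    (r : ZMod (P i)) : xs P S t (update ω i r) = xs P S t ω :=
  prod_congr rfl fun k hk => by rw [update_of_ne (ne_of_mem_of_not_mem hk hi)]

omit [Fintype ι] [DecidableEq ι] in
theorem frac_mem (i : ι) : 0 ≤ 1 - 1 / (P i : ℝ) ∧ 1 - 1 / (P i : ℝ) ≤ 1 := by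
  have := two_le_cast (P i)
  exact ⟨sub_nonneg.2 (div_le_one_of_le₀ (by linarith) (by linarith)),
    sub_le_self _ (by positivity)⟩

omit [Fintype ι] [DecidableEq ι] in
theorem xs_eq (S : Finset ι) (t : ℕ) (ω : ∀ i, ZMod (P i)) :
    xs P S t ω = (∏ i ∈ S, (1 - 1 / (P i : ℝ))) * (1 + yy P S t ω) := by
  rw [yy, add_sub_cancel, ← prod_mul_distrib]
  refine prod_congr rfl fun i _ => ?_
  have := two_le_cast (P i)
  have h1 : (P i : ℝ) - 1 ≠ 0 := by linarith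
  have h2 : (P i : ℝ) ≠ 0 := by linarith
  rw [one_add_nu]
  field_simp

theorem thin {u w : ℕ → ℝ} (h : ∀ t (z : ℝ), 0 ≤ z → z ≤ 1 → |u t + w t * z| ≤ 1)
    (hw : ∀ t, |w t| ≤ 1) {n : ℕ} (S T : Finset ι) : Disjoint S T → (∀ i ∈ T, n ≤ P i) →
    ∀ β : ℝ, 0 ≤ β → β ≤ 1 → |𝔼 ω, pat P u w n (S ∪ T) β ω -
      𝔼 ω, pat P u w n S (β * ∏ i ∈ T, (1 - 1 / (P i : ℝ))) ω| ≤
      (n : ℝ) ^ 2 * ∑ i ∈ T, 1 / (P i : ℝ) ^ 2 := by
  induction T using Finset.induction_on with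
  | empty => intro _ _ β _ _; simp
  | insert i T hi ih =>
    intro hd hn β β0 β1
    obtain ⟨hiS, hd⟩ := disjoint_insert_right.1 hd
    obtain ⟨hn, hT⟩ := (forall_mem_insert _ _ _).1 hn
    have hi' : i ∉ S ∪ T := by simp [hiS, hi]
    have h1 := ih hd hT (β * (1 - 1 / (P i : ℝ))) (mul_nonneg β0 (frac_mem P i).1)
      (mul_le_one₀ β1 (frac_mem P i).1 (frac_mem P i).2)
    rw [union_insert, prod_insert hi, sum_insert hi, ← mul_assoc, mul_add]
    refine (abs_sub_le _ _ _).trans (add_le_add ?_ h1)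
    rw [← E_av i, ← expect_sub_distrib]
    refine (abs_expect_le _ _).trans (expect_le univ_nonempty fun ω _ => ?_)
    refine (le_of_eq (congrArg abs ?_)).trans (av_step hn u w (fun t => β * xs P (S ∪ T) t ω) h hw
      (fun t => mul_nonneg β0 (xs_mem ..).1) fun t => mul_le_one₀ β1 (xs_mem ..).1 (xs_mem ..).2)
    unfold pat
    congr 1
    · refine expect_congr rfl fun r _ => prod_congr rfl fun t _ => ?_
      rw [xs, prod_insert hi', update_self, ← xs, xs_update P hi']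
      ring
    · exact prod_congr rfl fun t _ => by ring

/-- Constant terms of the gap pattern. -/
def uu (n t : ℕ) : ℝ := if t = 0 ∨ t = n + 1 then 0 else 1

/-- Linear terms of the gap pattern. -/
def ww (a : ℕ → ℝ) (n t : ℕ) : ℝ := if t = 0 ∨ t = n + 1 then 1 else -a t

theorem uw_le {a : ℕ → ℝ} (ha : ∀ t, a t = 0 ∨ a t = 1) (n t : ℕ) (z : ℝ) (z0 : 0 ≤ z)
    (z1 : z ≤ 1) : |uu n t + ww a n t * z| ≤ 1 := by
  unfold uu ww
  rw [abs_le]
  split_ifs
  · constructor <;> linarith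
  · rcases ha t with h | h <;> rw [h] <;> constructor <;> linarith

theorem ww_le {a : ℕ → ℝ} (ha : ∀ t, a t = 0 ∨ a t = 1) (n t : ℕ) : |ww a n t| ≤ 1 := by
  unfold ww
  split_ifs
  · norm_num
  · rcases ha t with h | h <;> rw [h] <;> norm_num

theorem prod_void (a s : ℕ → ℝ) (n : ℕ) : ∏ t ∈ range (n + 1), (uu n t + ww a n t * s t) =
    s 0 * ∏ i ∈ range n, (1 - a (1 + i) * s (1 + i)) := by
  rw [prod_range_succ', mul_comm]
  congr 1
  · simp [uu, ww]
  · refine prod_congr rfl fun i hi => ?_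
    have : ¬ (i + 1 = 0 ∨ i + 1 = n + 1) := by have := mem_range.1 hi; omega
    rw [uu, ww, if_neg this, if_neg this, add_comm i]
    ring

theorem prod_gap (a s : ℕ → ℝ) (n : ℕ) : ∏ t ∈ range (n + 2), (uu n t + ww a n t * s t) =
    s 0 * s (n + 1) * ∏ i ∈ range n, (1 - a (1 + i) * s (1 + i)) := by
  rw [prod_range_succ, prod_void]
  simp only [uu, ww, or_true, if_true]
  ring

end Pool.Agent.Lib.MP_a3b3a7_nt.M
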