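import Pool.Agent.Lib.MP_a3b3a7_nt.M.Core
import Pool.Agent.Lib.MP_a3b3a7_nt.M.Thin

/-! The expansion in the thinned sieve model. -/

open Finset Function Real
open scoped BigOperators

namespace Pool.Agent.Lib.MP_a3b3a7_nt.M

theorem mono {u w c : ℝ} (hu : 1 ≤ u) (hw : 1 ≤ w) (hc : 0 ≤ c) {a d n e : ℕ} (ha : a ≤ n)
    (hd : e ≤ d) : c * (u ^ a / w ^ d) ≤ c * (u ^ n / w ^ e) :=
  mul_le_mul_of_nonneg_left (div_le_div₀ (by positivity) (pow_le_pow_right₀ hu ha) (by positivity)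
    (pow_le_pow_right₀ hw hd)) hc

theorem aa01 (q : ℕ) (A : ZMod q) (t : ℕ) : aa q A t = 0 ∨ aa q A t = 1 := by
  unfold aa hit; split_ifs <;> simp

theorem aa_le (q : ℕ) (A : ZMod q) (t : ℕ) : |aa q A t| ≤ 1 := by
  rcases aa01 q A t with h | h <;> rw [h] <;> norm_num

theorem aa_per (q : ℕ) (A : ZMod q) (t s : ℕ) : aa q A (t + q * s) = aa q A t := by
  simp [aa, hit]

theorem aa_add (q : ℕ) (A : ZMod q) (s t : ℕ) : aa q A (s + t) = aa q (A + s) t := by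
  simp only [aa, hit, Nat.cast_add, add_assoc]

theorem aa_zero {q : ℕ} {A : ZMod q} (hA : A ≠ 0) : aa q A 0 = 1 := by
  simp [aa, hit, hA]

theorem sum_aa {q : ℕ} [Fact q.Prime] (A : ZMod q) : ∑ i ∈ range q, aa q A (1 + i) = q - 1 := by
  have h := sum_succ (q := q) fun v => 1 - if A + v = 0 then 1 else 0
  simp only [add_eq_zero_iff_eq_neg', sum_sub_distrib, sum_const, card_univ, ZMod.card,
    sum_ite_eq', mem_univ, if_true, nsmul_eq_mul, mul_one, card_range] at h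
  simp only [aa, hit, add_comm 1, add_eq_zero_iff_eq_neg', sum_sub_distrib, sum_const,
    nsmul_eq_mul, mul_one, card_range, h]

variable {ι : Type} [Fintype ι] [DecidableEq ι] {P : ι → ℕ} [hP : ∀ i, Fact (P i).Prime]

theorem E_one_add (S : Finset ι) (t : ℕ) : 𝔼 ω, yy P S t ω = 0 := by
  unfold yy
  rw [expect_sub_distrib, E_prod S fun i a => 1 + nu (P i) t a]
  simp [expect_add_distrib, E_nu]

theorem cor_yy (hinj : Injective P) (S : Finset ι) (d : ℕ) :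
    cor (yy P S) d = ∏ p ∈ S.image P, loc p d - 1 := by
  have e : ∀ ω, yy P S 0 ω * yy P S d ω = ∏ i ∈ S, ((1 + nu (P i) 0 (ω i)) *
      (1 + nu (P i) d (ω i))) - 1 - yy P S 0 ω - yy P S d ω := fun ω => by
    rw [prod_mul_distrib, yy, yy]; ring
  simp only [cor, e, expect_sub_distrib, E_one_add, sub_zero, expect_const univ_nonempty]
  rw [E_prod S fun i a => (1 + nu (P i) 0 a) * (1 + nu (P i) d a), prod_image hinj.injOn]
  congr 1
  refine prod_congr rfl fun i _ => ?_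
  simp only [add_mul, mul_add, one_mul, mul_one, expect_add_distrib, E_nu, E_nu_mul, loc,
    expect_const univ_nonempty, add_zero, zero_add, Nat.cast_zero, eq_comm (a := (0 : ZMod _)),
    ZMod.natCast_eq_zero_iff]

/-- The parameters of the model. -/
structure Par (P : ι → ℕ) (i0 : ι) (S : Finset ι) (β α u w : ℝ) (R k J y : ℕ) : Prop where
  inj : Injective P
  hi : i0 ∉ S
  β1 : β ≤ 1
  hα : α = β * ∏ i ∈ S, (1 - 1 / (P i : ℝ))
  hL : α * w ^ 4 * (P i0 - 1) = P i0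
  hΘ : 4 * (P i0 : ℝ) ^ 2 * (∏ p ∈ S.image P, (1 + 81 / (p : ℝ))) ^ 2 ≤ u
  hw : 16 * u ^ 3 ≤ w
  R0 : 0 < R
  hR : R ≤ u * w
  hk : R ^ 4 ≤ 2 ^ k
  hk' : (k : ℝ) + 1 ≤ u
  hJ : P i0 * (J + R ^ 2) ≤ R ^ 4
  J0 : 0 < J
  hE : rexp (-(J / (2 * w ^ 4))) ≤ 1 / w ^ 20
  hy : P i0 * J ≤ y
  hy' : w ^ 8 ≤ y
  hU : ∀ p, p.Prime → p ≤ y → p ∈ insert (P i0) (S.image P)

/-- The normalised probability of the gap class. -/
noncomputable def mm (P : ι → ℕ) [∀ i, Fact (P i).Prime] (i0 : ι) (S : Finset ι) (α : ℝ) (J : ℕ) (A : ZMod (P i0))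
    (g : ℕ) : ℝ :=
  (P i0 - 1) * α * ∑ j ∈ range J, 𝔼 ω, (1 + yy P S 0 ω) * (1 + yy P S (g + 1 + P i0 * j) ω) *
    void (yy P S) (aa _ A) α (g + P i0 * j) ω

/-- The smoothing parameter. -/
noncomputable def xx (q : ℕ) (α : ℝ) : ℝ := -((q - 1) / q * log (1 - α))

namespace Par

variable {i0 : ι} {S : Finset ι} {β α u w : ℝ} {R k J y : ℕ} (H : Par P i0 S β α u w R k J y)
include H

omit [Fintype ι] [DecidableEq ι] in
theorem basic : (P i0 : ℝ) ≤ u ∧ ∏ p ∈ S.image P, (1 + 81 / (p : ℝ)) ≤ u ∧ 1 ≤ u ∧ 1 ≤ w ∧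
    1 / w ^ 4 ≤ α ∧ α ≤ 2 / w ^ 4 ∧ P i0 * α ≤ 1 / 4 := by
  have q2 := two_le_cast (P i0)
  have h1 : 1 ≤ ∏ p ∈ S.image P, (1 + 81 / (p : ℝ)) :=
    one_le_prod fun p _ => le_add_of_nonneg_right (by positivity)
  have h2 := H.hΘ
  have h3 := H.hw
  have h4 := H.hL
  generalize ∏ p ∈ S.image P, (1 + 81 / (p : ℝ)) = K at *
  generalize (P i0 : ℝ) = q at *
  have a1 : q ≤ q ^ 2 := by nlinarith
  have a2 : K ≤ K ^ 2 := by nlinarith
  have a3 : q ≤ u := by nlinarith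
  have a4 : u ≤ u ^ 3 := le_self_pow₀ (by linarith) (by norm_num)
  have a5 : w ≤ w ^ 4 := le_self_pow₀ (by linarith) (by norm_num)
  have a6 : α * w ^ 4 ≤ 2 := by
    refine le_of_mul_le_mul_right ?_ (show 0 < q - 1 by linarith)
    linarith
  have a7 : 1 ≤ α * w ^ 4 := by
    refine le_of_mul_le_mul_right ?_ (show 0 < q - 1 by linarith)
    linarith
  have w0 : 0 < w ^ 4 := by linarith
  have α0 : 0 < α := pos_of_mul_pos_left (b := w ^ 4) (by linarith) w0.le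
  refine ⟨a3, by nlinarith, by linarith, by linarith, (div_le_iff₀ w0).2 a7,
    (le_div_iff₀ w0).2 a6, ?_⟩
  nlinarith [mul_le_mul_of_nonneg_right (show 16 * q ≤ w ^ 4 by linarith) α0.le]

theorem sys (A : ZMod (P i0)) :
    Sys2 (yy P S) (aa _ A) (fun s ω i => ω i + s) (P i0) u α := by
  obtain ⟨h1, h2, h3, h4, h5, h6, h7⟩ := H.basic
  have q2 := two_le_cast (P i0)
  have α0 : 0 < α := lt_of_lt_of_le (by positivity) h5
  have hΘ := H.hΘ
  rw [prod_image H.inj.injOn] at h2 hΘ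
  have K1 : 1 ≤ ∏ i ∈ S, (1 + 81 / (P i : ℝ)) :=
    one_le_prod fun p _ => le_add_of_nonneg_right (by positivity)
  have y0 : ∀ t ω, 0 ≤ 1 + yy P S t ω ∧ 1 + yy P S t ω ≤ ∏ i ∈ S, (1 + 81 / (P i : ℝ)) := by
    intro t ω
    have hf : ∀ i, 0 ≤ 1 + nu (P i) t (ω i) ∧ 1 + nu (P i) t (ω i) ≤ 1 + 81 / (P i : ℝ) := by
      intro i
      have p2 := two_le_cast (P i)
      have p0 : 0 ≤ (P i : ℝ) / (P i - 1) := div_nonneg (by linarith) (by linarith)
      rw [one_add_nu]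
      refine ⟨mul_nonneg (hit_mem ..).1 p0, (mul_le_of_le_one_left p0 (hit_mem ..).2).trans ?_⟩
      rw [one_add_div (by linarith), div_le_div_iff₀ (by linarith) (by linarith)]
      nlinarith
    rw [yy, add_sub_cancel]
    exact ⟨prod_nonneg fun i _ => (hf i).1, prod_le_prod (fun i _ => (hf i).1) fun i _ => (hf i).2⟩
  have bdd : ∀ t ω, |yy P S t ω| ≤ ∏ i ∈ S, (1 + 81 / (P i : ℝ)) := fun t ω =>
    abs_le.2 ⟨by linarith [(y0 t ω).1], by linarith [(y0 t ω).2]⟩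
  have hV : ∀ c m, n4 (VV (yy P S) (P i0) c m) ≤ (∏ i ∈ S, (1 + 81 / (P i : ℝ))) * m := by
    intro c m
    have hi : Injective fun j => c + P i0 * j := fun a b h =>
      Nat.eq_of_mul_eq_mul_left (hP i0).out.pos (Nat.add_left_cancel h)
    have h := fourth_moment P (spread_AP P H.inj (hP i0).out
      (fun i hi e => H.hi (H.inj e ▸ hi)) (c := c) (m := m) rfl)
    simp only [sum_image hi.injOn, card_image_of_injective _ hi, card_range] at h
    refine sqrt_le_iff.2 ⟨by positivity, h.trans ?_⟩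
    rw [mul_pow, mul_comm]
    exact mul_le_mul_of_nonneg_right (le_self_pow₀ K1 two_ne_zero) (by positivity)
  exact
    { bij := fun s => (Equiv.addRight fun i => (s : ZMod (P i))).bijective
      y_sh := fun t s ω => by simp only [yy, nu, hit, add_comm t s, Nat.cast_add, add_assoc]
      per := aa_per _ A
      a_le := aa_le _ A
      one_le := h3
      q_le := h1
      bdd := fun t ω => (bdd t ω).trans h2
      hV := fun c m => (hV c m).trans (mul_le_mul_of_nonneg_right h2 (by positivity))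
      hW := fun s n => (hW_of_hV (hP i0).out.pos (aa_per _ A) (aa_le _ A) K1 bdd hV s n).trans
        (mul_le_mul_of_nonneg_right hΘ (by positivity))
      a01 := aa01 _ A
      mean := E_one_add S
      α0 := α0
      α1 := by nlinarith
      y0 := fun t ω => (y0 t ω).1
      y1 := fun t ω => by
        have := (xs_mem P S t ω).2
        have h0 : 0 ≤ (∏ i ∈ S, (1 - 1 / (P i : ℝ))) * (1 + yy P S t ω) :=
          xs_eq P S t ω ▸ (xs_mem P S t ω).1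
        rw [xs_eq] at this
        rw [H.hα, mul_assoc]
        exact (mul_le_of_le_one_left h0 H.β1).trans this }

omit [Fintype ι] [DecidableEq ι] in
theorem x_facts : rexp (-xx (P i0) α) ^ P i0 = (1 - α) ^ (P i0 - 1) ∧ 1 / w ^ 4 ≤ xx (P i0) α ∧
    xx (P i0) α ≤ 2 / w ^ 4 ∧ P i0 * xx (P i0) α ≤ 1 ∧
    |log (P i0 * xx (P i0) α / (2 * π)) - (log (P i0 / (2 * π)) - log (w ^ 4))| ≤ 4 / w ^ 4 := by
  obtain ⟨h1, h2, h3, h4, h5, h6, h7⟩ := H.basic
  have q2 := two_le_cast (P i0)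
  have α0 : 0 < α := lt_of_lt_of_le (by positivity) h5
  have α1 : α ≤ 1 / 8 := by nlinarith
  have a1 := log_le_sub_one_of_pos (show 0 < 1 - α by linarith)
  have a2 : -log (1 - α) ≤ α * (1 + 2 * α) := by
    have a3 := one_sub_inv_le_log_of_pos (show 0 < 1 - α by linarith)
    have a4 : (1 - α)⁻¹ ≤ 1 + α * (1 + 2 * α) := by
      rw [inv_eq_one_div, div_le_iff₀ (by linarith)]
      nlinarith [mul_pos α0 α0]
    linarith
  have w0 : 0 < w ^ 4 := by positivity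
  have hL := H.hL
  have e : xx (P i0) α * w ^ 4 = -log (1 - α) / α := by
    rw [xx, eq_div_iff α0.ne']
    field_simp
    linear_combination (-log (1 - α)) * hL
  have b1 : 1 ≤ xx (P i0) α * w ^ 4 := by rw [e, le_div_iff₀ α0]; linarith
  have b2 : xx (P i0) α * w ^ 4 ≤ 1 + 2 * α := by rw [e, div_le_iff₀ α0]; linarith
  have x0 : 0 < xx (P i0) α := pos_of_mul_pos_left (b := w ^ 4) (by linarith) w0.le
  refine ⟨?_, (div_le_iff₀ w0).2 b1, (le_div_iff₀ w0).2 (by linarith), ?_, ?_⟩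
  · rw [← exp_nat_mul, xx, neg_neg, ← mul_assoc, mul_div_cancel₀ _ (by linarith),
      ← Nat.cast_pred (hP i0).out.pos, exp_nat_mul, exp_log (by linarith)]
  · rw [xx, mul_neg, ← mul_assoc, mul_div_cancel₀ _ (by linarith)]
    nlinarith
  · have e2 : log (P i0 * xx (P i0) α / (2 * π)) - (log (P i0 / (2 * π)) - log (w ^ 4)) =
        log (xx (P i0) α * w ^ 4) := by
      rw [mul_div_right_comm, log_mul (div_pos (by linarith) (by linarith [pi_pos])).ne' x0.ne',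
        log_mul x0.ne' w0.ne']
      ring
    have b3 := log_le_sub_one_of_pos (mul_pos x0 w0)
    rw [e2, abs_of_nonneg (log_nonneg b1), show 4 / w ^ 4 = 2 * (2 / w ^ 4) by ring]
    linarith

theorem approx (A : ZMod (P i0)) {g : ℕ} (hg : g < P i0) :
    |mm P i0 S α J A g - (1 - α * ∑ i ∈ range g, aa _ A (1 + i) + α * (P i0 - 2) / 2 +
      (P i0 - 1) * α * Psi (aa _ A) (P i0) g (1 / (P i0 - 1))
        fun c => ZZ (P i0) (S.image P) (xx (P i0) α) (c + 1 : ℕ))| ≤ 32000 * (u ^ 16 / w ^ 5) := by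
  obtain ⟨h1, h2, h3, h4, h5, h6, h7⟩ := H.basic
  obtain ⟨x1, x2, x3, x4, -⟩ := H.x_facts
  have q2 := two_le_cast (P i0)
  have HS := H.sys A
  have α0 := HS.α0
  have α1 := HS.α1
  have w0 : 0 < w := by linarith
  have x0 : 0 < xx (P i0) α := lt_of_lt_of_le (by positivity) x2
  obtain ⟨m, hm, e1, e2⟩ := gam_eq (aa01 _ A) α g
  obtain ⟨m', -, e3, e4⟩ := gam_eq (aa01 _ A) α (P i0)
  rw [sum_aa, ← Nat.cast_pred (hP i0).out.pos, Nat.cast_inj] at e3
  subst e3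
  obtain ⟨g1, g2, g3, g4, g5⟩ := elem (hP i0).out.two_le (hm.trans hg.le) α0 h7
  have hR := H.hR
  have κ0 : 0 ≤ α / (1 - α) := div_nonneg α0.le (by linarith)
  have κ1 : α / (1 - α) ≤ 4 / w ^ 4 := by
    rw [div_le_iff₀ (by linarith), show 4 / w ^ 4 = 2 * (2 / w ^ 4) by ring]
    nlinarith
  have s1 : α / (1 - α) * u * R ^ 2 ≤ 4 * (u ^ 3 / w ^ 2) :=
    calc _ ≤ 4 / w ^ 4 * u * (u * w) ^ 2 := by gcongr
      _ = _ := by field_simp
  have s2 : 4 * (u ^ 3 / w ^ 2) ≤ 1 / 4 := by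
    rw [← mul_div_assoc, div_le_iff₀ (by positivity)]
    nlinarith [H.hw]
  have c1 := HS.core hg H.R0 H.hk H.hk' H.hJ H.J0 rfl rfl (s1.trans s2) e4 (by linarith) g3
  have G0 : 0 ≤ (1 - α) ^ (P i0 - 1) := pow_nonneg (by linarith) _
  have hJ : P i0 * J ≤ R ^ 4 := le_trans (Nat.mul_le_mul_left _ (Nat.le_add_right _ _)) H.hJ
  have hM := fun c => HS.SS_le G0 (by linarith) (R := R) (J := J)
    (le_trans (Nat.le_mul_of_pos_left _ (hP i0).out.pos) hJ) c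
  have hS : ∀ p ∈ S.image P, p.Prime := fun p hp => by
    obtain ⟨i, -, rfl⟩ := mem_image.1 hp
    exact (hP i).out
  have J0 : (0 : ℝ) ≤ J := Nat.cast_nonneg J
  have t1 : ∀ z : ℝ, 1 / w ^ 4 * J / 2 ≤ z → rexp (-z) ≤ 1 / w ^ 20 := fun z hz =>
    (exp_le_exp.2 (neg_le_neg (le_of_eq_of_le (by field_simp) hz))).trans H.hE
  have t2 : ((1 - α) ^ (P i0 - 1)) ^ J ≤ 1 / w ^ 20 := by
    refine le_trans ?_ (t1 (J * α) (by nlinarith [mul_le_mul_of_nonneg_right h5 J0]))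
    rw [← mul_neg, exp_nat_mul]
    exact pow_le_pow_left₀ G0 (by linarith [add_one_le_exp (-α)]) J
  have t3 : rexp (-(xx (P i0) α * (P i0 * J : ℕ) / 2)) ≤ 1 / w ^ 20 := t1 _ (by
    have : (J : ℝ) ≤ (P i0 * J : ℕ) := by exact_mod_cast Nat.le_mul_of_pos_left _ (hP i0).out.pos
    gcongr)
  have qα : P i0 * α ≤ 2 * (u / w ^ 4) :=
    calc _ ≤ u * (2 / w ^ 4) := by gcongr
      _ = _ := by ring
  have M1 : u ^ 2 * (R : ℝ) ^ 2 ≤ u ^ 4 * w ^ 2 :=
    calc _ ≤ u ^ 2 * (u * w) ^ 2 := by gcongr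
      _ = _ := by ring
  have c2 := Psi_cmp (aa_le _ A) hg (div_nonneg κ0 (by linarith)) g3
    (show 0 ≤ 1 / ((P i0 : ℝ) - 1) from div_nonneg zero_le_one (by linarith))
    ((div_le_iff₀ (by linarith)).2 (by linarith)) (fun c _ => hM c) fun c hc => by
      rw [← x1]
      exact SS_approx hS H.hU (fun d _ => cor_yy H.inj S d) H.hy hc x0 (by nlinarith) h2
        (x1 ▸ hM c)
  have c3 := Psi_cmp (S' := fun _ => 0) (aa_le _ A) hg (div_nonneg κ0 (by linarith)) g3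
    (div_nonneg κ0 (by linarith)) g3 (fun c _ => hM c) fun c _ => by rw [sub_zero]; exact hM c
  rw [sub_self, abs_zero, zero_mul, mul_zero, zero_add, show Psi (aa _ A) (P i0) g _
    (fun _ => 0) = 0 by simp [Psi], sub_zero] at c3
  have c4 : |(1 - α) ^ m - 1| ≤ 2 * (u / w ^ 4) := by
    have a1 := (pow_approx α0.le (by linarith) m).1
    have a2 : (1 - α) ^ m ≤ 1 := pow_le_one₀ (by linarith) (by linarith)
    have a3 : (m : ℝ) * α ≤ P i0 * α :=
      mul_le_mul_of_nonneg_right (by exact_mod_cast hm.trans hg.le) α0.le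
    rw [abs_le]
    constructor <;> linarith
  have T1 : α / (1 - α) * (5 * u ^ 4 * R ^ 3) ≤ 20 * (u ^ 15 / w ^ 1) :=
    calc _ ≤ 4 / w ^ 4 * (5 * u ^ 4 * (u * w) ^ 3) := by gcongr
      _ = 20 * (u ^ 7 / w ^ 1) := by field_simp; ring
      _ ≤ _ := mono h3 h4 (by norm_num) (by norm_num) le_rfl
  have T2 : (α / (1 - α)) ^ 2 * (15 * u ^ 5 * R ^ 7) ≤ 240 * (u ^ 15 / w ^ 1) :=
    calc _ ≤ (4 / w ^ 4) ^ 2 * (15 * u ^ 5 * (u * w) ^ 7) := by gcongr
      _ = 240 * (u ^ 12 / w ^ 1) := by field_simp; ring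
      _ ≤ _ := mono h3 h4 (by norm_num) (by norm_num) le_rfl
  have T3 : (R : ℝ) ^ 4 * (480 * u ^ 2 * (α / (1 - α) * u * R ^ 2) ^ 3) ≤
      30720 * (u ^ 15 / w ^ 1) :=
    calc _ ≤ (u * w) ^ 4 * (480 * u ^ 2 * (4 * (u ^ 3 / w ^ 2)) ^ 3) := by gcongr
      _ = 30720 * (u ^ 15 / w ^ 2) := by field_simp; ring
      _ ≤ _ := mono h3 h4 (by norm_num) le_rfl (by norm_num)
  have T4 : 14 * (P i0 : ℝ) ^ 2 * ((α / (1 - α) + (1 - (1 - α) ^ (P i0 - 1))) * (u ^ 2 * R ^ 2) +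
      ((1 - α) ^ (P i0 - 1)) ^ J * ((P i0 * J : ℕ) * ((P i0 * J : ℕ) * u ^ 2))) ≤
      98 * (u ^ 15 / w ^ 1) := by
    have a1 : ((P i0 * J : ℕ) : ℝ) ≤ (u * w) ^ 4 :=
      (show _ ≤ (R : ℝ) ^ 4 by exact_mod_cast hJ).trans (by gcongr)
    have a2 : α / (1 - α) + (1 - (1 - α) ^ (P i0 - 1)) ≤ 6 * (u / w ^ 4) := by
      have : 1 / w ^ 4 ≤ u / w ^ 4 := by gcongr
      rw [show 4 / w ^ 4 = 4 * (1 / w ^ 4) by ring] at κ1
      linarith
    have a3 : 0 ≤ α / (1 - α) + (1 - (1 - α) ^ (P i0 - 1)) := by linarith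
    calc _ ≤ 14 * u ^ 2 * (6 * (u / w ^ 4) * (u ^ 4 * w ^ 2) +
          1 / w ^ 20 * ((u * w) ^ 4 * ((u * w) ^ 4 * u ^ 2))) := by gcongr
      _ = 84 * (u ^ 7 / w ^ 2) + 14 * (u ^ 12 / w ^ 12) := by field_simp; ring
      _ ≤ 84 * (u ^ 15 / w ^ 1) + 14 * (u ^ 15 / w ^ 1) :=
        add_le_add (mono h3 h4 (by norm_num) (by norm_num) (by norm_num))
          (mono h3 h4 (by norm_num) (by norm_num) (by norm_num))
      _ = _ := by ring
  have T6 : |(1 - α) ^ m * (∑ j ∈ range J, ((1 - α) ^ (P i0 - 1)) ^ j -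
      1 / (1 - (1 - α) ^ (P i0 - 1)))| ≤ 1 * (u ^ 15 / w ^ 1) := by
    refine abs_mul_le (abs_le.2 ⟨by linarith [pow_nonneg (show 0 ≤ 1 - α by linarith) m],
      pow_le_one₀ (by linarith) (by linarith)⟩) ?_
    rw [eq_div_of_mul_eq (show 1 - (1 - α) ^ (P i0 - 1) ≠ 0 by linarith) (geom_sum_mul_neg _ J),
      ← sub_div, sub_sub_cancel_left, abs_div, abs_neg, abs_of_nonneg (pow_nonneg G0 J),
      abs_of_pos (by linarith)]
    calc _ ≤ 1 / w ^ 20 / (1 / w ^ 4) := by gcongr; linarith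
      _ = 1 * (u ^ 0 / w ^ 16) := by field_simp
      _ ≤ _ := mono h3 h4 (by norm_num) (by norm_num) (by norm_num)
  have T7 := c2.trans (show _ ≤ 378 * (u ^ 15 / w ^ 1) from
    calc _ ≤ 6 * u ^ 2 * (6 * (2 * (u / w ^ 4)) * (u ^ 4 * w ^ 2)) + 9 * u ^ 2 *
          (u * (2 / w ^ 4) * (u ^ 4 * w ^ 2) + 16 * (u + u) / (1 / w ^ 4) ^ 2 * (1 / w ^ 20)) := by
          gcongr
          exact g4.trans (by gcongr)
      _ = 90 * (u ^ 7 / w ^ 2) + 288 * (u ^ 3 / w ^ 12) := by field_simp; ring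
      _ ≤ 90 * (u ^ 15 / w ^ 1) + 288 * (u ^ 15 / w ^ 1) :=
        add_le_add (mono h3 h4 (by norm_num) (by norm_num) (by norm_num))
          (mono h3 h4 (by norm_num) (by norm_num) (by norm_num))
      _ = _ := by ring)
  have T8 : |((1 - α) ^ m - 1) * Psi (aa _ A) (P i0) g (α / (1 - α) / (1 - (1 - α) ^ (P i0 - 1)))
      (SS ((1 - α) ^ (P i0 - 1)) (P i0) J (cor (yy P S)))| ≤ 18 * (u ^ 15 / w ^ 1) :=
    calc _ ≤ 2 * (u / w ^ 4) * (9 * u ^ 2 * (u ^ 4 * w ^ 2)) := by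
          rw [abs_mul]
          exact mul_le_mul c4 (c3.trans (by gcongr)) (abs_nonneg _) (by positivity)
      _ = 18 * (u ^ 7 / w ^ 2) := by field_simp; ring
      _ ≤ _ := mono h3 h4 (by norm_num) (by norm_num) (by norm_num)
  have T9 := g5.trans (show _ ≤ 40 * (u ^ 16 / w ^ 5) from
    calc _ ≤ 10 * (2 * (u / w ^ 4)) ^ 2 := by gcongr
      _ = 40 * (u ^ 2 / w ^ 8) := by field_simp; ring
      _ ≤ _ := mono h3 h4 (by norm_num) (by norm_num) (by norm_num))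
  have f0 : 0 ≤ (P i0 - 1) * α := mul_nonneg (by linarith) α0.le
  have f1 : (P i0 - 1) * α ≤ u / w ^ 4 := by
    rw [le_div_iff₀ (by positivity)]
    linarith [H.hL]
  rw [e2] at c1
  rw [mm, ← e1]
  generalize Psi (aa _ A) (P i0) g (1 / (P i0 - 1)) _ = Y at *
  generalize Psi (aa _ A) (P i0) g _ (SS _ _ _ _) = X at *
  generalize ∑ j ∈ range J, ((1 - α) ^ (P i0 - 1)) ^ j = V at *
  generalize ∑ j ∈ range J, 𝔼 ω, (1 + yy P S 0 ω) * (1 + yy P S (g + 1 + P i0 * j) ω) *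
    void (yy P S) (aa _ A) α (g + P i0 * j) ω = Z at *
  have d1 : |Z - (1 - α) ^ m / (1 - (1 - α) ^ (P i0 - 1)) - Y| ≤ 31500 * (u ^ 15 / w ^ 1) := by
    have z0 : 0 ≤ u ^ 15 / w ^ 1 := by positivity
    rw [div_eq_mul_one_div]
    rw [abs_le] at c1 T6 T7 T8 ⊢
    constructor <;> linarith [c1.1, c1.2, T6.1, T6.2, T7.1, T7.2, T8.1, T8.2]
  have d2 : |(P i0 - 1) * α * (Z - (1 - α) ^ m / (1 - (1 - α) ^ (P i0 - 1)) - Y)| ≤
      31500 * (u ^ 16 / w ^ 5) := by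
    rw [abs_mul, abs_of_nonneg f0]
    exact (mul_le_mul f1 d1 (abs_nonneg _) (by positivity)).trans_eq (by field_simp)
  have z1 : 0 ≤ u ^ 16 / w ^ 5 := by positivity
  rw [abs_le] at d2 T9 ⊢
  constructor <;> linarith [d2.1, d2.2, T9.1, T9.2]

end Par

end Pool.Agent.Lib.MP_a3b3a7_nt.M
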