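import Pool.Agent.Lib.MP_a3b3a7_nt.M.Eta

/-! The divisor generating series has the same symmetrised class sums for all unit classes. -/

open Finset Function Real
open scoped BigOperators

namespace Pool.Agent.Lib.MP_a3b3a7_nt.M

/-- Indicator of a residue class. -/
noncomputable def ind (q : ℕ) (v : ZMod q) (d : ℕ) : ℝ := if (d : ZMod q) = v then 1 else 0

/-- Difference of two symmetrised class indicators. -/
noncomputable def om (q : ℕ) (v v' : ZMod q) (d : ℕ) : ℝ :=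
  ind q v d + ind q (-v) d - ind q v' d - ind q (-v') d

/-- Sum of reciprocals of the divisors prime to `U`. -/
noncomputable def gU (U : Finset ℕ) (d : ℕ) : ℝ :=
  ∑ b ∈ d.divisors, if ∀ p ∈ U, ¬ p ∣ b then 1 / (b : ℝ) else 0

/-- The kernel. -/
noncomputable def kz (q n : ℕ) (z : ℝ) : ℝ := (1 - z ^ n) * (1 - z ^ (q - n)) / (1 - z ^ q)

theorem abs_ind (q : ℕ) (v : ZMod q) (d : ℕ) : |ind q v d| ≤ 1 := by
  unfold ind; split_ifs <;> norm_num

theorem abs_om (q : ℕ) (v v' : ZMod q) (d : ℕ) : |om q v v' d| ≤ 2 := by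
  unfold om ind; split_ifs <;> norm_num

theorem gU_mem (U : Finset ℕ) (d : ℕ) : 0 ≤ gU U d ∧ gU U d ≤ d := by
  constructor
  · exact sum_nonneg fun b _ => by split_ifs <;> positivity
  · refine (sum_le_card_nsmul _ _ 1 fun b hb => ?_).trans ?_
    · split_ifs
      · exact div_le_one_of_le₀ (by exact_mod_cast Nat.pos_of_mem_divisors hb) (by positivity)
      · norm_num
    · rw [nsmul_eq_mul, mul_one]; exact_mod_cast Nat.card_divisors_le_self d

theorem sum_zmod (q : ℕ) [NeZero q] (F : ℕ → ℝ) :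
    ∑ r ∈ range q, F r = ∑ r : ZMod q, F r.val :=
  sum_nbij' (fun r => (r : ZMod q)) (fun r => r.val) (fun _ _ => mem_univ _)
    (fun r _ => mem_range.2 (ZMod.val_lt r)) (fun _ h => ZMod.val_cast_of_lt (mem_range.1 h))
    (fun r _ => ZMod.natCast_zmod_val r)
    fun _ h => by rw [ZMod.val_cast_of_lt (mem_range.1 h)]

theorem sum_blocks (q : ℕ) (ψ : ℕ → ℝ) (M : ℕ) :
    ∑ b ∈ range (q * M), ψ b = ∑ r ∈ range q, ∑ i ∈ range M, ψ (r + q * i) := by
  induction M with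
  | zero => simp
  | succ M ih =>
    rw [Nat.mul_succ, sum_range_add, ih, ← sum_add_distrib]
    exact sum_congr rfl fun r _ => by rw [sum_range_succ, add_comm r]

theorem hasSum_ind (q : ℕ) [NeZero q] (c : ZMod q) {z : ℝ} (z0 : 0 ≤ z) (z1 : z < 1) :
    HasSum (fun a : ℕ => ind q c a * z ^ a) (z ^ c.val / (1 - z ^ q)) := by
  have hq := Nat.pos_of_neZero q
  have hi : Injective fun m : ℕ => c.val + q * m := fun m n h =>
    Nat.eq_of_mul_eq_mul_left hq (Nat.add_left_cancel h)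
  refine (hi.hasSum_iff fun a ha => ?_).1 ?_
  · rw [ind, if_neg, zero_mul]
    rintro rfl
    exact ha ⟨a / q, by simp only [ZMod.val_natCast]; exact Nat.mod_add_div a q⟩
  · rw [div_eq_mul_inv]
    refine ((hasSum_geometric_of_lt_one (pow_nonneg z0 q)
      (pow_lt_one₀ z0 z1 hq.ne')).mul_left _).congr_fun fun m => ?_
    simp [ind, pow_add, pow_mul]

theorem hasSum_om (q : ℕ) [NeZero q] {v v' : ZMod q} (hv : v ≠ 0) (hv' : v' ≠ 0) {z : ℝ}
    (z0 : 0 ≤ z) (z1 : z < 1) :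
    HasSum (fun a : ℕ => om q v v' a * z ^ a) (kz q v'.val z - kz q v.val z) := by
  have h := (((hasSum_ind q v z0 z1).add (hasSum_ind q (-v) z0 z1)).sub
    (hasSum_ind q v' z0 z1)).sub (hasSum_ind q (-v') z0 z1)
  have e : ∀ n ≤ q, kz q n z = (1 + z ^ q - z ^ n - z ^ (q - n)) / (1 - z ^ q) := fun n hn => by
    have : z ^ q = z ^ n * z ^ (q - n) := by rw [← pow_add, Nat.add_sub_cancel' hn]
    rw [kz]
    congr 1
    rw [this]
    ring
  rw [ZMod.neg_val, ZMod.neg_val, if_neg hv, if_neg hv'] at h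
  have e' : kz q v'.val z - kz q v.val z = z ^ v.val / (1 - z ^ q) +
      z ^ (q - v.val) / (1 - z ^ q) - z ^ v'.val / (1 - z ^ q) - z ^ (q - v'.val) / (1 - z ^ q) := by
    rw [e _ (ZMod.val_le v), e _ (ZMod.val_le v')]
    ring
  rw [e']
  exact h.congr_fun fun a => by rw [om]; ring

theorem tele {F : ℝ → ℝ} {C : ℝ} (hF : AntitoneOn F (Set.Ioi 0)) (h0 : ∀ u > 0, 0 ≤ F u)
    (hC : ∀ u > 0, F u ≤ C) {x : ℝ} (hx : 0 < x) {q r r' : ℕ} (hr : 0 < r) (hr' : 0 < r')
    (hq : r' ≤ q) (M : ℕ) : ∑ i ∈ range M, F ((r + q * i : ℕ) * x) ≤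
      C + ∑ i ∈ range M, F ((r' + q * i : ℕ) * x) := by
  have p1 : ∀ n : ℕ, 0 < n → 0 < (n : ℝ) * x := fun n hn => mul_pos (by exact_mod_cast hn) hx
  cases M with
  | zero => simpa using (h0 1 one_pos).trans (hC 1 one_pos)
  | succ M =>
    rw [sum_range_succ', sum_range_succ]
    have h1 := hC _ (p1 (r + q * 0) (by omega))
    have h2 := h0 _ (p1 (r' + q * M) (by omega))
    have h3 : ∑ i ∈ range M, F ((r + q * (i + 1) : ℕ) * x) ≤
        ∑ i ∈ range M, F ((r' + q * i : ℕ) * x) := sum_le_sum fun i _ =>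
      hF (p1 _ (by omega)) (p1 _ (by omega)) (mul_le_mul_of_nonneg_right
        (by exact_mod_cast (by rw [Nat.mul_succ]; omega)) hx.le)
    linarith

/-- First monotone factor of the kernel. -/
noncomputable def kA (q n : ℕ) (u : ℝ) : ℝ :=
  (1 - rexp (-u) ^ n) / u * ∑ i ∈ range (q - n), rexp (-u) ^ i

/-- Second monotone factor of the kernel. -/
noncomputable def kJ (q : ℕ) (u : ℝ) : ℝ := (∑ i ∈ range q, rexp (-u) ^ i)⁻¹

theorem geo_anti (n : ℕ) {u v : ℝ} (h : u ≤ v) :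
    ∑ i ∈ range n, rexp (-v) ^ i ≤ ∑ i ∈ range n, rexp (-u) ^ i :=
  sum_le_sum fun i _ => pow_le_pow_left₀ (exp_pos _).le (exp_le_exp.2 (by linarith)) i

theorem one_le_geo {q : ℕ} (hq : 0 < q) (u : ℝ) : 1 ≤ ∑ i ∈ range q, rexp (-u) ^ i := by
  simpa using single_le_sum (f := fun i => rexp (-u) ^ i) (fun i _ => by positivity)
    (mem_range.2 hq)

theorem fr_mem (n : ℕ) {u : ℝ} (hu : 0 < u) :
    0 ≤ (1 - rexp (-u) ^ n) / u ∧ (1 - rexp (-u) ^ n) / u ≤ n := by
  constructor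
  · exact div_nonneg (sub_nonneg.2 (pow_le_one₀ (exp_pos _).le (exp_neg_lt_one hu).le)) hu.le
  · rw [div_le_iff₀ hu, ← exp_nat_mul]
    have := add_one_le_exp (n * -u)
    linarith

theorem kA_anti (q n : ℕ) : AntitoneOn (kA q n) (Set.Ioi 0) := by
  intro u (hu : 0 < u) v (hv : 0 < v) h
  refine mul_le_mul ?_ (geo_anti _ h) (sum_nonneg fun _ _ => by positivity) (fr_mem n hu).1
  have h1 := convexOn_exp.2 (Set.mem_univ (n * -v)) (Set.mem_univ 0)
    (show 0 ≤ u / v by positivity) (sub_nonneg.2 (div_le_one_of_le₀ h hv.le)) (by ring)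
  simp only [smul_eq_mul, mul_zero, add_zero, exp_zero, mul_one] at h1
  rw [show u / v * (n * -v) = n * -u by field_simp, exp_nat_mul, exp_nat_mul] at h1
  rw [div_le_div_iff₀ hv hu]
  have h2 := mul_le_mul_of_nonneg_left h1 hv.le
  have h3 : v * (u / v * rexp (-v) ^ n + (1 - u / v)) = u * rexp (-v) ^ n + v - u := by
    field_simp
    ring
  nlinarith

theorem kA_mem {q n : ℕ} (hn : n ≤ q) {u : ℝ} (hu : 0 < u) : 0 ≤ kA q n u ∧ kA q n u ≤ q ^ 2 := by
  have h1 : (0 : ℝ) ≤ ∑ i ∈ range (q - n), rexp (-u) ^ i := sum_nonneg fun _ _ => by positivity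
  refine ⟨mul_nonneg (fr_mem n hu).1 h1, ?_⟩
  rw [sq]
  refine mul_le_mul ((fr_mem n hu).2.trans (by exact_mod_cast hn)) ?_ h1 (by positivity)
  refine ((geo_anti _ hu.le).trans_eq (by simp)).trans (Nat.cast_le.2 (Nat.sub_le q n))

theorem kJ_mem {q : ℕ} (hq : 0 < q) (u : ℝ) : 0 ≤ 1 - kJ q u ∧ 1 - kJ q u ≤ 1 := by
  have h := one_le_geo hq u
  have h1 : kJ q u ≤ 1 := inv_le_one_of_one_le₀ h
  have h2 : 0 ≤ kJ q u := inv_nonneg.2 (by linarith)
  constructor <;> linarith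

theorem kB_anti {q n : ℕ} (hq : 0 < q) (hn : n ≤ q) :
    AntitoneOn (fun u => kA q n u * (1 - kJ q u)) (Set.Ioi 0) := by
  intro u hu v hv h
  refine mul_le_mul (kA_anti q n hu hv h) ?_ (kJ_mem hq v).1 (kA_mem hn hu).1
  exact sub_le_sub_left (inv_anti₀ (one_pos.trans_le (one_le_geo hq v)) (geo_anti q h)) 1

theorem kz_eq {q : ℕ} (hq : 0 < q) (n : ℕ) {u : ℝ} (hu : 0 < u) :
    kz q n (rexp (-u)) = u * (kA q n u - kA q n u * (1 - kJ q u)) := by
  have h := one_le_geo hq u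
  have h1 : 1 - rexp (-u) ≠ 0 := (sub_pos.2 (exp_neg_lt_one hu)).ne'
  rw [kz, kA, kJ, ← mul_neg_geom_sum _ q, ← mul_neg_geom_sum _ (q - n)]
  field_simp
  ring

theorem abs_kz {q n : ℕ} (hq : 0 < q) (hn : n ≤ q) {u : ℝ} (hu : 0 < u) :
    0 ≤ kz q n (rexp (-u)) ∧ kz q n (rexp (-u)) ≤ q ^ 2 * u := by
  obtain ⟨h1, h2⟩ := kA_mem hn hu
  obtain ⟨h3, h4⟩ := kJ_mem hq u
  rw [kz_eq hq n hu, mul_comm _ u]
  exact ⟨mul_nonneg hu.le (by nlinarith), mul_le_mul_of_nonneg_left (by nlinarith) hu.le⟩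

theorem kz_cmp {q n r r' : ℕ} (hn : n ≤ q) (hr : 0 < r) (hr' : 0 < r') (hq : r ≤ q)
    (hq' : r' ≤ q) {x : ℝ} (hx : 0 < x) (M : ℕ) :
    |∑ i ∈ range M, 1 / ((r + q * i : ℕ) : ℝ) * kz q n (rexp (-x) ^ (r + q * i)) -
      ∑ i ∈ range M, 1 / ((r' + q * i : ℕ) : ℝ) * kz q n (rexp (-x) ^ (r' + q * i))| ≤
      2 * q ^ 2 * x := by
  have q0 : 0 < q := hr.trans_le hq
  have e : ∀ r, 0 < r → ∑ i ∈ range M, 1 / ((r + q * i : ℕ) : ℝ) *
      kz q n (rexp (-x) ^ (r + q * i)) = x * (∑ i ∈ range M, kA q n ((r + q * i : ℕ) * x) -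
      ∑ i ∈ range M, kA q n ((r + q * i : ℕ) * x) * (1 - kJ q ((r + q * i : ℕ) * x))) := by
    intro r hr
    rw [← sum_sub_distrib, mul_sum]
    refine sum_congr rfl fun i _ => ?_
    have h0 : (0 : ℝ) < (r + q * i : ℕ) := by exact_mod_cast (by omega : 0 < r + q * i)
    rw [← exp_nat_mul, mul_neg, kz_eq q0 n (mul_pos h0 hx)]
    field_simp
  have hA := fun r r' hr hr' hq => tele (kA_anti q n) (fun u hu => (kA_mem hn hu).1)
    (fun u hu => (kA_mem hn hu).2) hx (r := r) (r' := r') (q := q) hr hr' hq M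
  have hB := fun r r' hr hr' hq => tele (C := q ^ 2) (kB_anti q0 hn)
    (fun u hu => mul_nonneg (kA_mem hn hu).1 (kJ_mem q0 u).1)
    (fun u hu => (mul_le_of_le_one_right (kA_mem hn hu).1 (kJ_mem q0 u).2).trans (kA_mem hn hu).2)
    hx (r := r) (r' := r') (q := q) hr hr' hq M
  have h1 := hA r r' hr hr' hq'
  have h2 := hA r' r hr' hr hq
  have h3 := hB r r' hr hr' hq'
  have h4 := hB r' r hr' hr hq
  rw [e r hr, e r' hr', ← mul_sub, abs_mul, abs_of_pos hx, mul_comm]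
  refine mul_le_mul_of_nonneg_right (abs_le.2 ⟨?_, ?_⟩) hx.le <;> linarith

variable {q : ℕ} [hq : Fact q.Prime]

theorem ind_mul (v : ZMod q) {b : ℕ} (hb : (b : ZMod q) ≠ 0) (a : ℕ) :
    ind q v (b * a) = ind q (v / b) a := by
  unfold ind
  refine if_congr ?_ rfl rfl
  rw [eq_div_iff hb, Nat.cast_mul, mul_comm]

theorem om_mul (v v' : ZMod q) {b : ℕ} (hb : (b : ZMod q) ≠ 0) (a : ℕ) :
    om q v v' (b * a) = om q (v / b) (v' / b) a := by
  simp only [om, ind_mul _ hb, neg_div]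

theorem om_zero {v v' : ZMod q} (hv : v ≠ 0) (hv' : v' ≠ 0) : om q v v' 0 = 0 := by
  simp [om, ind, hv.symm, hv'.symm, hv, hv']

theorem Gen_om {v v' : ZMod q} (hv : v ≠ 0) (hv' : v' ≠ 0) {x : ℝ} (hx : 0 < x) :
    |Gen (fun d => gU {q} d * om q v v' d) x| ≤ 4 * q ^ 3 * qr x := by
  have q1 : (1 : ℝ) ≤ q := by exact_mod_cast hq.out.one_le
  have q3 : (1 : ℝ) ≤ q ^ 3 := one_le_pow₀ q1
  rcases le_total 1 x with h | h
  · refine (abs_Gen_le (C := 2) (fun d => ?_) h).trans (by nlinarith [one_le_qr h])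
    rw [abs_mul, abs_of_nonneg (gU_mem _ d).1, mul_comm]
    exact mul_le_mul (abs_om ..) (gU_mem _ d).2 (gU_mem _ d).1 (by norm_num)
  have hp := exp_pos (-x)
  set T : ZMod q → ℕ → ℝ := fun c b => if (b : ZMod q) = 0 then 0 else
    1 / (b : ℝ) * kz q c.val (rexp (-x) ^ b) with hT
  have h1 := hasSum_div (fun b d => (if (b : ZMod q) = 0 then 0 else 1 / (b : ℝ)) * om q v v' d)
    (fun b d => ?_) hx (s := fun b => T (v' / (b + 1 : ℕ)) (b + 1) - T (v / (b + 1 : ℕ)) (b + 1))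
    fun b => ?_
  · have e : (fun d : ℕ => ∑ b ∈ d.divisors, (if (b : ZMod q) = 0 then 0 else 1 / (b : ℝ)) *
        om q v v' d) = fun d => gU {q} d * om q v v' d := funext fun d => by
      rw [gU, sum_mul]
      refine sum_congr rfl fun b _ => ?_
      simp [ZMod.natCast_eq_zero_iff]
    rw [e] at h1
    have h2 : HasSum (fun b : ℕ => T (v' / b) b - T (v / b) b)
        (Gen (fun d => gU {q} d * om q v v' d) x) := by
      refine (hasSum_nat_add_iff' 1).1 ?_
      simpa [hT] using h1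
    have h3 := (h2.tendsto_sum_nat.comp (Filter.tendsto_id.const_mul_atTop' hq.out.pos)).abs
    refine (le_of_tendsto' h3 fun M => ?_).trans (show 2 * q ^ 3 * x ≤ _ by
      nlinarith [le_qr hx.le h])
    have e2 : ∀ w : ZMod q, w ≠ 0 → ∑ b ∈ range (q * M), T (w / b) b =
        ∑ c : ZMod q, ∑ i ∈ range M, T c ((w / c).val + q * i) := fun w hw => by
      have hi : Involutive fun c : ZMod q => w / c := fun c => by
        rcases eq_or_ne c 0 with rfl | hc
        · simp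
        · field_simp
      rw [sum_blocks, sum_zmod, ← hi.bijective.sum_comp]
      refine sum_congr rfl fun c _ => sum_congr rfl fun i _ => ?_
      simp only [Nat.cast_add, ZMod.natCast_zmod_val, Nat.cast_mul, ZMod.natCast_self, zero_mul,
        add_zero]
      rw [show w / (w / c) = c from hi c]
    simp only [comp_apply, id]
    rw [sum_sub_distrib, e2 v hv, e2 v' hv', ← sum_sub_distrib]
    refine (abs_sum_le_sum_abs _ _).trans ((sum_le_card_nsmul _ _ (2 * q ^ 2 * x)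
      fun c _ => ?_).trans_eq (by rw [card_univ, ZMod.card, nsmul_eq_mul]; ring))
    rcases eq_or_ne c 0 with rfl | hc
    · simp [hT]
      positivity
    have e3 : ∀ w : ZMod q, w ≠ 0 → ∀ i, T c ((w / c).val + q * i) =
        1 / (((w / c).val + q * i : ℕ) : ℝ) * kz q c.val (rexp (-x) ^ ((w / c).val + q * i)) :=
      fun w hw i => if_neg (by simp [hw, hc])
    simp only [e3 v hv, e3 v' hv']
    exact kz_cmp (ZMod.val_le c) (ZMod.val_pos.2 (div_ne_zero hv' hc))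
      (ZMod.val_pos.2 (div_ne_zero hv hc)) (ZMod.val_le _) (ZMod.val_le _) hx M
  · rw [abs_mul, ← one_mul 2]
    refine mul_le_mul ?_ (abs_om ..) (abs_nonneg _) zero_le_one
    split_ifs with hb
    · norm_num
    · rw [abs_of_nonneg (by positivity)]
      refine div_le_one_of_le₀ ?_ (by positivity)
      exact_mod_cast Nat.pos_of_ne_zero (by rintro rfl; simp at hb)
  · simp only [hT]
    split_ifs with hb
    · simp
    · have h2 := (hasSum_nat_add_iff' 1).2 (hasSum_om q (div_ne_zero hv hb) (div_ne_zero hv' hb)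
        (pow_nonneg hp.le (b + 1)) (pow_lt_one₀ hp.le (exp_neg_lt_one hx) b.succ_ne_zero))
      rw [sum_range_one, om_zero (div_ne_zero hv hb) (div_ne_zero hv' hb), zero_mul,
        sub_zero] at h2
      rw [← mul_sub]
      exact (h2.mul_left _).congr_fun fun a => by rw [om_mul _ _ hb, mul_assoc]

end Pool.Agent.Lib.MP_a3b3a7_nt.M
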