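import Pool.Agent.Lib.MP_a3b3a7_nt.M.Omega

/-! The generating series of the truncated singular series of pairs. -/

open Finset Function Real
open scoped BigOperators

namespace Pool.Agent.Lib.MP_a3b3a7_nt.M

/-- Dilation. -/
noncomputable def Dv (p : ℕ) (F : ℕ → ℝ) (d : ℕ) : ℝ := if p ∣ d then F (d / p) else 0

theorem Dv_mul {p : ℕ} (hp : 0 < p) (F : ℕ → ℝ) (m : ℕ) : Dv p F (p * m) = F m := by
  rw [Dv, if_pos (dvd_mul_right _ _), Nat.mul_div_cancel_left _ hp]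

theorem Dv_not {p d : ℕ} (h : ¬ p ∣ d) (F : ℕ → ℝ) : Dv p F d = 0 := if_neg h

theorem Dv_mul_w {p : ℕ} (hp : 0 < p) (F w : ℕ → ℝ) (d : ℕ) :
    Dv p F d * w d = Dv p (fun a => F a * w (p * a)) d := by
  by_cases h : p ∣ d
  · obtain ⟨m, rfl⟩ := h
    rw [Dv_mul hp, Dv_mul hp]
  · rw [Dv_not h, Dv_not h, zero_mul]

theorem hasSum_Dv {p : ℕ} (hp : 0 < p) {F : ℕ → ℝ} {x s : ℝ}
    (h : HasSum (fun d : ℕ => F d * rexp (-(p * x)) ^ d) s) :
    HasSum (fun d : ℕ => Dv p F d * rexp (-x) ^ d) s := by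
  have hi : Injective fun m : ℕ => p * m := mul_right_injective₀ hp.ne'
  refine (hi.hasSum_iff fun a ha => ?_).1 (h.congr_fun fun m => ?_)
  · rw [Dv_not (fun ⟨m, e⟩ => ha ⟨m, e.symm⟩), zero_mul]
  · rw [comp_apply, Dv_mul hp, pow_mul, ← exp_nat_mul, mul_neg]

theorem sum_div_mul {p : ℕ} (hp : 0 < p) (m : ℕ) (φ : ℕ → ℝ) :
    ∑ b ∈ (p * m).divisors with p ∣ b, φ b = ∑ b ∈ m.divisors, φ (p * b) := by
  refine sum_nbij' (fun b => b / p) (fun b => p * b) ?_ ?_ ?_ ?_ ?_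
  · intro b hb
    obtain ⟨h1, k, rfl⟩ := mem_filter.1 hb
    obtain ⟨h2, h3⟩ := Nat.mem_divisors.1 h1
    simp only [Nat.mul_div_cancel_left _ hp]
    exact Nat.mem_divisors.2 ⟨Nat.dvd_of_mul_dvd_mul_left hp h2, right_ne_zero_of_mul h3⟩
  · intro b hb
    obtain ⟨h2, h3⟩ := Nat.mem_divisors.1 hb
    exact mem_filter.2 ⟨Nat.mem_divisors.2 ⟨Nat.mul_dvd_mul_left p h2, mul_ne_zero hp.ne' h3⟩,
      dvd_mul_right _ _⟩
  · intro b hb
    exact Nat.mul_div_cancel' (mem_filter.1 hb).2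
  · intro b _
    exact Nat.mul_div_cancel_left _ hp
  · intro b hb
    rw [Nat.mul_div_cancel' (mem_filter.1 hb).2]

theorem gU_insert' (p : ℕ) (U : Finset ℕ) (d : ℕ) : gU (insert p U) d =
    ∑ b ∈ d.divisors with ¬ p ∣ b, if ∀ r ∈ U, ¬ r ∣ b then 1 / (b : ℝ) else 0 := by
  rw [sum_filter, gU]
  refine sum_congr rfl fun b _ => ?_
  by_cases h : p ∣ b <;> simp [h]

theorem gU_insert {p : ℕ} (hp : p.Prime) {U : Finset ℕ} (hU : ∀ r ∈ U, r.Prime) (h : p ∉ U)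
    (d : ℕ) : gU (insert p U) d = gU U d - Dv p (gU U) d / p := by
  rw [gU_insert', gU, ← sum_filter_add_sum_filter_not d.divisors (p ∣ ·), eq_sub_iff_add_eq,
    add_comm, add_left_inj]
  by_cases hd : p ∣ d
  · obtain ⟨m, rfl⟩ := hd
    rw [Dv_mul hp.pos, sum_div_mul hp.pos, gU, sum_div]
    refine sum_congr rfl fun b _ => ?_
    have e : (∀ r ∈ U, ¬ r ∣ p * b) ↔ ∀ r ∈ U, ¬ r ∣ b := forall₂_congr fun r hr =>
      not_congr ⟨fun h' => ((hU r hr).dvd_mul.1 h').resolve_left fun h2 =>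
        h (((Nat.prime_dvd_prime_iff_eq (hU r hr) hp).1 h2) ▸ hr), fun h' => h'.mul_left p⟩
    simp only [e]
    split_ifs
    · push_cast
      rw [div_div, mul_comm]
    · exact zero_div _
  · rw [Dv_not hd, zero_div, filter_eq_empty_iff.2 fun b hb h' =>
      hd (h'.trans (Nat.dvd_of_mem_divisors hb)), sum_empty]

theorem gU_mul {p : ℕ} (hp : p.Prime) {U : Finset ℕ} (h : p ∈ U) (d : ℕ) :
    gU U (p * d) = gU U d := by
  rw [← insert_eq_of_mem h, gU_insert', gU_insert']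
  refine sum_congr ?_ fun _ _ => rfl
  ext b
  simp only [mem_filter, Nat.mem_divisors]
  refine and_congr_left fun hb => ⟨fun h => ⟨((Nat.Prime.coprime_iff_not_dvd hp).2
    hb).symm.dvd_of_dvd_mul_left h.1, right_ne_zero_of_mul h.2⟩,
    fun h => ⟨h.1.mul_left p, mul_ne_zero hp.ne_zero h.2⟩⟩

theorem gU_eq_one {U : Finset ℕ} {y d : ℕ} (hU : ∀ p, p.Prime → p ≤ y → p ∈ U)
    (hU' : ∀ p ∈ U, p.Prime) (h0 : 0 < d) (hd : d ≤ y) : gU U d = 1 := by
  rw [gU, sum_eq_single 1]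
  · rw [if_pos fun p hp => (hU' p hp).not_dvd_one]; simp
  · intro b hb h1
    exact if_neg fun h => h _ (hU _ (Nat.minFac_prime h1) ((Nat.minFac_le
      (Nat.pos_of_mem_divisors hb)).trans ((Nat.divisor_le hb).trans hd))) (Nat.minFac_dvd b)
  · exact fun h => (h (Nat.one_mem_divisors.2 h0.ne')).elim

/-- The local factor of the singular series. -/
noncomputable def loc (p d : ℕ) : ℝ := 1 + ((if p ∣ d then (p : ℝ) else 0) - 1) / ((p : ℝ) - 1) ^ 2

theorem loc_mul {p r : ℕ} (hp : p.Prime) (hr : r.Prime) (h : r ≠ p) (d : ℕ) :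
    loc r (p * d) = loc r d := by
  unfold loc
  simp only [hr.dvd_mul, Nat.prime_dvd_prime_iff_eq hr hp, h, false_or]

theorem loc_mem {p : ℕ} (hp : p.Prime) (d : ℕ) : 0 ≤ loc p d ∧ loc p d ≤ 1 + 81 / (p : ℝ) := by
  have h2 : (2 : ℝ) ≤ p := by exact_mod_cast hp.two_le
  have h3 : (0 : ℝ) < p - 1 := by linarith
  unfold loc
  split_ifs
  · rw [sq, ← div_div, div_self h3.ne']
    refine ⟨by positivity, add_le_add le_rfl ?_⟩
    rw [div_le_div_iff₀ h3 (by linarith)]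
    linarith
  · have h4 : 1 / ((p : ℝ) - 1) ^ 2 ≤ 1 := div_le_one_of_le₀ (by nlinarith) (by positivity)
    have h5 : 0 ≤ 1 / ((p : ℝ) - 1) ^ 2 := by positivity
    have h6 : 0 ≤ 81 / (p : ℝ) := by positivity
    rw [zero_sub, neg_div]
    constructor <;> linarith

/-- The singular series over the primes of `S`, extended by a divisor sum. -/
noncomputable def fS (q : ℕ) (S : Finset ℕ) (d : ℕ) : ℝ := (∏ p ∈ S, loc p d) * gU (insert q S) d

theorem fS_le (q : ℕ) {S : Finset ℕ} (hS : ∀ p ∈ S, p.Prime) (d : ℕ) :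
    |fS q S d| ≤ (∏ p ∈ S, (1 + 81 / (p : ℝ))) * d := by
  have h0 : 0 ≤ ∏ p ∈ S, loc p d := prod_nonneg fun p hp => (loc_mem (hS p hp) d).1
  rw [fS, abs_of_nonneg (mul_nonneg h0 (gU_mem _ d).1)]
  exact mul_le_mul (prod_le_prod (fun p hp => (loc_mem (hS p hp) d).1)
    fun p hp => (loc_mem (hS p hp) d).2) (gU_mem _ d).2 (gU_mem _ d).1
    (prod_nonneg fun p _ => by positivity)

theorem fS_mul {q : ℕ} (hq : q.Prime) {S : Finset ℕ} (hS : ∀ p ∈ S, p.Prime) (h : q ∉ S) (d : ℕ) :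
    fS q S (q * d) = fS q S d := by
  rw [fS, fS, gU_mul hq (mem_insert_self _ _)]
  congr 1
  exact prod_congr rfl fun r hr => loc_mul hq (hS r hr) (fun e => h (e ▸ hr)) d

theorem fS_insert {q p : ℕ} (hq : q.Prime) (hp : p.Prime) (hpq : p ≠ q) {S : Finset ℕ}
    (hS : ∀ p ∈ S, p.Prime) (h : p ∉ S) (d : ℕ) : fS q (insert p S) d =
      (1 - 1 / ((p : ℝ) - 1) ^ 2) * fS q S d + 2 / ((p : ℝ) - 1) ^ 2 * Dv p (fS q S) d -
        1 / ((p : ℝ) - 1) ^ 2 * Dv p (Dv p (fS q S)) d := by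
  have hU : ∀ r ∈ insert q S, r.Prime := forall_mem_insert _ _ _ |>.2 ⟨hq, hS⟩
  have hU' : p ∉ insert q S := by simp [hpq, h]
  have hσ : ∀ m, ∏ r ∈ S, loc r (p * m) = ∏ r ∈ S, loc r m := fun m =>
    prod_congr rfl fun r hr => loc_mul hp (hS r hr) (fun e => h (e ▸ hr)) m
  have hD : ∀ m, Dv p (fS q S) m = (∏ r ∈ S, loc r m) * Dv p (gU (insert q S)) m := fun m => by
    by_cases hm : p ∣ m
    · obtain ⟨k, rfl⟩ := hm
      rw [Dv_mul hp.pos, Dv_mul hp.pos, hσ, fS]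
    · rw [Dv_not hm, Dv_not hm, mul_zero]
  have h2 : (2 : ℝ) ≤ p := by exact_mod_cast hp.two_le
  have h3 : (p : ℝ) - 1 ≠ 0 := by linarith
  have h4 : (p : ℝ) ≠ 0 := by linarith
  rw [fS, prod_insert h, insert_comm]
  by_cases hd : p ∣ d
  · obtain ⟨m, rfl⟩ := hd
    have e1 := gU_insert hp hU hU' (p * m)
    have e2 := gU_insert hp hU hU' m
    rw [gU_mul hp (mem_insert_self _ _), Dv_mul hp.pos] at e1
    rw [gU_mul hp (mem_insert_self _ _), Dv_mul hp.pos, Dv_mul hp.pos, hD, fS, fS, hσ, loc,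
      if_pos (dvd_mul_right _ _), show gU (insert q S) (p * m) = gU (insert p (insert q S)) m +
        gU (insert q S) m / p by linarith, show Dv p (gU (insert q S)) m =
        p * (gU (insert q S) m - gU (insert p (insert q S)) m) by rw [e2]; field_simp; ring]
    field_simp
    ring
  · rw [gU_insert hp hU hU', Dv_not hd, Dv_not hd, Dv_not hd, loc, if_neg hd, fS]
    ring

theorem Gen_insert {q p : ℕ} (hq : q.Prime) (hp : p.Prime) (hpq : p ≠ q) {S : Finset ℕ}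
    (hS : ∀ p ∈ S, p.Prime) (h : p ∉ S) {w : ℕ → ℝ} (hw : ∀ d, |w d| ≤ 2) {x : ℝ} (hx : 0 < x) :
    Gen (fun d => fS q (insert p S) d * w d) x =
      (1 - 1 / ((p : ℝ) - 1) ^ 2) * Gen (fun d => fS q S d * w d) x +
      2 / ((p : ℝ) - 1) ^ 2 * Gen (fun d => fS q S d * w (p * d)) (p * x) -
      1 / ((p : ℝ) - 1) ^ 2 * Gen (fun d => fS q S d * w (p * (p * d))) (p * (p * x)) := by
  have p0 : (0 : ℝ) < p := by exact_mod_cast hp.pos
  have hl : ∀ (φ : ℕ → ℕ) (d : ℕ), |fS q S d * w (φ d)| ≤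
      (2 * ∏ p ∈ S, (1 + 81 / (p : ℝ))) * d := fun φ d => by
    rw [abs_mul, mul_comm, mul_assoc]
    exact mul_le_mul (hw _) (fS_le q hS d) (abs_nonneg _) (by norm_num)
  have h0 := hasSum_Gen (hl id) hx
  have h1 := hasSum_Dv hp.pos (hasSum_Gen (hl fun d => p * d) (mul_pos p0 hx))
  have h2 := hasSum_Dv hp.pos (hasSum_Dv hp.pos (hasSum_Gen (hl fun d => p * (p * d))
    (mul_pos p0 (mul_pos p0 hx))))
  refine HasSum.tsum_eq ((((h0.mul_left _).add (h1.mul_left _)).sub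
    (h2.mul_left _)).congr_fun fun d => ?_)
  have e : Dv p (Dv p fun d => fS q S d * w (p * (p * d))) d = Dv p (Dv p (fS q S)) d * w d := by
    rw [Dv_mul_w hp.pos]
    exact congrArg (Dv p · d) (funext fun a => (Dv_mul_w hp.pos _ (fun a => w (p * a)) a).symm)
  beta_reduce
  rw [fS_insert hq hp hpq hS h, ← Dv_mul_w hp.pos, e, id]
  ring

theorem step_le {p : ℕ} (hp : p.Prime) {K x e0 e1 e2 : ℝ} (hK : 0 ≤ K)
    (h0 : |e0| ≤ K * qr x) (h1 : |e1| ≤ K * qr (p * x)) (h2 : |e2| ≤ K * qr (p * (p * x))) :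
    |(1 - 1 / ((p : ℝ) - 1) ^ 2) * e0 + 2 / ((p : ℝ) - 1) ^ 2 * e1 - 1 / ((p : ℝ) - 1) ^ 2 * e2| ≤
      (1 + 81 / (p : ℝ)) * K * qr x := by
  have p2 : (2 : ℝ) ≤ p := by exact_mod_cast hp.two_le
  have p0 : (0 : ℝ) ≤ p := by linarith
  have t1 : 1 / ((p : ℝ) - 1) ^ 2 ≤ 1 := div_le_one_of_le₀ (by nlinarith) (by positivity)
  have t0 : 0 ≤ 1 / ((p : ℝ) - 1) ^ 2 := by positivity
  have t2 : 1 / ((p : ℝ) - 1) ^ 2 * (3 * p) ≤ 81 / p := by
    rw [div_mul_eq_mul_div, div_le_div_iff₀ (pow_pos (by linarith) 2) (by linarith)]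
    nlinarith
  have q1 := one_le_qr (show (1 : ℝ) ≤ p by linarith)
  have q2 : qr p * qr p ≤ p := by
    have := qr_pow p0
    have h : qr p ^ 2 ≤ qr p ^ 4 := pow_le_pow_right₀ q1 (by norm_num)
    nlinarith
  have q3 : qr p ≤ p := qr_le_self (by linarith)
  have hx := mul_nonneg hK (qr_nonneg x)
  rw [qr_mul p0] at h1
  rw [qr_mul p0, qr_mul p0] at h2
  have a1 : |e1| ≤ p * (K * qr x) := h1.trans (by nlinarith)
  have a2 : |e2| ≤ p * (K * qr x) := h2.trans (by nlinarith)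
  rw [show 2 / ((p : ℝ) - 1) ^ 2 = 2 * (1 / ((p : ℝ) - 1) ^ 2) by ring, mul_assoc _ K]
  generalize 1 / ((p : ℝ) - 1) ^ 2 = t at *
  generalize K * qr x = Y at *
  have b0 := mul_le_mul_of_nonneg_left (abs_le.1 h0).1 (sub_nonneg.2 t1)
  have b0' := mul_le_mul_of_nonneg_left (abs_le.1 h0).2 (sub_nonneg.2 t1)
  have b1 := mul_le_mul_of_nonneg_left (abs_le.1 a1).1 t0
  have b1' := mul_le_mul_of_nonneg_left (abs_le.1 a1).2 t0
  have b2 := mul_le_mul_of_nonneg_left (abs_le.1 a2).1 t0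
  have b2' := mul_le_mul_of_nonneg_left (abs_le.1 a2).2 t0
  have b3 := mul_le_mul_of_nonneg_right t2 hx
  have b4 := mul_nonneg t0 hx
  rw [abs_le]
  constructor <;> linarith

variable {q : ℕ} [hq : Fact q.Prime]

theorem inv_om (S : Finset ℕ) : (∀ p ∈ S, p.Prime) → q ∉ S → ∀ v v' : ZMod q, v ≠ 0 → v' ≠ 0 →
    ∀ x > 0, |Gen (fun d => fS q S d * om q v v' d) x| ≤
      (∏ p ∈ S, (1 + 81 / (p : ℝ))) * (18 * q ^ 3) * qr x := by
  induction S using Finset.induction_on with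
  | empty =>
    intro _ _ v v' hv hv' x hx
    simp only [fS, prod_empty, one_mul, insert_empty_eq]
    refine (Gen_om hv hv' hx).trans (mul_le_mul_of_nonneg_right ?_ (qr_nonneg x))
    have : (0 : ℝ) ≤ q ^ 3 := by positivity
    linarith
  | insert p S h ih =>
    intro hS hqS v v' hv hv' x hx
    obtain ⟨hp, hS⟩ := (forall_mem_insert _ _ _).1 hS
    have hpq : p ≠ q := fun e => hqS (e ▸ mem_insert_self _ _)
    have ih := ih hS fun h => hqS (mem_insert_of_mem h)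
    have p0 : (0 : ℝ) < p := by exact_mod_cast hp.pos
    have hb : (p : ZMod q) ≠ 0 := fun e =>
      hpq ((Nat.prime_dvd_prime_iff_eq hq.out hp).1 ((ZMod.natCast_eq_zero_iff _ _).1 e)).symm
    rw [Gen_insert hq.out hp hpq hS h (abs_om q v v') hx, prod_insert h, mul_assoc _ _ (18 * _)]
    simp only [om_mul _ _ hb]
    exact step_le hp (mul_nonneg (prod_nonneg fun _ _ => by positivity) (by positivity))
      (ih _ _ hv hv' _ hx) (ih _ _ (div_ne_zero hv hb) (div_ne_zero hv' hb) _ (mul_pos p0 hx))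
      (ih _ _ (div_ne_zero (div_ne_zero hv hb) hb) (div_ne_zero (div_ne_zero hv' hb) hb) _
        (mul_pos p0 (mul_pos p0 hx)))

theorem inv_one (S : Finset ℕ) : (∀ p ∈ S, p.Prime) → q ∉ S → ∀ x > 0,
    |Gen (fun d => fS q S d * 1) x - (π ^ 2 / 6 * (∏ p ∈ insert q S, (1 - 1 / (p : ℝ) ^ 2)) / x +
      (1 - 1 / (q : ℝ)) / 2 * log (x / (2 * π)) - log q / q / 2)| ≤
      (∏ p ∈ S, (1 + 81 / (p : ℝ))) * (18 * q ^ 3) * qr x := by
  have q1 : (1 : ℝ) ≤ q := by exact_mod_cast hq.out.one_le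
  have q0 : (0 : ℝ) < q := by linarith
  have hl : ∀ p : ℝ, 0 < p → ∀ x > 0, log (p * x / (2 * π)) = log p + log (x / (2 * π)) :=
    fun p hp x hx => by
      rw [mul_div_assoc, log_mul hp.ne' (div_pos hx (by linarith [pi_pos])).ne']
  induction S using Finset.induction_on with
  | empty =>
    intro _ _ x hx
    have hg : ∀ d : ℕ, |gU ∅ d| ≤ 1 * d := fun d => by
      rw [abs_of_nonneg (gU_mem _ d).1, one_mul]; exact (gU_mem _ d).2
    have e0 : gU ∅ = fun d : ℕ => ∑ b ∈ d.divisors, 1 / (b : ℝ) := funext fun d => by simp [gU]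
    have e : Gen (fun d => fS q ∅ d * 1) x = T0 x - T0 (q * x) / q := by
      rw [← Gen_sigma hx, ← Gen_sigma (mul_pos q0 hx), ← e0]
      refine HasSum.tsum_eq (((hasSum_Gen hg hx).sub ((hasSum_Dv hq.out.pos
        (hasSum_Gen hg (mul_pos q0 hx))).div_const q)).congr_fun fun d => ?_)
      beta_reduce
      rw [fS, gU_insert hq.out (by simp) (notMem_empty q), prod_empty]
      ring
    have h1 := T0_approx hx
    have h2 := T0_approx (mul_pos q0 hx)
    rw [hl q q0 x hx, qr_mul q0.le] at h2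
    have h3 : |(T0 (q * x) - π ^ 2 / 6 / (q * x) - (log q + log (x / (2 * π))) / 2) / q| ≤
        9 * qr x := by
      rw [abs_div, abs_of_pos q0, div_le_iff₀ q0]
      nlinarith [qr_le_self q1, qr_nonneg x]
    have h4 : (1 : ℝ) ≤ q ^ 3 := one_le_pow₀ q1
    refine (le_of_eq (congrArg abs ?_)).trans ((abs_sub _ _).trans ((add_le_add h1 h3).trans ?_))
    · rw [e, insert_empty_eq, prod_singleton]
      field_simp
      ring
    · rw [prod_empty]
      nlinarith [qr_nonneg x]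
  | insert p S h ih =>
    intro hS hqS x hx
    obtain ⟨hp, hS⟩ := (forall_mem_insert _ _ _).1 hS
    have hpq : p ≠ q := fun e => hqS (e ▸ mem_insert_self _ _)
    have ih := ih hS fun h => hqS (mem_insert_of_mem h)
    have p2 : (2 : ℝ) ≤ p := by exact_mod_cast hp.two_le
    have p0 : (0 : ℝ) < p := by linarith
    have p1 : (p : ℝ) - 1 ≠ 0 := by linarith
    rw [Gen_insert hq.out hp hpq hS h (w := fun _ => 1) (fun _ => by norm_num) hx, insert_comm,
      prod_insert h, prod_insert (show p ∉ insert q S by simp [hpq, h]), mul_assoc _ _ (18 * _)]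
    refine (le_of_eq (congrArg abs ?_)).trans (step_le hp
      (mul_nonneg (prod_nonneg fun _ _ => by positivity) (by positivity))
      (ih _ hx) (ih _ (mul_pos p0 hx)) (ih _ (mul_pos p0 (mul_pos p0 hx))))
    rw [hl p p0 _ (mul_pos p0 hx), hl p p0 x hx]
    field_simp
    ring

theorem euler {U : Finset ℕ} {y : ℕ} (hy : 0 < y) (hU : ∀ p, p.Prime → p ≤ y → p ∈ U)
    (hU' : ∀ p ∈ U, p.Prime) : |π ^ 2 / 6 * ∏ p ∈ U, (1 - 1 / (p : ℝ) ^ 2) - 1| ≤ 1 / (y : ℝ) := by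
  let f : ℕ →* ℝ :=
    { toFun := fun n => 1 / (n : ℝ) ^ 2
      map_one' := by simp
      map_mul' := fun m n => by push_cast; rw [mul_pow, one_div_mul_one_div] }
  have hs : Summable f := hasSum_zeta_two.summable
  have h0 : ∀ n, 0 ≤ f n := fun n => show 0 ≤ 1 / (n : ℝ) ^ 2 by positivity
  have h1 := EulerProduct.prod_filter_prime_geometric_eq_tsum_factoredNumbers hs U
  rw [filter_true_of_mem hU', prod_inv_distrib, _root_.tsum_subtype] at h1
  have hs' : Summable ((Nat.factoredNumbers U).indicator f) := hs.indicator _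
  have i0 : ∀ n, 0 ≤ (Nat.factoredNumbers U).indicator f n := Set.indicator_nonneg fun n _ => h0 n
  have h2 : ∑' n, (Nat.factoredNumbers U).indicator f n ≤ π ^ 2 / 6 :=
    hasSum_le (fun n => Set.indicator_le_self' (fun n _ => h0 n) n) hs'.hasSum hasSum_zeta_two
  have h3 : ∑ n ∈ Ioc 0 y, f n ≤ ∑' n, (Nat.factoredNumbers U).indicator f n := by
    refine (sum_congr rfl fun n hn => ?_).le.trans (hs'.sum_le_tsum _ fun n _ => i0 n)
    rw [Set.indicator_of_mem]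
    exact Nat.mem_factoredNumbers'.2 fun p hp hd => hU p hp
      ((Nat.le_of_dvd (mem_Ioc.1 hn).1 hd).trans (mem_Ioc.1 hn).2)
  have h4 : 1 ≤ ∑ n ∈ Ioc 0 y, f n :=
    f.map_one.ge.trans (single_le_sum (fun n _ => h0 n) (mem_Ioc.2 ⟨one_pos, hy⟩))
  have h5 : π ^ 2 / 6 ≤ ∑ n ∈ Ioc 0 y, f n + 1 / y := by
    rw [← hasSum_zeta_two.tsum_eq]
    refine hs.tsum_le_of_sum_range_le fun n => ?_
    have a1 := sum_Ioc_inv_sq_le_sub (α := ℝ) hy.ne' (Nat.le_add_right y n)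
    have a2 : ∑ i ∈ range n, f i ≤ ∑ i ∈ Ioc 0 (y + n), f i := by
      rw [← sum_filter_ne_zero]
      refine sum_le_sum_of_subset_of_nonneg (fun i hi => ?_) fun i _ _ => h0 i
      obtain ⟨b1, b2⟩ := mem_filter.1 hi
      refine mem_Ioc.2 ⟨Nat.pos_of_ne_zero ?_, by have := mem_range.1 b1; omega⟩
      rintro rfl
      exact b2 (show 1 / ((0 : ℕ) : ℝ) ^ 2 = 0 by simp)
    have a3 : ∑ i ∈ Ioc y (y + n), f i = ∑ i ∈ Ioc y (y + n), ((i : ℝ) ^ 2)⁻¹ :=
      sum_congr rfl fun i _ => one_div _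
    have a4 : (0 : ℝ) ≤ ((y + n : ℕ) : ℝ)⁻¹ := by positivity
    rw [← sum_Ioc_consecutive _ (Nat.zero_le y) (Nat.le_add_right y n), a3] at a2
    rw [one_div]
    linarith
  have e : ∏ p ∈ U, (1 - 1 / (p : ℝ) ^ 2) = (∑' n, (Nat.factoredNumbers U).indicator f n)⁻¹ := by
    rw [← h1, inv_inv]
    rfl
  have y0 : (0 : ℝ) ≤ 1 / y := by positivity
  rw [e]
  generalize ∑' n, (Nat.factoredNumbers U).indicator f n = A at *
  have A0 : 0 < A := by linarith
  rw [← div_eq_mul_inv, div_sub_one A0.ne', abs_div, abs_of_pos A0, abs_of_nonneg (by linarith),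
    div_le_iff₀ A0]
  nlinarith

end Pool.Agent.Lib.MP_a3b3a7_nt.M
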