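import Pool.Agent.Lib.MP_a3b3a7_nt.M.Count
import Pool.Agent.Lib.MP_a3b3a7_nt.M.Mert

/-! Choice of the parameters. -/

open Finset Function Real Filter
open scoped BigOperators

namespace Pool.Agent.Lib.MP_a3b3a7_nt.M

theorem ev_log (c : ℝ) (n : ℕ) : ∀ᶠ u : ℝ in atTop, c * log u ^ n ≤ u := by
  have h0 : 0 < |c| + 1 := by positivity
  filter_upwards [(isLittleO_pow_log_id_atTop (n := n)).bound (one_div_pos.2 h0),
    eventually_ge_atTop 1] with u h hu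
  have h1 : 0 ≤ log u ^ n := pow_nonneg (log_nonneg hu) n
  rw [Real.norm_of_nonneg h1, id, Real.norm_of_nonneg (by linarith), one_div_mul_eq_div,
    le_div_iff₀ h0] at h
  nlinarith [le_abs_self c]

theorem mert : ∃ C : ℝ, 0 < C ∧ (∀ (V : Finset ℕ) (t : ℕ), 2 ≤ t → (∀ p ∈ V, p.Prime ∧ p ≤ t) →
    ∑ p ∈ V, 1 / (p : ℝ) ≤ log (log t) + C) ∧
    ∀ t : ℕ, 2 ≤ t → log (log t) - C ≤ ∑ p ∈ Nat.primesLE t, 1 / (p : ℝ) := by
  obtain ⟨C, C0, h⟩ := Mert.S_bound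
  have e : ∀ t, Mert.S t = ∑ p ∈ Nat.primesLE t, 1 / (p : ℝ) := fun t => by
    rw [Mert.S, ← sum_filter]
    refine sum_congr ?_ fun _ _ => rfl
    ext p
    simp only [mem_filter, mem_Ioc, Nat.mem_primesLE]
    exact ⟨fun h => ⟨h.1.2, h.2⟩, fun h => ⟨⟨h.2.pos, h.1⟩, h.2⟩⟩
  refine ⟨C, C0, fun V t ht hV => ?_, fun t ht => by linarith [(abs_le.1 (h t ht)).1, e t]⟩
  have : ∑ p ∈ V, 1 / (p : ℝ) ≤ ∑ p ∈ Nat.primesLE t, 1 / (p : ℝ) :=
    sum_le_sum_of_subset_of_nonneg (fun p hp => Nat.mem_primesLE.2 ⟨(hV p hp).2, (hV p hp).1⟩)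
      fun _ _ _ => by positivity
  linarith [(abs_le.1 (h t ht)).2, e t]

theorem prod_bounds {V : Finset ℕ} (hV : ∀ p ∈ V, p.Prime) :
    rexp (-(∑ p ∈ V, 1 / (p : ℝ) + 2)) ≤ ∏ p ∈ V, (1 - 1 / (p : ℝ)) ∧
    ∏ p ∈ V, (1 - 1 / (p : ℝ)) ≤ rexp (-∑ p ∈ V, 1 / (p : ℝ)) := by
  have ht : ∀ p ∈ V, 0 < 1 / (p : ℝ) ∧ 1 / (p : ℝ) ≤ 1 / 2 := fun p hp =>
    have : (2 : ℝ) ≤ p := by exact_mod_cast (hV p hp).two_le
    ⟨by positivity, one_div_le_one_div_of_le two_pos this⟩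
  constructor
  · have h1 := tail_sq (P := id) injective_id one_pos fun p hp => (hV p hp).one_lt
    simp only [id, Nat.cast_one, div_one] at h1
    refine le_trans (exp_le_exp.2 (show _ ≤ ∑ p ∈ V, -(1 / (p : ℝ) + 2 * (1 / (p : ℝ) ^ 2)) by
      rw [sum_neg_distrib, sum_add_distrib, ← mul_sum]; linarith)) ?_
    rw [exp_sum]
    refine prod_le_prod (fun _ _ => (exp_pos _).le) fun p hp => ?_
    obtain ⟨t0, t1⟩ := ht p hp
    rw [← one_div_pow]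
    generalize 1 / (p : ℝ) = t at *
    rw [exp_neg, inv_le_iff_one_le_mul₀ (exp_pos _)]
    nlinarith [mul_le_mul_of_nonneg_left (add_one_le_exp (t + 2 * t ^ 2))
      (show 0 ≤ 1 - t by linarith), mul_pos t0 t0]
  · rw [← sum_neg_distrib, exp_sum]
    exact prod_le_prod (fun p hp => by linarith [(ht p hp).2])
      fun p _ => by linarith [add_one_le_exp (-(1 / (p : ℝ)))]

theorem eta_ok {l c b σ h s z x : ℝ} (l3 : 3 ≤ l) (c0 : 0 ≤ c) (hb : b ≤ c * l ^ 2) (b0 : 0 ≤ b)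
    (hσ : σ ≤ l) (h0 : 0 ≤ h) (hh : h + 1 ≤ rexp (3 * l)) (s0 : 0 ≤ s) (hs : s ≤ z) (z3 : 3 ≤ z)
    (hx : rexp (6 * (21 * c + 62) * l ^ 3 * log z) ≤ x) : ∃ K r : ℕ,
    (K + 1) * ((h + 1) ^ K * ((r + 1) * ((s + 1) ^ r * (z ^ (r + 1) / x)) +
      2 * rexp (3 * ((K + 2) * σ) - r))) + 2 * rexp (3 * b - K) ≤ rexp (-(5 * l)) := by
  obtain ⟨K, K1, K2⟩ : ∃ K : ℕ, 3 * b + 6 * l ≤ K ∧ K ≤ (3 * c + 7) * l ^ 2 :=
    ⟨_, Nat.le_ceil _, (Nat.ceil_lt_add_one (by linarith)).le.trans (by nlinarith)⟩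
  have K0 : (0 : ℝ) ≤ K := Nat.cast_nonneg K
  have Kl : 0 ≤ K * l := mul_nonneg K0 (by linarith)
  obtain ⟨r, r1, r2⟩ : ∃ r : ℕ, 7 * (K * l) + 12 * l ≤ r ∧ r ≤ (21 * c + 62) * l ^ 3 := by
    refine ⟨_, Nat.le_ceil _, (Nat.ceil_lt_add_one (by linarith)).le.trans ?_⟩
    have a1 := mul_le_mul_of_nonneg_right K2 (show 0 ≤ l by linarith)
    have a2 : l ≤ l ^ 3 := le_self_pow₀ (by linarith) (by norm_num)
    nlinarith
  refine ⟨K, r, ?_⟩
  have x0 : 0 < x := (exp_pos _).trans_le hx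
  have lz : 1 ≤ log z := (le_log_iff_exp_le (by linarith)).2 (by linarith [exp_one_lt_d9])
  have a1 : (K + 1) * (h + 1) ^ K ≤ rexp (4 * (K * l)) :=
    calc _ ≤ rexp K * rexp (3 * l) ^ K := by gcongr; exact add_one_le_exp _
      _ = rexp (K + K * (3 * l)) := by rw [exp_add, exp_nat_mul]
      _ ≤ _ := exp_le_exp.2 (by nlinarith)
  have a2 : (r + 1) * ((s + 1) ^ r * (z ^ (r + 1) / x)) ≤ rexp (-r) := by
    have e : z = rexp (log z) := (exp_log (by linarith)).symm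
    have b1 : s + 1 ≤ rexp (2 * log z) := by
      rw [two_mul, exp_add, ← e]; nlinarith
    have b2 := mul_le_mul_of_nonneg_right r2 (show 0 ≤ log z by linarith)
    have b3 := mul_le_mul_of_nonneg_left lz (Nat.cast_nonneg (α := ℝ) r)
    have b4 := mul_le_mul_of_nonneg_right (show (1 : ℝ) ≤ r by linarith)
      (show 0 ≤ log z by linarith)
    calc _ ≤ rexp r * (rexp (2 * log z) ^ r * (rexp (log z) ^ (r + 1) /
          rexp (6 * (21 * c + 62) * l ^ 3 * log z))) := by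
          rw [← e]
          gcongr
          exact add_one_le_exp _
      _ = rexp (r + (r * (2 * log z) + ((r + 1 : ℕ) * log z -
          6 * (21 * c + 62) * l ^ 3 * log z))) := by
          rw [exp_add, exp_add, exp_sub, exp_nat_mul, exp_nat_mul]
      _ ≤ _ := exp_le_exp.2 (by push_cast; linarith)
  have a3 : rexp (-r) ≤ rexp (-(4 * (K * l) + 6 * l)) := exp_le_exp.2 (by linarith)
  have a4 : rexp (3 * ((K + 2) * σ) - r) ≤ rexp (-(4 * (K * l) + 6 * l)) :=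
    exp_le_exp.2 (by nlinarith [mul_le_mul_of_nonneg_left hσ (show (0 : ℝ) ≤ K + 2 by linarith)])
  have a5 : rexp (3 * b - K) ≤ rexp (-(6 * l)) := exp_le_exp.2 (by linarith)
  have a6 : rexp (4 * (K * l)) * rexp (-(4 * (K * l) + 6 * l)) = rexp (-(6 * l)) := by
    rw [← exp_add]; congr 1; ring
  have a7 : 5 * rexp (-(6 * l)) ≤ rexp (-(5 * l)) := by
    rw [show -(5 * l) = l + -(6 * l) by ring, exp_add]
    refine mul_le_mul_of_nonneg_right ?_ (exp_pos _).le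
    nlinarith [quadratic_le_exp_of_nonneg (show 0 ≤ l by linarith)]
  have a8 : (K + 1) * (h + 1) ^ K * ((r + 1) * ((s + 1) ^ r * (z ^ (r + 1) / x)) +
      2 * rexp (3 * ((K + 2) * σ) - r)) ≤ rexp (4 * (K * l)) *
      (3 * rexp (-(4 * (K * l) + 6 * l))) :=
    mul_le_mul a1 (by linarith) (by positivity) (exp_pos _).le
  rw [← mul_assoc]
  linarith

theorem par_nat {q : ℕ} {u : ℝ} (q2 : 2 ≤ q) (lu : 1 ≤ log u) (u3 : 3 ≤ u)
    (hq : 120000 * q * log u ≤ u) : ∃ R k J : ℕ, 0 < R ∧ R ≤ u * u ^ 80 ∧ R ^ 4 ≤ 2 ^ k ∧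
      (k : ℝ) + 1 ≤ u ∧ q * (J + R ^ 2) ≤ R ^ 4 ∧ 0 < J ∧
      rexp (-(J / (2 * (u ^ 80) ^ 4))) ≤ 1 / (u ^ 80) ^ 20 ∧
      J ≤ 11 * (u ^ 80) ^ 4 * log ((u ^ 80) ^ 4) := by
  have q2' : (2 : ℝ) ≤ q := by exact_mod_cast q2
  have u1 : 1 ≤ u := by linarith
  have w1 : 1 ≤ u ^ 80 := one_le_pow₀ u1
  have L1 : 1 ≤ (u ^ 80) ^ 4 := one_le_pow₀ w1
  have el : log ((u ^ 80) ^ 4) = 320 * log u := by
    rw [log_pow, log_pow]; push_cast; ring
  have a1 : u ≤ u * u ^ 80 := le_mul_of_one_le_right (by linarith) w1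
  obtain ⟨R, R1, R2⟩ : ∃ R : ℕ, R ≤ u * u ^ 80 ∧ u * u ^ 80 / 2 ≤ R :=
    ⟨_, Nat.floor_le (by linarith), by linarith [Nat.lt_floor_add_one (u * u ^ 80)]⟩
  obtain ⟨k, k1, k2⟩ : ∃ k : ℕ, k ≤ u - 1 ∧ u - 2 ≤ k :=
    ⟨_, Nat.floor_le (by linarith), by linarith [Nat.lt_floor_add_one (u - 1)]⟩
  have a2 : 1 ≤ (u ^ 80) ^ 4 * log ((u ^ 80) ^ 4) :=
    one_le_mul_of_one_le_of_one_le L1 (by linarith)
  obtain ⟨J, J1, J2⟩ : ∃ J : ℕ, 10 * ((u ^ 80) ^ 4 * log ((u ^ 80) ^ 4)) ≤ J ∧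
      J ≤ 11 * ((u ^ 80) ^ 4 * log ((u ^ 80) ^ 4)) :=
    ⟨_, Nat.le_ceil _, (Nat.ceil_lt_add_one (by linarith)).le.trans (by linarith)⟩
  have ql : q ≤ q * log u := le_mul_of_one_le_right (by linarith) lu
  have ql' : 2 * log u ≤ q * log u := by gcongr
  refine ⟨R, k, J, by exact_mod_cast (show (0 : ℝ) < R by linarith), R1, ?_, by linarith, ?_,
    by exact_mod_cast (show (0 : ℝ) < J by linarith), ?_, by linarith⟩
  · have : (R : ℝ) ^ 4 ≤ 2 ^ k :=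
      calc _ ≤ (u * u ^ 80) ^ 4 := by gcongr
        _ = rexp ((324 : ℕ) * log u) := by rw [exp_nat_mul, exp_log (by linarith)]; ring
        _ ≤ rexp (k * log 2) := exp_le_exp.2 (by
          push_cast
          nlinarith [mul_le_mul k2 (show 1 / 2 ≤ log 2 by linarith [log_two_gt_d9]) (by norm_num)
            (Nat.cast_nonneg k)])
        _ = _ := by rw [exp_nat_mul, exp_log two_pos]
    exact_mod_cast this
  · have b1 : (q : ℝ) * R ^ 2 ≤ R ^ 4 / 2 := by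
      have : 2 * q ≤ (R : ℝ) ^ 2 := le_trans (by linarith) (le_self_pow₀ (by linarith) two_ne_zero)
      nlinarith [mul_le_mul_of_nonneg_right this (sq_nonneg (R : ℝ))]
    have b2 : (q : ℝ) * J ≤ R ^ 4 / 2 :=
      calc _ ≤ q * (11 * ((u ^ 80) ^ 4 * log ((u ^ 80) ^ 4))) := by gcongr
        _ = 3520 * (q * log u) * (u ^ 80) ^ 4 := by rw [el]; ring
        _ ≤ u ^ 4 / 32 * (u ^ 80) ^ 4 := by
          gcongr
          linarith [le_self_pow₀ u1 (show 4 ≠ 0 by norm_num)]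
        _ = (u * u ^ 80 / 2) ^ 4 / 2 := by ring
        _ ≤ _ := by gcongr
    have : (q : ℝ) * (J + R ^ 2) ≤ R ^ 4 := by linarith
    exact_mod_cast this
  · rw [show (u ^ 80) ^ 20 = rexp ((5 : ℕ) * log ((u ^ 80) ^ 4)) by
      rw [exp_nat_mul, exp_log (by positivity)]; ring, one_div, ← exp_neg]
    refine exp_le_exp.2 (neg_le_neg ?_)
    rw [le_div_iff₀ (by positivity)]
    push_cast
    linarith

end Pool.Agent.Lib.MP_a3b3a7_nt.M
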