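import Mathlib

/-!
Averages over finite product spaces, and the fundamental lemma of Montgomery and Vaughan in
physical space.
-/

set_option autoImplicit false
set_option linter.unusedSectionVars false

open Finset Function
open scoped BigOperators

namespace Pool.Agent.Lib.MP_a3b3a7_nt.M

variable {ι : Type} [Fintype ι] [DecidableEq ι] {A : ι → Type} [∀ i, Fintype (A i)]
  [∀ i, Nonempty (A i)]

theorem E_av (i : ι) (f : (∀ i, A i) → ℝ) :
    𝔼 ω : (∀ i, A i), 𝔼 a : A i, f (update ω i a) = 𝔼 ω, f ω := by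
  have h := Fintype.expect_bijective (fun z : (∀ i, A i) × A i => (update z.1 i z.2, z.1 i))
    (Involutive.bijective fun z => by simp) (fun z => f (update z.1 i z.2)) (fun z => f z.1)
    fun _ => rfl
  rw [← univ_product_univ, expect_product, expect_product] at h
  simpa using h

theorem E_prod (T : Finset ι) (g : ∀ i, A i → ℝ) :
    𝔼 ω : (∀ i, A i), ∏ i ∈ T, g i (ω i) = ∏ i ∈ T, 𝔼 a, g i a := by
  induction T using Finset.induction_on with
  | empty => simp
  | insert i T hi ih =>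
    rw [prod_insert hi, ← ih, ← E_av i, mul_expect]
    refine expect_congr rfl fun ω _ => ?_
    rw [expect_mul]
    refine expect_congr rfl fun a _ => ?_
    rw [prod_insert hi, update_self]
    refine congrArg _ (prod_congr rfl fun j hj => ?_)
    rw [update_of_ne (ne_of_mem_of_not_mem hj hi)]

theorem dep_update {f : (∀ i, A i) → ℝ} {S : Finset ι} (h : DependsOn f S) {i : ι} (hi : i ∉ S)
    (ω : ∀ i, A i) (a : A i) : f (update ω i a) = f ω :=
  h fun _ hj => update_of_ne (ne_of_mem_of_not_mem hj hi) _ _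

theorem finner {K : Type} [Fintype K] [DecidableEq K] (U : Finset ι) :
    ∀ (S : K → Finset ι) (f : K → (∀ i, A i) → ℝ), (∀ k, DependsOn (f k) (S k)) →
      (∀ k, S k ⊆ U) → (∀ i ∈ U, ∃ k l, k ≠ l ∧ i ∈ S k ∧ i ∈ S l) →
      (∏ i ∈ U, (Fintype.card (A i) : ℝ)) * 𝔼 ω, ∏ k, |f k ω| ≤
        ∏ k, √((∏ i ∈ S k, (Fintype.card (A i) : ℝ)) * 𝔼 ω, f k ω ^ 2) := by
  induction U using Finset.induction_on with
  | empty =>
    intro S f hd hU _
    obtain ⟨ω₀⟩ : Nonempty (∀ i, A i) := inferInstance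
    have h : ∀ k ω, f k ω = f k ω₀ := fun k ω => hd k fun j hj => by
      simp [subset_empty.1 (hU k)] at hj
    simp only [h, Fintype.expect_const, subset_empty.1 (hU _), prod_empty, one_mul,
      Real.sqrt_sq_eq_abs, le_refl]
  | insert i U hi ih =>
    intro S f hd hU h2
    let g : K → (∀ i, A i) → ℝ := fun k ω =>
      if i ∈ S k then √(∑ a, f k (update ω i a) ^ 2) else |f k ω|
    have g0 : ∀ k ω, 0 ≤ g k ω := fun k ω => by
      dsimp only [g]
      split_ifs <;> positivity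
    have g1 : ∀ k ω a, |f k (update ω i a)| ≤ g k ω := fun k ω a => by
      dsimp only [g]
      split_ifs with h
      · exact Real.abs_le_sqrt (single_le_sum (f := fun a => f k (update ω i a) ^ 2)
          (fun _ _ => sq_nonneg _) (mem_univ a))
      · rw [dep_update (hd k) h]
    have hp : ∀ ω, (Fintype.card (A i) : ℝ) * 𝔼 a, ∏ k, |f k (update ω i a)| ≤ ∏ k, |g k ω| := by
      intro ω
      obtain ⟨k, l, hkl, hk, hl⟩ := h2 i (mem_insert_self _ _)
      have e : ∀ u : K → ℝ, ∏ j, u j = u k * u l * ∏ j ∈ (univ.erase k).erase l, u j := fun u => by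
        rw [mul_assoc, mul_prod_erase _ _ (mem_erase.2 ⟨hkl.symm, mem_univ _⟩),
          mul_prod_erase _ _ (mem_univ _)]
      rw [Fintype.card_mul_expect, e]
      simp only [abs_of_nonneg (g0 _ _)]
      calc _ ≤ ∑ a, |f k (update ω i a)| * |f l (update ω i a)| *
            ∏ j ∈ (univ.erase k).erase l, g j ω := sum_le_sum fun a _ => by
              rw [e]
              exact mul_le_mul_of_nonneg_left (prod_le_prod (fun _ _ => abs_nonneg _)
                fun j _ => g1 j ω a) (by positivity)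
        _ ≤ _ := by
          rw [← sum_mul]
          refine mul_le_mul_of_nonneg_right ?_ (prod_nonneg fun _ _ => g0 _ _)
          refine (Real.sum_mul_le_sqrt_mul_sqrt _ _ _).trans (le_of_eq ?_)
          simp only [g, if_pos hk, if_pos hl, sq_abs]
    have h := ih (fun k => (S k).erase i) g (fun k ω ω' hω => ?_)
      (fun k => subset_insert_iff.1 (hU k)) fun j hj => ?_
    · rw [prod_insert hi, ← E_av i, mul_comm (Fintype.card (A i) : ℝ), mul_assoc, mul_expect]
      refine (mul_le_mul_of_nonneg_left (expect_le_expect fun ω _ => hp ω)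
        (prod_nonneg fun _ _ => Nat.cast_nonneg _)).trans (h.trans (le_of_eq ?_))
      refine prod_congr rfl fun k _ => congrArg _ ?_
      dsimp only [g]
      split_ifs with hk
      · have e : 𝔼 ω : (∀ i, A i), √(∑ a, f k (update ω i a) ^ 2) ^ 2 =
            (Fintype.card (A i) : ℝ) * 𝔼 ω, f k ω ^ 2 := by
          rw [← E_av i fun ω => f k ω ^ 2, mul_expect]
          refine expect_congr rfl fun ω _ => ?_
          rw [Real.sq_sqrt (sum_nonneg fun _ _ => sq_nonneg _), Fintype.card_mul_expect]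
        rw [e, ← mul_prod_erase _ _ hk]
        ring
      · simp only [erase_eq_of_notMem hk, sq_abs]
    · dsimp only [g]
      split_ifs with hk
      · refine congrArg _ (sum_congr rfl fun a _ => congrArg (· ^ 2) (hd k fun j hj => ?_))
        rcases eq_or_ne j i with rfl | hji
        · simp
        · rw [update_of_ne hji, update_of_ne hji]
          exact hω j (mem_erase.2 ⟨hji, hj⟩)
      · rw [erase_eq_of_notMem hk] at hω
        rw [hd k hω]
    · obtain ⟨k, l, hkl, hk, hl⟩ := h2 j (mem_insert_of_mem hj)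
      have hji := ne_of_mem_of_not_mem hj hi
      exact ⟨k, l, hkl, mem_erase.2 ⟨hji, hk⟩, mem_erase.2 ⟨hji, hl⟩⟩

/-- The `L²` norm for the uniform measure. -/
noncomputable def n2 {Ω : Type} [Fintype Ω] (f : Ω → ℝ) : ℝ := √(𝔼 ω, f ω ^ 2)

section

variable {Ω : Type} [Fintype Ω]

theorem n2_nonneg (f : Ω → ℝ) : 0 ≤ n2 f := Real.sqrt_nonneg _

theorem sq_n2 (f : Ω → ℝ) : n2 f ^ 2 = 𝔼 ω, f ω ^ 2 :=
  Real.sq_sqrt (expect_nonneg fun _ _ => sq_nonneg _)

theorem abs_E_mul (f g : Ω → ℝ) : |𝔼 ω, f ω * g ω| ≤ n2 f * n2 g := by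
  rw [n2, n2, ← Real.sqrt_mul (expect_nonneg fun _ _ => sq_nonneg _)]
  exact Real.abs_le_sqrt (expect_mul_sq_le_sq_mul_sq _ _ _)

theorem n2_add (f g : Ω → ℝ) : n2 (fun ω => f ω + g ω) ≤ n2 f + n2 g := by
  refine Real.sqrt_le_iff.2 ⟨add_nonneg (n2_nonneg _) (n2_nonneg _), ?_⟩
  have h := (le_abs_self _).trans (abs_E_mul f g)
  have e : 𝔼 ω, (f ω + g ω) ^ 2 = 𝔼 ω, f ω ^ 2 + 2 * 𝔼 ω, f ω * g ω + 𝔼 ω, g ω ^ 2 := by
    rw [mul_expect, ← expect_add_distrib, ← expect_add_distrib]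
    exact expect_congr rfl fun ω _ => by ring
  rw [e, ← sq_n2, ← sq_n2]
  nlinarith

theorem n2_mono {f g : Ω → ℝ} (h : ∀ ω, |f ω| ≤ |g ω|) : n2 f ≤ n2 g :=
  Real.sqrt_le_sqrt (expect_le_expect fun ω _ => sq_le_sq.2 (h ω))

theorem n2_const_mul (c : ℝ) (f : Ω → ℝ) : n2 (fun ω => c * f ω) = |c| * n2 f := by
  simp only [n2, mul_pow, ← mul_expect]
  rw [Real.sqrt_mul (sq_nonneg c), Real.sqrt_sq_eq_abs]

theorem n2_sub (f g : Ω → ℝ) : n2 (fun ω => f ω - g ω) ≤ n2 f + n2 g := by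
  have h := n2_add f fun ω => -1 * g ω
  rw [n2_const_mul] at h
  simpa [sub_eq_add_neg] using h

theorem n2_bdd_mul {f : Ω → ℝ} {c : ℝ} (h : ∀ ω, |f ω| ≤ c) (hc : 0 ≤ c) (g : Ω → ℝ) :
    n2 (fun ω => f ω * g ω) ≤ c * n2 g := by
  refine (n2_mono (g := fun ω => c * g ω) fun ω => ?_).trans_eq ?_
  · rw [abs_mul, abs_mul, abs_of_nonneg hc]
    exact mul_le_mul_of_nonneg_right (h ω) (abs_nonneg _)
  · rw [n2_const_mul, abs_of_nonneg hc]

theorem n2_le_of_bdd [Nonempty Ω] {f : Ω → ℝ} {c : ℝ} (h : ∀ ω, |f ω| ≤ c) : n2 f ≤ c := by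
  obtain ⟨ω₀⟩ : Nonempty Ω := inferInstance
  have hc := (abs_nonneg _).trans (h ω₀)
  exact Real.sqrt_le_iff.2 ⟨hc, expect_le univ_nonempty fun ω _ =>
    sq_le_sq.2 ((h ω).trans (le_abs_self _))⟩

theorem abs_E_le [Nonempty Ω] (f : Ω → ℝ) : |𝔼 ω, f ω| ≤ n2 f := by
  have h := abs_E_mul (fun _ => 1) f
  have h1 : n2 (fun _ : Ω => (1 : ℝ)) ≤ 1 := n2_le_of_bdd fun _ => by simp
  simp only [one_mul] at h
  exact h.trans (mul_le_of_le_one_left (n2_nonneg _) h1)

theorem n2_sum {κ : Type} (s : Finset κ) (f : κ → Ω → ℝ) :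
    n2 (fun ω => ∑ k ∈ s, f k ω) ≤ ∑ k ∈ s, n2 (f k) := by
  classical
  induction s using Finset.induction_on with
  | empty => simp [n2]
  | insert k s hk ih =>
    simp only [sum_insert hk]
    exact (n2_add _ _).trans (by linarith)

/-- The square of the `L⁴` norm. -/
noncomputable def n4 (f : Ω → ℝ) : ℝ := n2 fun ω => f ω ^ 2

theorem n4_nonneg (f : Ω → ℝ) : 0 ≤ n4 f := n2_nonneg _

theorem n2_mul {f g : Ω → ℝ} {c : ℝ} (hc : 0 ≤ c) (h : n4 f * n4 g ≤ c ^ 2) :
    n2 (fun ω => f ω * g ω) ≤ c := by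
  refine Real.sqrt_le_iff.2 ⟨hc, le_trans ?_ h⟩
  simp only [mul_pow]
  exact (le_abs_self _).trans (abs_E_mul _ _)

theorem n2_le_of_n4 [Nonempty Ω] {f : Ω → ℝ} {c : ℝ} (hc : 0 ≤ c) (h : n4 f ≤ c ^ 2) :
    n2 f ≤ c :=
  Real.sqrt_le_iff.2 ⟨hc, (le_abs_self _).trans ((abs_E_le _).trans h)⟩

end

end Pool.Agent.Lib.MP_a3b3a7_nt.M
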