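import Pool.Agent.Lib.MP_a3b3a7_nt.M.Model

/-! Transfer from the full period to an initial interval by two Bonferroni expansions. -/

open Finset Function Real
open scoped BigOperators

namespace Pool.Agent.Lib.MP_a3b3a7_nt.M

section

variable {κ : Type} [DecidableEq κ]

theorem es_insert (c : κ → ℝ) {a : κ} {S : Finset κ} (h : a ∉ S) (k : ℕ) :
    ∑ D ∈ powersetCard (k + 1) (insert a S), ∏ i ∈ D, c i =
      ∑ D ∈ powersetCard (k + 1) S, ∏ i ∈ D, c i + c a * ∑ D ∈ powersetCard k S, ∏ i ∈ D, c i := by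
  have hn : ∀ {m D}, D ∈ powersetCard m S → a ∉ D := fun hD h' =>
    h ((mem_powersetCard.1 hD).1 h')
  rw [powersetCard_succ_insert h, sum_union, sum_image, mul_sum]
  · exact congrArg _ (sum_congr rfl fun D hD => prod_insert (hn hD))
  · intro D hD E hE e
    rw [← erase_insert (hn hD), e, erase_insert (hn hE)]
  · refine disjoint_left.2 fun D hD hD' => ?_
    obtain ⟨E, -, rfl⟩ := mem_image.1 hD'
    exact hn hD (mem_insert_self _ _)

theorem bonf_sign (c : κ → ℝ) (hc : ∀ i, 0 ≤ c i ∧ c i ≤ 1) (S : Finset κ) : ∀ r : ℕ,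
    0 ≤ (-1) ^ r * (∏ i ∈ S, (1 - c i) -
      ∑ k ∈ range r, (-1) ^ k * ∑ D ∈ powersetCard k S, ∏ i ∈ D, c i) := by
  induction S using Finset.induction_on with
  | empty =>
    intro r
    cases r with
    | zero => simp
    | succ r =>
      have e : ∀ k, powersetCard (k + 1) (∅ : Finset κ) = ∅ := fun k =>
        powersetCard_eq_empty.2 k.succ_pos
      simp [sum_range_succ', e]
  | insert a S h ih =>
    intro r
    cases r with
    | zero => simpa using prod_nonneg fun i _ => sub_nonneg.2 (hc i).2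
    | succ r =>
      have h1 := ih (r + 1)
      have h2 := mul_nonneg (hc a).1 (ih r)
      have e : ∑ k ∈ range r, (-1 : ℝ) ^ (k + 1) * (c a * ∑ D ∈ powersetCard k S, ∏ i ∈ D, c i) =
          -(c a * ∑ k ∈ range r, (-1) ^ k * ∑ D ∈ powersetCard k S, ∏ i ∈ D, c i) := by
        rw [mul_sum, ← sum_neg_distrib]
        exact sum_congr rfl fun k _ => by ring
      rw [sum_range_succ'] at h1 ⊢
      simp only [es_insert c h, mul_add, sum_add_distrib, powersetCard_zero] at h1 ⊢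
      rw [e, prod_insert h]
      rw [pow_succ] at h1 ⊢
      linarith

theorem bonf (c : κ → ℝ) (hc : ∀ i, 0 ≤ c i ∧ c i ≤ 1) (S : Finset κ) (r : ℕ) :
    |∏ i ∈ S, (1 - c i) - ∑ k ∈ range r, (-1) ^ k * ∑ D ∈ powersetCard k S, ∏ i ∈ D, c i| ≤
      ∑ D ∈ powersetCard r S, ∏ i ∈ D, c i := by
  have h1 := bonf_sign c hc S r
  have h2 := bonf_sign c hc S (r + 1)
  rw [sum_range_succ, pow_succ] at h2
  rw [abs_le]
  rcases neg_one_pow_eq_or ℝ r with h | h <;> rw [h] at h1 h2 <;> constructor <;> linarith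

omit [DecidableEq κ] in
theorem es_le (c : κ → ℝ) (hc : ∀ i, 0 ≤ c i) (S : Finset κ) (r : ℕ) :
    ∑ D ∈ powersetCard r S, ∏ i ∈ D, c i ≤ rexp (3 * ∑ i ∈ S, c i - r) := by
  have h1 := prod_one_add_le_exp_sum S (f := fun i => 3 * c i) fun i => by linarith [hc i]
  have h2 : rexp r * ∑ D ∈ powersetCard r S, ∏ i ∈ D, c i ≤
      ∑ D ∈ powersetCard r S, ∏ i ∈ D, 3 * c i := by
    rw [mul_sum]
    refine sum_le_sum fun D hD => ?_
    rw [prod_mul_distrib, prod_const, (mem_powersetCard.1 hD).2, ← exp_one_pow]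
    exact mul_le_mul_of_nonneg_right (pow_le_pow_left₀ (exp_pos 1).le
      (by linarith [exp_one_lt_d9]) r) (prod_nonneg fun i _ => hc i)
  rw [prod_one_add, ← mul_sum] at h1
  rw [exp_sub, le_div_iff₀' (exp_pos _)]
  exact h2.trans ((sum_le_sum_of_subset_of_nonneg
    (fun D hD => mem_powerset.2 (mem_powersetCard.1 hD).1)
    fun D _ _ => prod_nonneg fun i _ => by linarith [hc i]).trans h1)

end

variable {ι : Type} [Fintype ι] [DecidableEq ι] (P : ι → ℕ) [hP : ∀ i, Fact (P i).Prime]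

/-- The residues of an integer. -/
def res (n : ℕ) : ∀ i, ZMod (P i) := fun _ => n

/-- Discrepancy between an initial interval and the full period. -/
noncomputable def dl (x : ℕ) (f : (∀ i, ZMod (P i)) → ℝ) : ℝ :=
  𝔼 n ∈ range x, f (res P n) - 𝔼 ω, f ω

theorem transfer {κ : Type} [DecidableEq κ] (x : ℕ) (W : (∀ i, ZMod (P i)) → ℝ)
    (H : κ → (∀ i, ZMod (P i)) → ℝ) (hW : ∀ ω, 0 ≤ W ω) (hH : ∀ i ω, 0 ≤ H i ω ∧ H i ω ≤ 1)
    (S : Finset κ) (r : ℕ) {η : ℝ} (c : κ → ℝ) (hc : ∀ i, 0 ≤ c i)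
    (h1 : ∀ D ⊆ S, #D ≤ r → |dl P x fun ω => W ω * ∏ i ∈ D, H i ω| ≤ η)
    (h2 : ∀ D ⊆ S, 𝔼 ω, W ω * ∏ i ∈ D, H i ω ≤ ∏ i ∈ D, c i) :
    |dl P x fun ω => W ω * ∏ i ∈ S, (1 - H i ω)| ≤
      (r + 1) * ((#S + 1) ^ r * η) + 2 * rexp (3 * ∑ i ∈ S, c i - r) := by
  have η0 : 0 ≤ η := (abs_nonneg _).trans (h1 ∅ (empty_subset _) (Nat.zero_le _))
  have key : ∀ {α : Type} (s : Finset α) (φ : α → ∀ i, ZMod (P i)),
      |𝔼 a ∈ s, W (φ a) * ∏ i ∈ S, (1 - H i (φ a)) - ∑ k ∈ range r, (-1) ^ k *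
        ∑ D ∈ powersetCard k S, 𝔼 a ∈ s, W (φ a) * ∏ i ∈ D, H i (φ a)| ≤
      ∑ D ∈ powersetCard r S, 𝔼 a ∈ s, W (φ a) * ∏ i ∈ D, H i (φ a) := by
    intro α s φ
    simp only [← expect_sum_comm, mul_expect, ← expect_sub_distrib]
    refine (abs_expect_le _ _).trans (expect_le_expect fun a _ => ?_)
    simp only [← mul_sum, mul_left_comm _ (W _), ← mul_sub]
    rw [abs_mul, abs_of_nonneg (hW _)]
    exact mul_le_mul_of_nonneg_left (bonf _ (fun i => hH i _) S r) (hW _)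
  have h3 : ∀ k ≤ r, |∑ D ∈ powersetCard k S, dl P x fun ω => W ω * ∏ i ∈ D, H i ω| ≤
      (#S + 1) ^ r * η := fun k hk => by
    refine (abs_sum_le_sum_abs _ _).trans ((sum_le_card_nsmul _ _ η fun D hD =>
      h1 D (mem_powersetCard.1 hD).1 ((mem_powersetCard.1 hD).2.trans_le hk)).trans ?_)
    rw [nsmul_eq_mul, card_powersetCard]
    refine mul_le_mul_of_nonneg_right ?_ η0
    exact_mod_cast (Nat.choose_le_pow _ _).trans ((Nat.pow_le_pow_left (Nat.le_succ _) k).trans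
      (Nat.pow_le_pow_right (Nat.succ_pos _) hk))
  have h4 := abs_sum_le (n := r) (f := fun k => (-1) ^ k *
      ∑ D ∈ powersetCard k S, dl P x fun ω => W ω * ∏ i ∈ D, H i ω)
    fun k hk => abs_mul_le (by simp) (h3 k hk.le)
  have h5 := (sum_le_sum fun D hD => h2 D (mem_powersetCard.1 hD).1).trans (es_le c hc S r)
  have h6 := key (range x) (res P)
  have h7 := key univ id
  have h8 := h3 r le_rfl
  simp only [dl, sum_sub_distrib, mul_sub, id] at h4 h8 h7 ⊢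
  rw [abs_le] at h4 h6 h7 h8 ⊢
  constructor <;> linarith [h4.1, h4.2, h6.1, h6.2, h7.1, h7.2, h8.1, h8.2]

variable {P}

theorem sum_period (hinj : Injective P) (f : (∀ i, ZMod (P i)) → ℝ) :
    ∑ n ∈ range (∏ i, P i), f (res P n) = (∏ i, P i : ℕ) * 𝔼 ω, f ω := by
  have : NeZero (∏ i, P i) := ⟨prod_ne_zero_iff.2 fun i _ => (hP i).out.ne_zero⟩
  let e := ZMod.prodEquivPi P fun i j h =>
    (Nat.coprime_primes (hP i).out (hP j).out).2 (hinj.ne h)
  rw [sum_zmod, ← expect_equiv e.toEquiv (s := univ) (by simp) fun _ _ => rfl,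
    ← congrArg Nat.cast (ZMod.card (∏ i, P i)), Fintype.card_mul_expect]
  refine sum_congr rfl fun r _ => congrArg f ?_
  conv_rhs => rw [← ZMod.natCast_zmod_val r]
  exact (map_natCast e _).symm

theorem junta (hinj : Injective P) {f : (∀ i, ZMod (P i)) → ℝ} {D : Finset ι}
    (hf : DependsOn f D) (h0 : ∀ ω, 0 ≤ f ω ∧ f ω ≤ 1) {x : ℕ} (hx : 0 < x) :
    |dl P x f| ≤ (∏ i ∈ D, P i : ℕ) / x := by
  have hm : 0 < ∏ i ∈ D, P i := prod_pos fun i _ => (hP i).out.pos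
  have hN : 0 < ∏ i ∈ Dᶜ, P i := prod_pos fun i _ => (hP i).out.pos
  have hb : ∀ r M, f (res P (r + (∏ i ∈ D, P i) * M)) = f (res P r) := fun r M =>
    hf fun i hi => by
      simp only [res]
      rw [Nat.cast_add, Nat.cast_mul, (ZMod.natCast_eq_zero_iff _ _).2 (dvd_prod_of_mem P hi),
        zero_mul, add_zero]
  have e1 : ∀ M, ∑ n ∈ range ((∏ i ∈ D, P i) * M), f (res P n) =
      M * ∑ n ∈ range (∏ i ∈ D, P i), f (res P n) := fun M => by
    simp only [sum_blocks, hb, sum_const, card_range, nsmul_eq_mul, mul_sum]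
  have e2 := sum_period hinj f
  rw [← prod_mul_prod_compl D, e1, Nat.cast_mul, mul_comm ((∏ i ∈ D, P i : ℕ) : ℝ), mul_assoc,
    mul_right_inj' (by exact_mod_cast hN.ne')] at e2
  have e3 : ∑ n ∈ range x, f (res P n) = ((∏ i ∈ D, P i) * (x / ∏ i ∈ D, P i) : ℕ) * 𝔼 ω, f ω +
      ∑ n ∈ range (x % ∏ i ∈ D, P i), f (res P n) := by
    conv_lhs => rw [← Nat.div_add_mod x (∏ i ∈ D, P i), sum_range_add, e1, e2]
    simp only [add_comm (_ * _), hb]
    push_cast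
    ring
  have x0 : (0 : ℝ) < x := by exact_mod_cast hx
  have e4 : (x : ℝ) = ((∏ i ∈ D, P i) * (x / ∏ i ∈ D, P i) : ℕ) + (x % ∏ i ∈ D, P i : ℕ) := by
    exact_mod_cast (Nat.div_add_mod _ _).symm
  have h1 : ((x % ∏ i ∈ D, P i : ℕ) : ℝ) ≤ (∏ i ∈ D, P i : ℕ) := by
    exact_mod_cast (Nat.mod_lt _ hm).le
  have h2 : 0 ≤ ∑ n ∈ range (x % ∏ i ∈ D, P i), f (res P n) := sum_nonneg fun _ _ => (h0 _).1
  have h3 : ∑ n ∈ range (x % ∏ i ∈ D, P i), f (res P n) ≤ (x % ∏ i ∈ D, P i : ℕ) := by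
    simpa using sum_le_card_nsmul (range (x % ∏ i ∈ D, P i)) _ 1 fun n _ => (h0 (res P n)).2
  have h4 : 0 ≤ 𝔼 ω, f ω := expect_nonneg fun _ _ => (h0 _).1
  have h5 : 𝔼 ω, f ω ≤ 1 := expect_le univ_nonempty fun _ _ => (h0 _).2
  have h6 : (0 : ℝ) ≤ (x % ∏ i ∈ D, P i : ℕ) := Nat.cast_nonneg _
  rw [dl, expect_eq_sum_div_card, card_range, div_sub' x0.ne', abs_div, abs_of_pos x0, e3]
  refine div_le_div_of_nonneg_right ?_ x0.le
  rw [e4, abs_le]
  constructor <;> nlinarith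

/-- Indicator of the class of the starting point. -/
noncomputable def st (i0 : ι) (A : ZMod (P i0)) (ω : ∀ i, ZMod (P i)) : ℝ :=
  if ω i0 = A then 1 else 0

omit [Fintype ι] [DecidableEq ι] hP in
theorem st_mem (i0 : ι) (A : ZMod (P i0)) (ω : ∀ i, ZMod (P i)) :
    0 ≤ st i0 A ω ∧ st i0 A ω ≤ 1 := by
  unfold st; split_ifs <;> norm_num

theorem brun (hinj : Injective P) {z : ℕ} (hz : ∀ i, P i ≤ z) (i0 : ι) (A : ZMod (P i0))
    (S : Finset ι) (T : Finset ℕ) (r : ℕ) {x : ℕ} (hx : 0 < x) :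
    |dl P x fun ω => st i0 A ω * ∏ t ∈ T, xs P S t ω| ≤ (r + 1) * ((#S + 1) ^ r *
      ((z : ℝ) ^ (r + 1) / x)) + 2 * rexp (3 * (#T * ∑ i ∈ S, 1 / (P i : ℝ)) - r) := by
  have hH : ∀ (p : ℕ) (a : ZMod p), 0 ≤ 1 - ∏ t ∈ T, (1 - hit p t a) ∧
      1 - ∏ t ∈ T, (1 - hit p t a) ≤ 1 := fun p a =>
    ⟨sub_nonneg.2 (prod_le_one (fun _ _ => (hit_mem ..).1) fun _ _ => (hit_mem ..).2),
      sub_le_self _ (prod_nonneg fun _ _ => (hit_mem ..).1)⟩
  have hD : ∀ (D : Finset ι) (ω : ∀ i, ZMod (P i)),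
      0 ≤ ∏ i ∈ D, (1 - ∏ t ∈ T, (1 - hit (P i) t (ω i))) ∧
      ∏ i ∈ D, (1 - ∏ t ∈ T, (1 - hit (P i) t (ω i))) ≤ 1 := fun D ω =>
    ⟨prod_nonneg fun _ _ => (hH _ _).1, prod_le_one (fun _ _ => (hH _ _).1) fun _ _ => (hH _ _).2⟩
  have h := transfer P x (st i0 A) (fun i ω => 1 - ∏ t ∈ T, (1 - hit (P i) t (ω i)))
    (fun ω => (st_mem i0 A ω).1) (fun i ω => hH _ _) S r (η := (z : ℝ) ^ (r + 1) / x)
    (fun i => #T * (1 / (P i : ℝ))) (fun i => by positivity) (fun D _ hr => ?_) fun D _ => ?_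
  · simp only [sub_sub_cancel, ← mul_sum] at h
    simp only [xs]
    simp only [prod_comm (s := T)]
    exact h
  · refine (junta hinj (D := insert i0 D) (fun ω ω' h => ?_) (fun ω => ⟨mul_nonneg (st_mem ..).1
      (hD D ω).1, mul_le_one₀ (st_mem ..).2 (hD D ω).1 (hD D ω).2⟩) hx).trans ?_
    · rw [st, st, h i0 (by simp)]
      exact congrArg _ (prod_congr rfl fun i hi => by rw [h i (by simp [hi])])
    · refine div_le_div_of_nonneg_right ?_ (Nat.cast_nonneg x)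
      exact_mod_cast (prod_le_pow_card _ _ z fun i _ => hz i).trans (Nat.pow_le_pow_right
        ((hP i0).out.pos.trans_le (hz i0)) ((card_insert_le _ _).trans (Nat.succ_le_succ hr)))
  · refine (expect_le_expect fun ω _ => mul_le_of_le_one_left (hD D ω).1 (st_mem ..).2).trans ?_
    rw [E_prod D fun i a => 1 - ∏ t ∈ T, (1 - hit (P i) t a)]
    refine prod_le_prod (fun i _ => expect_nonneg fun _ _ => (hH _ _).1) fun i _ => ?_
    refine (expect_le_expect (g := fun a => ∑ t ∈ T, hit (P i) t a) fun a _ => ?_).trans_eq ?_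
    · have := bonf_sign (fun t => hit (P i) t a) (fun t => ⟨by linarith [(hit_mem _ t a).2],
        by linarith [(hit_mem _ t a).1]⟩) T 2
      simp [sum_range_succ, powersetCard_one] at this
      linarith
    · rw [expect_sum_comm]
      simp only [E_hit, sum_const, nsmul_eq_mul]

theorem E_surv (S : Finset ι) {T : Finset ℕ} {h : ℕ} (hT : ∀ t ∈ T, t ≤ h) :
    𝔼 ω, ∏ t ∈ T, xs P S t ω ≤ (∏ i ∈ S with h < P i, (1 - 1 / (P i : ℝ))) ^ #T := by
  simp only [xs]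
  simp only [prod_comm (s := T)]
  rw [E_prod S fun i a => ∏ t ∈ T, (1 - hit (P i) t a), ← prod_pow, prod_filter]
  refine prod_le_prod (fun i _ => expect_nonneg fun _ _ => prod_nonneg fun _ _ => (hit_mem ..).1)
    fun i _ => ?_
  split_ifs with hi
  · refine (expect_le_expect (g := fun a => 1 - ∑ t ∈ T, hit (P i) t a) fun a _ => ?_).trans ?_
    · by_cases ha : ∃ t ∈ T, hit (P i) t a = 1
      · obtain ⟨t, ht, e⟩ := ha
        rw [prod_eq_zero ht (by rw [e, sub_self]), sum_eq_single_of_mem t ht fun s hs hst => ?_, e,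
          sub_self]
        rw [← one_mul (hit _ s a), ← e, hit_mul, if_neg]
        rw [ZMod.natCast_eq_natCast_iff', Nat.mod_eq_of_lt ((hT t ht).trans_lt hi),
          Nat.mod_eq_of_lt ((hT s hs).trans_lt hi)]
        exact hst.symm
      · have h0 : ∀ t ∈ T, hit (P i) t a = 0 := fun t ht => by
          by_contra h1
          refine ha ⟨t, ht, ?_⟩
          unfold hit at h1 ⊢
          split_ifs at h1 ⊢ <;> simp_all
        rw [sum_eq_zero h0, prod_eq_one fun t ht => by rw [h0 t ht, sub_zero], sub_zero]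
    · rw [expect_sub_distrib, expect_sum_comm, expect_const univ_nonempty]
      simp only [E_hit, sum_const, nsmul_eq_mul]
      exact (pow_approx (by positivity) (by linarith [(frac_mem P i).1]) _).1
  · exact expect_le univ_nonempty fun _ _ =>
      prod_le_one (fun _ _ => (hit_mem ..).1) fun _ _ => (hit_mem ..).2

theorem outer (i0 : ι) (A : ZMod (P i0)) (S : Finset ι) {a : ℕ → ℝ} (ha : ∀ t, a t = 0 ∨ a t = 1)
    {n K h : ℕ} (hn : n ≤ h) {T0 : Finset ℕ} (hT : ∀ t ∈ T0, t = 0 ∨ n < t) (hT' : #T0 ≤ 2)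
    (x : ℕ) {η : ℝ} (hη : ∀ T : Finset ℕ, #T ≤ K + 2 →
      |dl P x fun ω => st i0 A ω * ∏ t ∈ T, xs P S t ω| ≤ η) :
    |dl P x fun ω => st i0 A ω * (∏ t ∈ T0, xs P S t ω) *
      ∏ i ∈ range n, (1 - a (1 + i) * xs P S (1 + i) ω)| ≤ (K + 1) * ((h + 1) ^ K * η) +
      2 * rexp (3 * (h * ∏ i ∈ S with h < P i, (1 - 1 / (P i : ℝ))) - K) := by
  have a0 : ∀ t, 0 ≤ a t ∧ a t ≤ 1 := fun t => by rcases ha t with h | h <;> rw [h] <;> norm_num
  have β0 : 0 ≤ ∏ i ∈ S with h < P i, (1 - 1 / (P i : ℝ)) :=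
    prod_nonneg fun i _ => (frac_mem P i).1
  have η0 : 0 ≤ η := (abs_nonneg _).trans (hη ∅ (Nat.zero_le _))
  have x0 : ∀ (T : Finset ℕ) ω, 0 ≤ ∏ t ∈ T, xs P S t ω ∧ ∏ t ∈ T, xs P S t ω ≤ 1 := fun T ω =>
    ⟨prod_nonneg fun _ _ => (xs_mem ..).1,
      prod_le_one (fun _ _ => (xs_mem ..).1) fun _ _ => (xs_mem ..).2⟩
  have hi : Injective fun i : ℕ => 1 + i := add_right_injective 1
  have aD : ∀ D : Finset ℕ, 0 ≤ ∏ i ∈ D, a (1 + i) ∧ ∏ i ∈ D, a (1 + i) ≤ 1 := fun D =>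
    ⟨prod_nonneg fun _ _ => (a0 _).1, prod_le_one (fun _ _ => (a0 _).1) fun _ _ => (a0 _).2⟩
  have hn' : (n : ℝ) ≤ h := by exact_mod_cast hn
  refine (transfer P x (fun ω => st i0 A ω * ∏ t ∈ T0, xs P S t ω)
    (fun i ω => a (1 + i) * xs P S (1 + i) ω) (fun ω => mul_nonneg (st_mem ..).1 (x0 _ _).1)
    (fun i ω => ⟨mul_nonneg (a0 _).1 (xs_mem ..).1, mul_le_one₀ (a0 _).2 (xs_mem ..).1
      (xs_mem ..).2⟩) (range n) K (η := η) (fun _ => ∏ i ∈ S with h < P i, (1 - 1 / (P i : ℝ)))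
    (fun _ => β0) (fun D hD hK => ?_) fun D hD => ?_).trans ?_
  · have hd : Disjoint T0 (D.image fun i => 1 + i) := disjoint_left.2 fun t ht h' => by
      obtain ⟨i, hi, rfl⟩ := mem_image.1 h'
      have := mem_range.1 (hD hi)
      rcases hT _ ht with h | h <;> omega
    have e : ∀ ω, (st i0 A ω * ∏ t ∈ T0, xs P S t ω) * ∏ i ∈ D, a (1 + i) * xs P S (1 + i) ω =
        (∏ i ∈ D, a (1 + i)) * (st i0 A ω * ∏ t ∈ T0 ∪ D.image fun i => 1 + i, xs P S t ω) :=
      fun ω => by rw [prod_union hd, prod_image hi.injOn, prod_mul_distrib]; ring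
    simp only [dl, e, ← mul_expect, ← mul_sub]
    refine abs_mul_le (abs_le.2 ⟨by linarith [(aD D).1], (aD D).2⟩) (hη _ ?_)
    exact (card_union_le _ _).trans (by have := card_image_le (s := D) (f := fun i => 1 + i); omega)
  · rw [prod_const, ← card_image_of_injective D hi]
    refine le_trans (expect_le_expect fun ω _ => ?_) (E_surv S fun t ht => ?_)
    · rw [prod_mul_distrib, prod_image hi.injOn]
      have := x0 (D.image fun i => 1 + i) ω
      rw [prod_image hi.injOn] at this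
      exact (mul_le_of_le_one_left (mul_nonneg (aD D).1 this.1) (mul_le_one₀ (st_mem ..).2
        (x0 _ _).1 (x0 _ _).2)).trans (mul_le_of_le_one_left this.1 (aD D).2)
    · obtain ⟨i, hi, rfl⟩ := mem_image.1 ht
      have := mem_range.1 (hD hi)
      omega
  · rw [card_range, sum_const, card_range, nsmul_eq_mul]
    gcongr

end Pool.Agent.Lib.MP_a3b3a7_nt.M
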